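import Mathlib

/-!
# Height two ideals in `m + 3` variables with prescribed symbolic depth function: definitions
(MP_75fc3b_ag).  Proofs: /team-store/symd_blueprint.md.
-/

set_option autoImplicit false

universe u

open MvPolynomial CategoryTheory Abelian

namespace Pool.Agent.Helper91.SymD

/-! ## General notions -/

section General

variable {R : Type u} [CommRing R]

/-- The `t`-th symbolic power `⋂_{P ∈ Min Q} (Q^t R_P ∩ R)`. -/
noncomputable def symbPow (Q : Ideal R) (t : ℕ) : Ideal R :=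
  ⨅ P : Q.minimalPrimes,
    haveI : P.1.IsPrime := P.2.1.1
    ((Q ^ t).map (algebraMap R (Localization.AtPrime P.1))).comap
      (algebraMap R (Localization.AtPrime P.1))

/-- `d` is the depth of `M` with respect to `I`: the largest length of an `M`-regular sequence
with entries in `I`. -/
def HasDepth (I : Ideal R) (M : Type u) [AddCommGroup M] [Module R M] (d : ℕ) : Prop :=
  IsGreatest {n : ℕ | ∃ rs : List R, rs.length = n ∧ (∀ r ∈ rs, r ∈ I) ∧
    RingTheory.Sequence.IsRegular M rs} d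

/-- elementwise form of: `rs` is weakly regular on `R ⧸ J` -/
def RegMod : Ideal R → List R → Prop
  | _, [] => True
  | J, r :: rs => (∀ f, r * f ∈ J → f ∈ J) ∧ RegMod (J ⊔ Ideal.span {r}) rs

/-- `Ext^i(R/I, M) = 0` for all `i < n` -/
def VM (I : Ideal R) (M : Type u) [AddCommGroup M] [Module R M] (n : ℕ) : Prop :=
  ∀ i < n, Subsingleton (Ext (ModuleCat.of R (Shrink.{u} (R ⧸ I))) (ModuleCat.of R M) i)

/-- `Ext^i(R/I, R/J) = 0` for all `i < n` -/
def V (I J : Ideal R) (n : ℕ) : Prop := VM I (R ⧸ J) n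

end General

/-! ## Ideals of `A[x, y]` given coefficient by coefficient -/

section Coeff

variable {A : Type u} [CommRing A]

/-- the ideal of all `f ∈ A[x, y]` with `coeff d f ∈ a d` for all exponents `d` -/
noncomputable def cw (a : (Fin 2 →₀ ℕ) →o Ideal A) : Ideal (MvPolynomial (Fin 2) A) where
  carrier := {f | ∀ d, coeff d f ∈ a d}
  add_mem' := by
    intro f g hf hg d
    rw [coeff_add]
    exact (a d).add_mem (hf d) (hg d)
  zero_mem' := by
    intro d
    rw [coeff_zero]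
    exact (a d).zero_mem
  smul_mem' := by
    intro r f hf d
    rw [smul_eq_mul, coeff_mul]
    refine (a d).sum_mem fun x hx => ?_
    refine (a d).mul_mem_left _ ?_
    have h : x.2 ≤ d := (Finset.HasAntidiagonal.mem_antidiagonal.1 hx) ▸ le_add_self
    exact a.monotone h (hf x.2)

/-- sums of `t` elements of `Γ` -/
def Reach (Γ : Finset (ℕ × ℕ × ℕ)) : ℕ → Set (ℕ × ℕ × ℕ)
  | 0 => {(0, 0, 0)}
  | (t + 1) => {r | ∃ g ∈ Γ, ∃ r' ∈ Reach Γ t, r = (g.1 + r'.1, g.2.1 + r'.2.1, g.2.2 + r'.2.2)}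

/-- the least `c` such that `x^a y^b f^c` is divisible by a product of `t` generators -/
noncomputable def ee (Γ : Finset (ℕ × ℕ × ℕ)) (t a b : ℕ) : ℕ :=
  sInf {c | ∃ a' b', (a', b', c) ∈ Reach Γ t ∧ a' ≤ a ∧ b' ≤ b}

/-- the ideal generated by the terms `x^a y^b f^c`, `(a, b, c) ∈ Γ` -/
noncomputable def idl (f : A) (Γ : Finset (ℕ × ℕ × ℕ)) : Ideal (MvPolynomial (Fin 2) A) :=
  Ideal.span ((fun g : ℕ × ℕ × ℕ => (X 0 ^ g.1 * X 1 ^ g.2.1 * C (f ^ g.2.2) :
    MvPolynomial (Fin 2) A)) '' (Γ : Set (ℕ × ℕ × ℕ)))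

/-- the prime ideal `(x, y, f)` as the ideal of all `g` with constant coefficient in `(f)` -/
noncomputable def pr (f : A) : Ideal (MvPolynomial (Fin 2) A) :=
  (Ideal.span {f}).comap (constantCoeff (R := A) (σ := Fin 2))

/-- the generators `x^μ, y^β, f` -/
def ΓG (μ β : ℕ) : Finset (ℕ × ℕ × ℕ) := {(μ, 0, 0), (0, β, 0), (0, 0, 1)}

end Coeff

/-! ## The parameters -/

/-- `ε` -/
def eps (t0 D : ℕ) : ℕ := 2 * (t0 + D) + 5

/-- `K = 2 ε + 2` -/
def KK (t0 D : ℕ) : ℕ := 2 * eps t0 D + 2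

/-- generators of the clock ideal: exponents of `x`, `y`, `p` -/
def Γ3 (N t0 D : ℕ) (ψ : ℕ → ℕ) : Finset (ℕ × ℕ × ℕ) :=
  {(0, KK t0 D + 1, 0), (0, KK t0 D + 1 - D, (N + 1) * D), (2 * KK t0 D + 1, 0, 0),
    (0, 0, (N + 1) * (2 * KK t0 D + 1))} ∪
  ((Finset.range (t0 + D - 1)).filter (fun s => t0 ≤ s + 1 ∧ 1 ≤ ψ (s + 1))).image
    (fun s => (eps t0 D + 2, KK t0 D - 1 - s, (N + 1) * (s + 1) - ψ (s + 1))) ∪
  ((Finset.range (t0 - 1)).filter (fun s => 1 ≤ ψ (s + 1))).image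
    (fun s => (eps t0 D + 3 + s, KK t0 D - 2 - 2 * s, (N + 1) * (s + 1) - ψ (s + 1)))

/-- hypotheses on the defect function `ψ = m - φ`, `N = m - 1` -/
structure Good (N t0 D : ℕ) (ψ : ℕ → ℕ) : Prop where
  ht0 : 1 ≤ t0
  hD : 1 ≤ D
  le : ∀ t, ψ t ≤ N
  per : ∀ t, t0 ≤ t → ψ (t + D) = ψ t

/-! ## The rings and the ideals -/

section Rings

variable (k : Type u) [Field k] (N : ℕ)

/-- `A = k[p, q, z_0, …, z_{N-1}]` -/
abbrev AA : Type u := MvPolynomial (Fin 2 ⊕ Fin N) k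

/-- `R = A[x, y]` -/
abbrev RR : Type u := MvPolynomial (Fin 2) (AA k N)

variable {k N}

/-- `p` -/
noncomputable def pp : AA k N := X (Sum.inl 0)

/-- `q` -/
noncomputable def qq : AA k N := X (Sum.inl 1)

/-- `z_i` -/
noncomputable def zz (i : Fin N) : AA k N := X (Sum.inr i)

variable (k N)

/-- `h = ∑ p^{N-1-i} q^i z_i` -/
noncomputable def hh : AA k N := ∑ i : Fin N, pp ^ (N - 1 - (i : ℕ)) * qq ^ (i : ℕ) * zz i

/-- `h' = h + p^N` -/
noncomputable def hh' : AA k N := hh k N + pp ^ N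

/-- `(p^n, q^n) ⊆ A`, `n = N + 1` -/
noncomputable def bb : Ideal (AA k N) := Ideal.span {pp ^ (N + 1), qq ^ (N + 1)}

/-- `(p, q) ⊆ A` -/
noncomputable def pq : Ideal (AA k N) := Ideal.span {pp, qq}

/-- the homogeneous maximal ideal of `A` -/
noncomputable def mA : Ideal (AA k N) := Ideal.span (Set.range X)

/-- the homogeneous maximal ideal of `R` -/
noncomputable def mR : Ideal (RR k N) :=
  Ideal.span (Set.range (X : Fin 2 → RR k N) ∪ Set.range fun v => C (X v : AA k N))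

/-- first component `(p^n, q^n)` -/
noncomputable def Q1 : Ideal (RR k N) := (bb k N).map C

/-- the gate of the periodic labels -/
noncomputable def Q2 (t0 D : ℕ) : Ideal (RR k N) := idl (hh k N) (ΓG (eps t0 D + 3) (KK t0 D))

/-- the gate of the initial labels -/
noncomputable def Q2' (t0 D : ℕ) : Ideal (RR k N) := idl (hh' k N) (ΓG (KK t0 D) (KK t0 D - 1))

/-- the clock -/
noncomputable def Q3 (t0 D : ℕ) (ψ : ℕ → ℕ) : Ideal (RR k N) := idl pp (Γ3 N t0 D ψ)

/-- the intersection of the `t`-th powers of the components containing `x, y` -/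
noncomputable def DD (t0 D : ℕ) (ψ : ℕ → ℕ) (t : ℕ) : Ideal (RR k N) :=
  Q3 k N t0 D ψ ^ t ⊓ (Q2 k N t0 D ^ t ⊓ Q2' k N t0 D ^ t)

/-- the ideal `Q` -/
noncomputable def QQ (t0 D : ℕ) (ψ : ℕ → ℕ) : Ideal (RR k N) :=
  Q1 k N ⊓ (Q3 k N t0 D ψ ⊓ (Q2 k N t0 D ⊓ Q2' k N t0 D))

/-- exponent of `h` -/
def eJ (t0 D t a b : ℕ) : ℕ := t - (a / (eps t0 D + 3) + b / KK t0 D)

/-- exponent of `h'` -/
def eJ' (t0 D t a b : ℕ) : ℕ := t - (a / KK t0 D + b / (KK t0 D - 1))

/-- the generator of the coefficient ideal of `DD` -/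
noncomputable def FF (t0 D : ℕ) (ψ : ℕ → ℕ) (t a b : ℕ) : AA k N :=
  pp ^ ee (Γ3 N t0 D ψ) t a b * (hh k N ^ eJ t0 D t a b * hh' k N ^ eJ' t0 D t a b)

/-- the `z_i`, `i < N - s` -/
noncomputable def zs (s : ℕ) : List (AA k N) :=
  ((List.finRange N).filter fun i : Fin N => decide ((i : ℕ) < N - s)).map fun i => zz i

/-- a bijection of the variables: `RR k N` is a polynomial ring in `N + 4` variables -/
noncomputable def eqv : RR k N ≃+* MvPolynomial (Fin (N + 4)) k :=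
  ((sumAlgEquiv k (Fin 2) (Fin 2 ⊕ Fin N)).symm.trans
    (renameEquiv k (Fintype.equivOfCardEq (by simp; omega)))).toRingEquiv

/-- the augmentation `RR k N → k` -/
noncomputable def aug : RR k N →+* k :=
  (constantCoeff (R := k) (σ := Fin 2 ⊕ Fin N)).comp (constantCoeff (R := AA k N) (σ := Fin 2))

theorem mR_le_ker : mR k N ≤ RingHom.ker (aug k N) := by
  rw [mR, Ideal.span_le]
  rintro _ (⟨i, rfl⟩ | ⟨v, rfl⟩) <;> simp [aug]

theorem mR_ne_top : mR k N ≠ ⊤ := by
  intro h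
  have h1 : (1 : RR k N) ∈ RingHom.ker (aug k N) := mR_le_ker k N (h ▸ Submodule.mem_top)
  rw [RingHom.mem_ker, map_one] at h1
  exact one_ne_zero h1

theorem pqC_le_mR : (pq k N).map (C : AA k N →+* RR k N) ≤ mR k N := by
  rw [pq, Ideal.map_span, Ideal.span_le]
  rintro _ ⟨a, (rfl | rfl), rfl⟩
  · exact Ideal.subset_span (Or.inr ⟨_, rfl⟩)
  · exact Ideal.subset_span (Or.inr ⟨_, rfl⟩)

end Rings

section Vars

variable {σ : Type} [DecidableEq σ] {k : Type u} [Field k]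

/-- set the variable `v` to `0` -/
noncomputable def th (v : σ) : MvPolynomial σ k →ₐ[k] MvPolynomial σ k :=
  aeval (Function.update X v 0)

end Vars

end Pool.Agent.Helper91.SymD
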