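import Mathlib
import Pool.Agent.Helper91.SymD.Defs

/-! MP_75fc3b_ag, module COMBA.  Proof: /team-store/symd_blueprint.md -/

set_option autoImplicit false

universe u

open MvPolynomial CategoryTheory Abelian

namespace Pool.Agent.Helper91.SymD

section COMBA

variable {N t0 D : ℕ} {ψ : ℕ → ℕ}

/-- The shape of the elements which are reached without many labels. -/
def CombAL (N D : ℕ) (ψ : ℕ → ℕ) (t0 E K t a b c : ℕ) : Prop :=
  (∃ s j, t0 ≤ s + 1 ∧ a = E + 2 ∧ b + s + D * j + 2 = (K + 1) * t ∧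
    c + ψ (s + 1) = (N + 1) * (s + 1 + D * j)) ∨
  (∃ s j, s + 2 ≤ t0 ∧ a = E + 3 + s ∧ b + 3 + 2 * s + D * j = (K + 1) * t ∧
    c + ψ (s + 1) = (N + 1) * (s + 1 + D * j))

theorem combAL_w {E K t a b c : ℕ} (hle : ∀ t, ψ t ≤ N) (h : CombAL N D ψ t0 E K t a b c) :
    (N + 1) * ((K + 1) * t) + (N + 1) * E ≤ (N + 1) * (a + b) + c := by
  rcases h with ⟨s, j, -, h2, h3, h4⟩ | ⟨s, j, -, h2, h3, h4⟩
  · have h5 := hle (s + 1)
    have h6 : (N + 1) * _ = (N + 1) * _ := congrArg (fun x => (N + 1) * x) h3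
    subst h2
    nlinarith
  · have h5 := hle (s + 1)
    have h6 : (N + 1) * _ = (N + 1) * _ := congrArg (fun x => (N + 1) * x) h3
    subst h2
    nlinarith

theorem combA_cls {E K : ℕ} (hE : E = eps t0 D) (hK : K = KK t0 D) (H : Good N t0 D ψ) :
    ∀ (t a b c : ℕ), (a, b, c) ∈ Reach (Γ3 N t0 D ψ) t →
      (∃ j, a = 0 ∧ b + D * j = (K + 1) * t ∧ c = (N + 1) * (D * j)) ∨
      CombAL N D ψ t0 E K t a b c ∨
      (N + 1) * ((K + 1) * t) + 2 * ((N + 1) * E) ≤ (N + 1) * (a + b) + c := by
  have hKE : K = 2 * E + 2 := by rw [hK, hE, KK]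
  have hED : E = 2 * (t0 + D) + 5 := by rw [hE, eps]
  intro t
  induction t with
  | zero =>
    intro a b c h
    simp only [Reach, Set.mem_singleton_iff, Prod.mk.injEq] at h
    obtain ⟨rfl, rfl, rfl⟩ := h
    exact Or.inl ⟨0, rfl, by simp, by simp⟩
  | succ t ih =>
    intro a b c h
    obtain ⟨⟨x, y, z⟩, hg, ⟨a', b', c'⟩, hr, he⟩ := h
    simp only [Prod.mk.injEq] at he
    obtain ⟨rfl, rfl, rfl⟩ := he
    have ih' := ih a' b' c' hr
    have hw : (N + 1) * ((K + 1) * t) ≤ (N + 1) * (a' + b') + c' := by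
      rcases ih' with ⟨j, h1, h2, h3⟩ | h1 | h1
      · have h6 : (N + 1) * _ = (N + 1) * _ := congrArg (fun x => (N + 1) * x) h2
        subst h1
        nlinarith
      · have := combAL_w H.le h1
        omega
      · omega
    have e1 : (N + 1) * ((K + 1) * (t + 1)) = (N + 1) * ((K + 1) * t) + (N + 1) * (K + 1) := by
      ring
    have e2 : (N + 1) * (x + a' + (y + b')) + (z + c') =
        ((N + 1) * (x + y) + z) + ((N + 1) * (a' + b') + c') := by ring
    have e3 : (K + 1) * (t + 1) = (K + 1) * t + (K + 1) := by ring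
    -- the label cases
    have hlab : (((∃ s, t0 ≤ s + 1 ∧ x = E + 2 ∧ y + s + 2 = K + 1 ∧
        z + ψ (s + 1) = (N + 1) * (s + 1)) ∨
        (∃ s, s + 2 ≤ t0 ∧ x = E + 3 + s ∧ y + 3 + 2 * s = K + 1 ∧
        z + ψ (s + 1) = (N + 1) * (s + 1))) → 
        (∃ j, x + a' = 0 ∧ y + b' + D * j = (K + 1) * (t + 1) ∧
          z + c' = (N + 1) * (D * j)) ∨
        CombAL N D ψ t0 E K (t + 1) (x + a') (y + b') (z + c') ∨
        (N + 1) * ((K + 1) * (t + 1)) + 2 * ((N + 1) * E) ≤
          (N + 1) * (x + a' + (y + b')) + (z + c')) := by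
      intro hl
      have hwg : (N + 1) * (K + 1) + (N + 1) * E ≤ (N + 1) * (x + y) + z := by
        have h7 : CombAL N D ψ t0 E K 1 x y z := by
          rcases hl with ⟨s, g1, g2, g3, g4⟩ | ⟨s, g1, g2, g3, g4⟩
          · exact Or.inl ⟨s, 0, g1, g2, by omega, by simpa using g4⟩
          · exact Or.inr ⟨s, 0, g1, g2, by omega, by simpa using g4⟩
        have h8 := combAL_w H.le h7
        rw [mul_one] at h8
        exact h8
      rcases ih' with ⟨j, h1, h2, h3⟩ | h1 | h1
      · right; left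
        subst h1
        rcases hl with ⟨s, g1, g2, g3, g4⟩ | ⟨s, g1, g2, g3, g4⟩
        · refine Or.inl ⟨s, j, g1, by omega, by omega, ?_⟩
          rw [mul_add (N + 1) (s + 1), ← h3, ← g4]
          ring
        · refine Or.inr ⟨s, j, g1, by omega, by omega, ?_⟩
          rw [mul_add (N + 1) (s + 1), ← h3, ← g4]
          ring
      · right; right
        have h8 := combAL_w H.le h1
        omega
      · right; right
        omega
    simp only [Γ3, Finset.mem_union, Finset.mem_insert, Finset.mem_singleton, Finset.mem_image,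
      Finset.mem_filter, Finset.mem_range, Prod.mk.injEq, ← hE, ← hK] at hg
    rcases hg with ((⟨rfl, rfl, rfl⟩ | ⟨rfl, rfl, rfl⟩ | ⟨rfl, rfl, rfl⟩ | ⟨rfl, rfl, rfl⟩) |
      ⟨s, ⟨h1, h2, h3⟩, rfl, rfl, rfl⟩) | ⟨s, ⟨h1, h2⟩, rfl, rfl, rfl⟩
    · -- `g1`
      rcases ih' with ⟨j, h1, h2, h3⟩ | h1 | h1
      · left
        exact ⟨j, by omega, by omega, by omega⟩
      · right; left
        rcases h1 with ⟨s, j, g1, g2, g3, g4⟩ | ⟨s, j, g1, g2, g3, g4⟩
        · exact Or.inl ⟨s, j, g1, by omega, by omega, by omega⟩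
        · exact Or.inr ⟨s, j, g1, by omega, by omega, by omega⟩
      · right; right
        have : (N + 1) * (0 + (K + 1)) + 0 = (N + 1) * (K + 1) := by ring
        omega
    · -- `g2`
      have hD1 : D ≤ K + 1 := by omega
      have e4 : ∀ j, D * (j + 1) = D * j + D := fun j => by ring
      rcases ih' with ⟨j, h1, h2, h3⟩ | h1 | h1
      · left
        refine ⟨j + 1, by omega, ?_, ?_⟩
        · have := e4 j
          omega
        · rw [e4, mul_add, h3]
          ring
      · right; left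
        rcases h1 with ⟨s, j, g1, g2, g3, g4⟩ | ⟨s, j, g1, g2, g3, g4⟩
        · refine Or.inl ⟨s, j + 1, g1, by omega, ?_, ?_⟩
          · have := e4 j
            omega
          · rw [e4, ← add_assoc, mul_add, ← g4]
            ring
        · refine Or.inr ⟨s, j + 1, g1, by omega, ?_, ?_⟩
          · have := e4 j
            omega
          · rw [e4, ← add_assoc, mul_add, ← g4]
            ring
      · right; right
        have : (N + 1) * (0 + (K + 1 - D)) + (N + 1) * D = (N + 1) * (K + 1) := by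
          rw [← mul_add]
          congr 1
          omega
        omega
    · -- `g3`
      right; right
      have : (N + 1) * (2 * K + 1 + 0) + 0 = (N + 1) * (K + 1) + (N + 1) * K := by ring
      have h4 : 2 * ((N + 1) * E) ≤ (N + 1) * K := by rw [hKE]; nlinarith
      omega
    · -- `g4`
      right; right
      have : (N + 1) * (0 + 0) + (N + 1) * (2 * K + 1) = (N + 1) * (K + 1) + (N + 1) * K := by ring
      have h4 : 2 * ((N + 1) * E) ≤ (N + 1) * K := by rw [hKE]; nlinarith
      omega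
    · refine hlab (Or.inl ⟨s, h2, rfl, by omega, ?_⟩)
      have h5 := H.le (s + 1)
      have h6 : ψ (s + 1) ≤ (N + 1) * (s + 1) := by nlinarith
      omega
    · refine hlab (Or.inr ⟨s, by omega, rfl, by omega, ?_⟩)
      have h5 := H.le (s + 1)
      have h6 : ψ (s + 1) ≤ (N + 1) * (s + 1) := by nlinarith
      omega

theorem combA_per (H : Good N t0 D ψ) {s : ℕ} (hs : t0 ≤ s) (j : ℕ) : ψ (s + D * j) = ψ s := by
  induction j with
  | zero => simp
  | succ j ih =>
    rw [mul_add, mul_one, ← add_assoc, H.per _ (by omega), ih]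

theorem comb1 (H : Good N t0 D ψ) {t a b c : ℕ} (ht : 1 ≤ t)
    (h : (a, b, c) ∈ Reach (Γ3 N t0 D ψ) t) :
    (N + 1) * t ≤ c + ψ t ∨
      (t ≤ a / (eps t0 D + 3) + b / KK t0 D ∧ t ≤ a / KK t0 D + b / (KK t0 D - 1)) := by
  obtain ⟨E, hE⟩ : ∃ E, E = eps t0 D := ⟨_, rfl⟩
  obtain ⟨K, hK⟩ : ∃ K, K = KK t0 D := ⟨_, rfl⟩
  have hKE : K = 2 * E + 2 := by rw [hK, hE, KK]
  have hED : E = 2 * (t0 + D) + 5 := by rw [hE, eps]
  have hD := H.hD
  have hcls := combA_cls hE hK H t a b c h
  rw [← hE, ← hK]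
  by_contra hcon
  push Not at hcon
  obtain ⟨h1, h2⟩ := hcon
  have z1 := Nat.zero_le (a / (E + 3))
  have z2 := Nat.zero_le (a / K)
  have z3 := Nat.zero_le (b / K)
  have z4 := Nat.zero_le (b / (K - 1))
  have hKm : K * t = (K - 1) * t + t := by
    obtain ⟨L, rfl⟩ : ∃ L, K = L + 1 := ⟨K - 1, by omega⟩
    rw [Nat.add_sub_cancel]
    ring
  have hb : ¬ K * t ≤ b := by
    intro hb
    have g1 : t ≤ b / K := (Nat.le_div_iff_mul_le (by omega)).2 (by rw [mul_comm]; exact hb)
    have g2 : t ≤ b / (K - 1) := (Nat.le_div_iff_mul_le (by omega)).2 (by rw [mul_comm]; omega)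
    have := h2 (by omega)
    omega
  have eKt : (K + 1) * t = K * t + t := by ring
  rcases hcls with ⟨j, g1, g2, g3⟩ | (⟨s, j, g0, g1, g2, g3⟩ | ⟨s, j, g0, g1, g2, g3⟩) | g
  · have g4 : D * j < t := by
      by_contra hlt
      push Not at hlt
      have : (N + 1) * t ≤ (N + 1) * (D * j) := Nat.mul_le_mul_left _ hlt
      omega
    omega
  · have g4 : s + 1 + D * j ≤ t := by
      by_contra hlt
      push Not at hlt
      have g5 : (N + 1) * (t + 1) ≤ (N + 1) * (s + 1 + D * j) := Nat.mul_le_mul_left _ hlt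
      have g6 := H.le (s + 1)
      rw [mul_add, mul_one] at g5
      omega
    have g5 : s + 1 + D * j ≠ t := by
      intro h5
      have h6 := combA_per H g0 j
      rw [h5] at h6 g3
      omega
    omega
  · have g4 : s + 1 + D * j ≤ t := by
      by_contra hlt
      push Not at hlt
      have g5 : (N + 1) * (t + 1) ≤ (N + 1) * (s + 1 + D * j) := Nat.mul_le_mul_left _ hlt
      have g6 := H.le (s + 1)
      rw [mul_add, mul_one] at g5
      omega
    have ha : 1 ≤ a / (E + 3) := (Nat.le_div_iff_mul_le (by omega)).2 (by omega)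
    have hb2 : t - 1 ≤ b / K := by
      refine (Nat.le_div_iff_mul_le (by omega)).2 ?_
      obtain ⟨u, rfl⟩ : ∃ u, t = u + 1 := ⟨t - 1, by omega⟩
      rw [Nat.add_sub_cancel]
      have : K * (u + 1) = u * K + K := by ring
      omega
    have h3 := h2 (by omega)
    have hb3 : b < (K - 1) * t := by
      by_contra hlt
      push Not at hlt
      have : t ≤ b / (K - 1) := (Nat.le_div_iff_mul_le (by omega)).2 (by rw [mul_comm]; exact hlt)
      omega
    have g5 : D * j = 0 := by omega
    have g6 : t = s + 1 := by omega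
    rw [g5, add_zero] at g3
    rw [g6] at h1
    omega
  · have g4 : K * t + (K - 1) ≤ a + b := by
      by_contra hlt
      push Not at hlt
      have g5 : (N + 1) * (a + b + 1) ≤ (N + 1) * (K * t + (K - 1)) := Nat.mul_le_mul_left _ hlt
      have g6 : (N + 1) * ((K + 1) * t) = (N + 1) * (K * t) + (N + 1) * t := by ring
      have g7 : (N + 1) * (K * t + (K - 1)) = (N + 1) * (K * t) + 2 * ((N + 1) * E) + (N + 1) := by
        have : K - 1 = 2 * E + 1 := by omega
        rw [this]
        ring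
      rw [mul_add (N + 1) (a + b) 1, mul_one] at g5
      omega
    have g5 : t ≤ a / K + b / K := by
      by_contra hlt
      push Not at hlt
      have ha := Nat.div_add_mod a K
      have hb := Nat.div_add_mod b K
      have ha' := Nat.mod_lt a (show K > 0 by omega)
      have hb' := Nat.mod_lt b (show K > 0 by omega)
      have h8 : K * (a / K + b / K + 1) ≤ K * t := Nat.mul_le_mul_left _ hlt
      rw [mul_add, mul_add, mul_one] at h8
      omega
    have g6 : a / K ≤ a / (E + 3) := Nat.div_le_div_left (by omega) (by omega)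
    have g7 : b / K ≤ b / (K - 1) := Nat.div_le_div_left (by omega) (by omega)
    have := h2 (by omega)
    omega

end COMBA

end Pool.Agent.Helper91.SymD
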