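import Mathlib
import Pool.Agent.Helper91.SymD.Defs

/-! MP_75fc3b_ag, module COMBB.  Proof: /team-store/symd_blueprint.md -/

set_option autoImplicit false

universe u

open MvPolynomial CategoryTheory Abelian

namespace Pool.Agent.Helper91.SymD

section COMBB

variable {N t0 D : ℕ} {ψ : ℕ → ℕ}

theorem combB_nsmul {Γ : Finset (ℕ × ℕ × ℕ)} {g1 g2 g3 : ℕ} (hg : (g1, g2, g3) ∈ Γ)
    {m a b c : ℕ} (h : (a, b, c) ∈ Reach Γ m) (i : ℕ) :
    (i * g1 + a, i * g2 + b, i * g3 + c) ∈ Reach Γ (m + i) := by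
  induction i with
  | zero => simpa using h
  | succ i ih =>
    refine ⟨_, hg, _, ih, ?_⟩
    simp only [Prod.mk.injEq]
    refine ⟨?_, ?_, ?_⟩ <;> ring

theorem combB_per (H : Good N t0 D ψ) (m j : ℕ) (h : t0 ≤ m) : ψ (m + D * j) = ψ m := by
  induction j with
  | zero => simp
  | succ j ih =>
    rw [mul_add, mul_one, ← add_assoc, H.per _ (by omega), ih]

theorem combB_mem {S : Set (ℕ × ℕ × ℕ)} {a b c a' b' c' : ℕ} (h : (a, b, c) ∈ S)
    (ha : a' = a) (hb : b' = b) (hc : c' = c) : (a', b', c') ∈ S := by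
  subst ha hb hc
  exact h

theorem comb2 (H : Good N t0 D ψ) {t : ℕ} (ht : 1 ≤ t) (h : 1 ≤ ψ t) :
    ∃ a b, eJ t0 D t a b + eJ' t0 D t a b = 1 ∧
      (a, b, (N + 1) * t - ψ t) ∈ Reach (Γ3 N t0 D ψ) t := by
  have hK : KK t0 D = 2 * eps t0 D + 2 := rfl
  have hε : eps t0 D = 2 * (t0 + D) + 5 := rfl
  have h0 := H.ht0
  have hD := H.hD
  have hg1 : (0, KK t0 D + 1, 0) ∈ Γ3 N t0 D ψ := by simp [Γ3]
  have hg2 : (0, KK t0 D + 1 - D, (N + 1) * D) ∈ Γ3 N t0 D ψ := by simp [Γ3]
  have hzero : ((0, 0, 0) : ℕ × ℕ × ℕ) ∈ Reach (Γ3 N t0 D ψ) 0 := rfl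
  rcases le_or_gt t0 t with htt | htt
  · obtain ⟨s, hs⟩ : ∃ s, s + 1 = t0 + (t - t0) % D := ⟨t0 + (t - t0) % D - 1, by omega⟩
    obtain ⟨j, hj⟩ : ∃ j, j = (t - t0) / D := ⟨_, rfl⟩
    have hmod : (t - t0) % D < D := Nat.mod_lt _ hD
    have hdm := Nat.mod_add_div (t - t0) D
    rw [← hj] at hdm
    have hts : t = s + 1 + D * j := by omega
    have hψ : ψ t = ψ (s + 1) := by
      rw [hts]
      exact combB_per H _ _ (by omega)
    have hP : (eps t0 D + 2, KK t0 D - 1 - s, (N + 1) * (s + 1) - ψ (s + 1)) ∈ Γ3 N t0 D ψ := by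
      unfold Γ3
      apply Finset.mem_union_left
      apply Finset.mem_union_right
      apply Finset.mem_image.2
      refine ⟨s, Finset.mem_filter.2 ⟨Finset.mem_range.2 (by omega), by omega, by rw [← hψ]; exact h⟩,
        rfl⟩
    have hjle : j ≤ D * j := Nat.le_mul_of_pos_left j hD
    obtain ⟨i, hi⟩ : ∃ i, t = 0 + 1 + j + i := ⟨t - 1 - j, by omega⟩
    have e1 := combB_nsmul hg1 (combB_nsmul hg2 (combB_nsmul hP hzero 1) j) i
    rw [← hi] at e1
    have hle : ψ (s + 1) ≤ (N + 1) * (s + 1) := by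
      have := H.le (s + 1)
      nlinarith
    obtain ⟨K, hKd⟩ : ∃ K, K = KK t0 D := ⟨_, rfl⟩
    obtain ⟨ε, hεd⟩ : ∃ ε, ε = eps t0 D := ⟨_, rfl⟩
    have hK' : K = 2 * ε + 2 := by rw [hKd, hεd]; exact hK
    have hε' : ε = 2 * (t0 + D) + 5 := by rw [hεd]; exact hε
    refine ⟨eps t0 D + 2, KK t0 D * t - 1, ?_, ?_⟩
    · unfold eJ eJ'
      rw [← hKd, ← hεd]
      have h1 : (ε + 2) / (ε + 3) = 0 := Nat.div_eq_of_lt (by omega)
      have h2 : (K * t - 1) / K = t - 1 := by
        obtain ⟨t', rfl⟩ : ∃ t', t = t' + 1 := ⟨t - 1, by omega⟩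
        have : K * (t' + 1) - 1 = K * t' + (K - 1) := by
          rw [mul_add, mul_one]; omega
        rw [this, Nat.mul_add_div (by omega), Nat.div_eq_of_lt (by omega)]
        omega
      have h3 : t ≤ (K * t - 1) / (K - 1) := by
        rw [Nat.le_div_iff_mul_le (by omega)]
        obtain ⟨K', rfl⟩ : ∃ K', K = K' + 1 := ⟨K - 1, by omega⟩
        have : (K' + 1) * t = t * K' + t := by ring
        rw [this]
        simp only [Nat.add_sub_cancel]
        omega
      rw [h1, h2]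
      have h4 : t - ((ε + 2) / K + (K * t - 1) / (K - 1)) = 0 :=
        Nat.sub_eq_zero_of_le (le_trans h3 (Nat.le_add_left _ _))
      rw [h4]
      omega
    · refine combB_mem e1 ?_ ?_ ?_
      · ring
      · rw [← hKd]
        have hDK : D ≤ K := by omega
        have hsK : s + 1 ≤ K := by omega
        obtain ⟨u, hu⟩ : ∃ u, K = s + 1 + u := ⟨K - (s + 1), by omega⟩
        obtain ⟨v, hv⟩ : ∃ v, K = D + v := ⟨K - D, by omega⟩
        have h1 : K - 1 - s = u := by omega
        have h2 : K + 1 - D = v + 1 := by omega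
        rw [h1, h2]
        have h3 : K * t = i * (K + 1) + (j * (v + 1) + (1 * u + 0)) + 1 := by
          have h4 : s + D * j = j + i := by omega
          rw [hi]
          have h5 : K * (0 + 1 + j + i) = K + K * j + K * i := by ring
          rw [h5]
          have h6 : K * j = D * j + v * j := by rw [hv]; ring
          rw [h6]
          have h7 : i * (K + 1) + (j * (v + 1) + (1 * u + 0)) + 1
            = K * i + (i + j) + v * j + u + 1 := by ring
          rw [h7]
          omega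
        rw [h3]
        simp
      · have h3 : (N + 1) * t = (N + 1) * (s + 1) + j * ((N + 1) * D) := by
          rw [hts]; ring
        rw [hψ, h3]
        omega
  · obtain ⟨s, rfl⟩ : ∃ s, t = s + 1 := ⟨t - 1, by omega⟩
    have hP : (eps t0 D + 3 + s, KK t0 D - 2 - 2 * s, (N + 1) * (s + 1) - ψ (s + 1)) ∈
        Γ3 N t0 D ψ := by
      unfold Γ3
      apply Finset.mem_union_right
      apply Finset.mem_image.2
      exact ⟨s, Finset.mem_filter.2 ⟨Finset.mem_range.2 (by omega), h⟩, rfl⟩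
    have e1 := combB_nsmul hg1 (combB_nsmul hP hzero 1) s
    have hi : 0 + 1 + s = s + 1 := by ring
    rw [hi] at e1
    obtain ⟨K, hKd⟩ : ∃ K, K = KK t0 D := ⟨_, rfl⟩
    obtain ⟨ε, hεd⟩ : ∃ ε, ε = eps t0 D := ⟨_, rfl⟩
    have hK' : K = 2 * ε + 2 := by rw [hKd, hεd]; exact hK
    have hε' : ε = 2 * (t0 + D) + 5 := by rw [hεd]; exact hε
    refine ⟨eps t0 D + 3 + s, (KK t0 D - 1) * (s + 1) - 1, ?_, ?_⟩
    · unfold eJ eJ'
      rw [← hKd, ← hεd]
      obtain ⟨K', rfl⟩ : ∃ K', K = K' + 1 := ⟨K - 1, by omega⟩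
      clear hKd
      simp only [Nat.add_sub_cancel]
      have h1 : (ε + 3 + s) / (ε + 3) = 1 := by
        rw [Nat.add_div_left _ (by omega), Nat.div_eq_of_lt (by omega)]
      have h2 : (K' * (s + 1) - 1) / (K' + 1) = s := by
        rw [Nat.div_eq_iff (by omega)]
        have : K' * (s + 1) = K' * s + K' := by ring
        have h3 : s * (K' + 1) = K' * s + s := by ring
        rw [this, h3]
        omega
      have h3 : (ε + 3 + s) / (K' + 1) = 0 := Nat.div_eq_of_lt (by omega)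
      have h4 : (K' * (s + 1) - 1) / K' = s := by
        have : K' * (s + 1) - 1 = K' * s + (K' - 1) := by
          rw [mul_add, mul_one]; omega
        rw [this, Nat.mul_add_div (by omega), Nat.div_eq_of_lt (by omega)]
        omega
      rw [h1, h2, h3, h4]
      omega
    · refine combB_mem e1 ?_ ?_ ?_
      · ring
      · rw [← hKd]
        obtain ⟨K', rfl⟩ : ∃ K', K = K' + 1 := ⟨K - 1, by omega⟩
        simp only [Nat.add_sub_cancel]
        have h1 : K' * (s + 1) = K' * s + K' := by ring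
        have h2 : s * (K' + 1 + 1) = K' * s + 2 * s := by ring
        rw [h1, h2]
        omega
      · ring

end COMBB

end Pool.Agent.Helper91.SymD
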