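import Mathlib
import Pool.Agent.Helper91.SymD.Defs

/-! MP_75fc3b_ag, module VARS.  Proof: /team-store/symd_blueprint.md -/

set_option autoImplicit false

universe u

open MvPolynomial CategoryTheory Abelian

namespace Pool.Agent.Helper91.SymD

section VARS

variable {σ : Type} [DecidableEq σ] {k : Type u} [Field k]

theorem vars_th_X_self (v : σ) : th (k := k) v (X v) = 0 := by
  simp [th]

theorem vars_th_X_ne {v w : σ} (h : w ≠ v) : th (k := k) v (X w) = X w := by
  simp [th, Function.update_of_ne h]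

theorem vars_decomp (v : σ) (c : MvPolynomial σ k) : ∃ c', c = th v c + X v * c' := by
  induction c using MvPolynomial.induction_on with
  | C a => exact ⟨0, by simp [th]⟩
  | add p q hp hq =>
    obtain ⟨p', hp'⟩ := hp
    obtain ⟨q', hq'⟩ := hq
    refine ⟨p' + q', ?_⟩
    rw [map_add, mul_add]
    nth_rewrite 1 [hp', hq']
    ring
  | mul_X p w hp =>
    obtain ⟨p', hp'⟩ := hp
    by_cases h : w = v
    · subst h
      refine ⟨p, ?_⟩
      rw [map_mul, vars_th_X_self, mul_zero, zero_add, mul_comm]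
    · refine ⟨p' * X w, ?_⟩
      rw [map_mul, vars_th_X_ne h]
      nth_rewrite 1 [hp']
      ring

theorem mem_of_X_mul (G : Set (MvPolynomial σ k)) (v : σ) (hG : ∀ g ∈ G, th v g = g)
    (f : MvPolynomial σ k) (h : X v * f ∈ Ideal.span G) : f ∈ Ideal.span G := by
  have key : ∀ g ∈ Ideal.span G, ∃ g' ∈ Ideal.span G, g = th v g + X v * g' := by
    intro g hg
    induction hg using Submodule.span_induction with
    | mem x hx => exact ⟨0, Submodule.zero_mem _, by rw [hG x hx, mul_zero, add_zero]⟩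
    | zero => exact ⟨0, Submodule.zero_mem _, by simp⟩
    | add x y _ _ hx hy =>
      obtain ⟨x', hx1, hx2⟩ := hx
      obtain ⟨y', hy1, hy2⟩ := hy
      refine ⟨x' + y', Submodule.add_mem _ hx1 hy1, ?_⟩
      rw [map_add, mul_add]
      nth_rewrite 1 [hx2, hy2]
      ring
    | smul a x hxm hx =>
      obtain ⟨x', hx1, hx2⟩ := hx
      obtain ⟨a', ha'⟩ := vars_decomp v a
      have hth : th v x ∈ Ideal.span G := by
        have e : th v x = x - X v * x' := by
          nth_rewrite 2 [hx2]
          ring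
        rw [e]
        exact Submodule.sub_mem _ hxm (Ideal.mul_mem_left _ _ hx1)
      refine ⟨a' * th v x + a * x', Submodule.add_mem _ (Ideal.mul_mem_left _ _ hth)
        (Ideal.mul_mem_left _ _ hx1), ?_⟩
      rw [smul_eq_mul, map_mul]
      linear_combination a * hx2 + th v x * ha'
  obtain ⟨g', hg', he⟩ := key _ h
  rw [map_mul, vars_th_X_self, zero_mul, zero_add] at he
  rw [mul_left_cancel₀ (X_ne_zero v) he]
  exact hg'

theorem regMod_vars (G : Set (MvPolynomial σ k)) (L : List σ) (hL : L.Nodup)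
    (hG : ∀ g ∈ G, ∀ v ∈ L, th v g = g) : RegMod (Ideal.span G) (L.map X) := by
  induction L generalizing G with
  | nil => trivial
  | cons v L ih =>
    rw [List.nodup_cons] at hL
    refine ⟨fun f hf => mem_of_X_mul G v (fun g hg => hG g hg v List.mem_cons_self) f hf, ?_⟩
    rw [← Ideal.span_union]
    refine ih _ hL.2 ?_
    rintro g (hg | hg) w hw
    · exact hG g hg w (List.mem_cons_of_mem _ hw)
    · rw [Set.mem_singleton_iff] at hg
      subst hg
      refine vars_th_X_ne ?_
      rintro rfl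
      exact hL.1 hw

/-- an ideal generated by elements which do not involve the variables in `L` -/
def VarsFix (L : List σ) (I : Ideal (MvPolynomial σ k)) : Prop :=
  ∃ G : Set (MvPolynomial σ k), I = Ideal.span G ∧ ∀ g ∈ G, ∀ v ∈ L, th v g = g

theorem VarsFix.regMod {L : List σ} {I : Ideal (MvPolynomial σ k)} (h : VarsFix L I)
    (hL : L.Nodup) : RegMod I (L.map X) := by
  obtain ⟨G, rfl, hG⟩ := h
  exact regMod_vars G L hL hG

theorem VarsFix.span {L : List σ} (G : Set (MvPolynomial σ k))
    (hG : ∀ g ∈ G, ∀ v ∈ L, th v g = g) : VarsFix L (Ideal.span G) := ⟨G, rfl, hG⟩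

theorem VarsFix.sup {L : List σ} {I J : Ideal (MvPolynomial σ k)} (h : VarsFix L I)
    (h' : VarsFix L J) : VarsFix L (I ⊔ J) := by
  obtain ⟨G, rfl, hG⟩ := h
  obtain ⟨G', rfl, hG'⟩ := h'
  refine ⟨G ∪ G', (Ideal.span_union _ _).symm, ?_⟩
  rintro g (hg | hg) v hv
  · exact hG g hg v hv
  · exact hG' g hg v hv

open scoped Pointwise in
theorem VarsFix.mul {L : List σ} {I J : Ideal (MvPolynomial σ k)} (h : VarsFix L I)
    (h' : VarsFix L J) : VarsFix L (I * J) := by
  obtain ⟨G, rfl, hG⟩ := h
  obtain ⟨G', rfl, hG'⟩ := h'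
  refine ⟨G * G', Ideal.span_mul_span' _ _, ?_⟩
  intro g hg v hv
  obtain ⟨a, ha, b, hb, rfl⟩ := Set.mem_mul.1 hg
  rw [map_mul, hG a ha v hv, hG' b hb v hv]

theorem VarsFix.pow {L : List σ} {I : Ideal (MvPolynomial σ k)} (h : VarsFix L I) (t : ℕ) :
    VarsFix L (I ^ t) := by
  induction t with
  | zero =>
    refine ⟨{1}, ?_, ?_⟩
    · rw [pow_zero, Ideal.one_eq_top, Ideal.span_singleton_one]
    · rintro g hg v _
      rw [Set.mem_singleton_iff] at hg
      rw [hg, map_one]
  | succ t ih => rw [pow_succ]; exact ih.mul h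

end VARS

section XY

variable {A : Type u} [CommRing A]

theorem vars_X0 (J : Ideal A) (f : MvPolynomial (Fin 2) A)
    (h : X 0 * f ∈ J.map (C : A →+* MvPolynomial (Fin 2) A)) :
    f ∈ J.map (C : A →+* MvPolynomial (Fin 2) A) := by
  rw [MvPolynomial.mem_map_C_iff] at h ⊢
  intro d
  have := h (Finsupp.single 0 1 + d)
  rwa [coeff_X_mul] at this

theorem vars_mem_sup_X0 (J : Ideal A) (f : MvPolynomial (Fin 2) A) :
    f ∈ J.map (C : A →+* MvPolynomial (Fin 2) A) ⊔ Ideal.span {X 0} ↔
      ∀ d : Fin 2 →₀ ℕ, d 0 = 0 → coeff d f ∈ J := by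
  constructor
  · intro hf d hd
    obtain ⟨a, ha, b, hb, rfl⟩ := Submodule.mem_sup.1 hf
    obtain ⟨c, rfl⟩ := Ideal.mem_span_singleton'.1 hb
    rw [coeff_add]
    refine J.add_mem (MvPolynomial.mem_map_C_iff.1 ha d) ?_
    rw [mul_comm, coeff_X_mul', if_neg]
    · exact J.zero_mem
    · simp [hd]
  · intro hf
    rw [← MvPolynomial.support_sum_monomial_coeff f]
    refine Submodule.sum_mem _ fun d _ => ?_
    by_cases hd : d 0 = 0
    · refine Submodule.mem_sup_left ?_
      rw [MvPolynomial.mem_map_C_iff]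
      intro e
      rw [coeff_monomial]
      split_ifs with h
      · exact hf d hd
      · exact J.zero_mem
    · refine Submodule.mem_sup_right ?_
      have hd' : d = Finsupp.single 0 1 + (d - Finsupp.single 0 1) := by
        rw [add_comm, tsub_add_cancel_of_le]
        rw [Finsupp.single_le_iff]
        omega
      rw [hd', ← one_mul (coeff _ f), ← monomial_mul]
      exact Ideal.mul_mem_right _ _ (Ideal.subset_span rfl)

theorem vars_xy (J : Ideal A) :
    RegMod (J.map (C : A →+* MvPolynomial (Fin 2) A)) [X 0, X 1] := by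
  refine ⟨vars_X0 J, fun f hf => ?_, trivial⟩
  rw [vars_mem_sup_X0] at hf ⊢
  intro d hd
  have := hf (Finsupp.single 1 1 + d) (by simp [hd])
  rwa [coeff_X_mul] at this

theorem vars_regMod_append {R : Type u} [CommRing R] (J : Ideal R) (rs rs' : List R)
    (h : RegMod J rs) (h' : RegMod (J ⊔ Ideal.ofList rs) rs') : RegMod J (rs ++ rs') := by
  induction rs generalizing J with
  | nil => simpa using h'
  | cons r rs ih =>
    refine ⟨h.1, ih _ h.2 ?_⟩
    rwa [sup_assoc, ← Ideal.ofList_cons]

end XY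

end Pool.Agent.Helper91.SymD
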