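import Mathlib
import Pool.Agent.Helper91.SymD.Defs
import Pool.Agent.Helper91.SymD.Vars

/-! MP_75fc3b_ag, module CREG.  Proof: /team-store/symd_blueprint.md -/

set_option autoImplicit false

universe u

open MvPolynomial CategoryTheory Abelian

namespace Pool.Agent.Helper91.SymD

section CREG

variable (k : Type u) [Field k] {N t0 D : ℕ} {ψ : ℕ → ℕ}

theorem zs_length {s : ℕ} (hs : s ≤ N) : (zs k N s).length = N - s := by
  unfold zs
  rw [List.length_map]
  have hnd : ((List.finRange N).filter fun i : Fin N => decide ((i : ℕ) < N - s)).Nodup :=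
    (List.nodup_finRange N).filter _
  rw [← List.toFinset_card_of_nodup hnd]
  have e : ((List.finRange N).filter fun i : Fin N => decide ((i : ℕ) < N - s)).toFinset =
      Finset.univ.filter (fun i : Fin N => (i : ℕ) < N - s) := by
    ext i; simp
  rw [e, Fin.card_filter_val_lt]
  omega

/-- the list of the variables `z_i`, `i < N - s` -/
def cregL (N s : ℕ) : List (Fin 2 ⊕ Fin N) :=
  ((List.finRange N).filter fun i : Fin N => decide ((i : ℕ) < N - s)).map Sum.inr

theorem creg_zs (s : ℕ) : zs k N s = (cregL N s).map X := by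
  unfold zs cregL
  rw [List.map_map]
  rfl

theorem creg_nodup (s : ℕ) : (cregL N s).Nodup :=
  ((List.nodup_finRange N).filter _).map Sum.inr_injective

theorem creg_mem {s : ℕ} {v : Fin 2 ⊕ Fin N} (hv : v ∈ cregL N s) :
    ∃ i : Fin N, v = Sum.inr i ∧ (i : ℕ) < N - s := by
  unfold cregL at hv
  rw [List.mem_map] at hv
  obtain ⟨i, hi, rfl⟩ := hv
  rw [List.mem_filter] at hi
  exact ⟨i, rfl, by simpa using hi.2⟩

theorem creg_th_pp {s : ℕ} {v : Fin 2 ⊕ Fin N} (hv : v ∈ cregL N s) :
    th v (pp : AA k N) = pp := by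
  obtain ⟨i, rfl, _⟩ := creg_mem hv
  exact vars_th_X_ne (by simp)

theorem creg_th_qq {s : ℕ} {v : Fin 2 ⊕ Fin N} (hv : v ∈ cregL N s) :
    th v (qq : AA k N) = qq := by
  obtain ⟨i, rfl, _⟩ := creg_mem hv
  exact vars_th_X_ne (by simp)

theorem creg_fix_bb (s t : ℕ) : VarsFix (cregL N s) (bb k N ^ t) := by
  refine VarsFix.pow (VarsFix.span _ ?_) t
  rintro g (rfl | rfl) v hv
  · rw [map_pow, creg_th_pp k hv]
  · rw [map_pow, creg_th_qq k hv]

/-- the part of `h` with `z_i`, `i ≥ N - s` -/
noncomputable def cregH (N s : ℕ) : AA k N :=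
  ∑ i ∈ Finset.univ.filter (fun i : Fin N => ¬ (i : ℕ) < N - s),
    pp ^ (N - 1 - (i : ℕ)) * qq ^ (i : ℕ) * zz i

theorem creg_th_H {s : ℕ} {v : Fin 2 ⊕ Fin N} (hv : v ∈ cregL N s) :
    th v (cregH k N s) = cregH k N s := by
  unfold cregH
  rw [map_sum]
  refine Finset.sum_congr rfl fun j hj => ?_
  rw [map_mul, map_mul, map_pow, map_pow, creg_th_pp k hv, creg_th_qq k hv]
  congr 1
  obtain ⟨i, rfl, hi⟩ := creg_mem hv
  refine vars_th_X_ne ?_
  rw [Finset.mem_filter] at hj
  intro h
  rw [Sum.inr.injEq] at h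
  exact hj.2 (h ▸ hi)

theorem creg_pp_pow_mem (t m : ℕ) (h : (N + 1) * t ≤ m) (u : AA k N) :
    pp ^ m * u ∈ bb k N ^ t := by
  obtain ⟨c, rfl⟩ := Nat.exists_eq_add_of_le h
  rw [pow_add, mul_assoc, pow_mul]
  refine Ideal.mul_mem_right _ _ (Ideal.pow_mem_pow (Ideal.subset_span ?_) t)
  exact Set.mem_insert _ _

/-- `e3`, `e`, `e'` are arbitrary with `e3 ≥ n t - s` if `e + e' ≥ 1` -/
theorem regMod_z {s : ℕ} (hs : s ≤ N) {t e3 e e' : ℕ} (h : 1 ≤ e + e' → (N + 1) * t ≤ e3 + s) :
    RegMod (bb k N ^ t ⊔ Ideal.span {pp ^ e3 * (hh k N ^ e * hh' k N ^ e')}) (zs k N s) := by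
  have hred : bb k N ^ t ⊔ Ideal.span {pp ^ e3 * (hh k N ^ e * hh' k N ^ e')} =
      bb k N ^ t ⊔ Ideal.span {pp ^ e3 * cregH k N s ^ (e + e')} := by
    rcases Nat.eq_zero_or_pos (e + e') with h0 | hpos
    · have e0 : e = 0 := by omega
      have e0' : e' = 0 := by omega
      subst e0; subst e0'
      simp
    · have hle := h hpos
      -- the ideal of all `u` with `p^{e3} u ∈ bb^t`
      let K : Ideal (AA k N) :=
        Submodule.comap (LinearMap.mulLeft (AA k N) (pp ^ e3 : AA k N)) (bb k N ^ t)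
      have hK : ∀ u : AA k N, u ∈ K ↔ pp ^ e3 * u ∈ bb k N ^ t := fun u => Iff.rfl
      have h1 : hh k N - cregH k N s ∈ K := by
        have e1 : hh k N - cregH k N s =
            ∑ i ∈ Finset.univ.filter (fun i : Fin N => (i : ℕ) < N - s),
              pp ^ (N - 1 - (i : ℕ)) * qq ^ (i : ℕ) * zz i := by
          unfold hh cregH
          rw [sub_eq_iff_eq_add, Finset.sum_filter_add_sum_filter_not]
        rw [e1]
        refine K.sum_mem fun i hi => ?_
        rw [Finset.mem_filter] at hi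
        have hi2 := hi.2
        rw [hK, mul_assoc, ← mul_assoc (pp ^ e3), ← pow_add]
        exact creg_pp_pow_mem k t _ (by omega) _
      have h2 : hh' k N - cregH k N s ∈ K := by
        have e1 : hh' k N - cregH k N s = (hh k N - cregH k N s) + pp ^ N := by
          unfold hh'; ring
        rw [e1]
        refine K.add_mem h1 ?_
        rw [hK, ← pow_add]
        have := creg_pp_pow_mem k t (e3 + N) (by omega) (1 : AA k N)
        rwa [mul_one] at this
      have h3 : hh k N ^ e * hh' k N ^ e' - cregH k N s ^ (e + e') ∈ K := by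
        rw [← Ideal.Quotient.eq, map_mul, map_pow, map_pow, map_pow,
          (Ideal.Quotient.eq.2 h1 : Ideal.Quotient.mk K (hh k N) = _),
          (Ideal.Quotient.eq.2 h2 : Ideal.Quotient.mk K (hh' k N) = _), pow_add]
      rw [hK, mul_sub] at h3
      apply le_antisymm
      · refine sup_le le_sup_left ?_
        rw [Ideal.span_singleton_le_iff_mem]
        have := Submodule.add_mem_sup h3
          (Ideal.subset_span (Set.mem_singleton (pp ^ e3 * cregH k N s ^ (e + e'))))
        rwa [sub_add_cancel] at this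
      · refine sup_le le_sup_left ?_
        rw [Ideal.span_singleton_le_iff_mem]
        have := Submodule.add_mem_sup (Submodule.neg_mem _ h3)
          (Ideal.subset_span (Set.mem_singleton (pp ^ e3 * (hh k N ^ e * hh' k N ^ e'))))
        rwa [neg_sub, sub_add_cancel] at this
  rw [hred, creg_zs]
  refine VarsFix.regMod (VarsFix.sup (creg_fix_bb k s t) (VarsFix.span _ ?_)) (creg_nodup s)
  rintro g hg v hv
  rw [Set.mem_singleton_iff] at hg
  rw [hg, map_mul, map_pow, map_pow, creg_th_pp k hv, creg_th_H k hv]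

end CREG

end Pool.Agent.Helper91.SymD
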