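import Mathlib
import Pool.Agent.Helper91.SymD.Defs

/-! MP_75fc3b_ag, module EXTA.  Proof: /team-store/symd_blueprint.md -/

set_option autoImplicit false

universe u

open MvPolynomial CategoryTheory Abelian

namespace Pool.Agent.Helper91.SymD

section EXTA

variable {R : Type u} [CommRing R] {I : Ideal R} {M M1 M2 M3 : Type u}
  [AddCommGroup M] [Module R M] [AddCommGroup M1] [Module R M1] [AddCommGroup M2] [Module R M2]
  [AddCommGroup M3] [Module R M3] {n n' : ℕ}

/-- the short complex attached to an exact sequence -/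
def exta_sc (f : M1 →ₗ[R] M2) (g : M2 →ₗ[R] M3) (hfg : Function.Exact f g) :
    ShortComplex (ModuleCat.{u} R) :=
  ShortComplex.mk (ModuleCat.ofHom f) (ModuleCat.ofHom g) (by
    ext x
    exact hfg.apply_apply_eq_zero x)

theorem exta_se (f : M1 →ₗ[R] M2) (g : M2 →ₗ[R] M3) (hf : Function.Injective f)
    (hg : Function.Surjective g) (hfg : Function.Exact f g) : (exta_sc f g hfg).ShortExact where
  exact := (ShortComplex.ShortExact.moduleCat_exact_iff_function_exact _).2 hfg
  mono_f := (ModuleCat.mono_iff_injective _).2 hf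
  epi_g := (ModuleCat.epi_iff_surjective _).2 hg

theorem VM.mono (h : n' ≤ n) (H : VM I M n) : VM I M n' := fun i hi => H i (lt_of_lt_of_le hi h)

theorem VM.congr (e : M1 ≃ₗ[R] M2) (H : VM I M1 n) : VM I M2 n := by
  intro i hi
  have h0 := H i hi
  have key : ∀ x : Ext (ModuleCat.of R (Shrink.{u} (R ⧸ I))) (ModuleCat.of R M2) i, x = 0 := by
    intro x
    have h1 : x = (x.comp (Ext.mk₀ (ModuleCat.ofHom e.symm.toLinearMap)) (add_zero i)).comp
        (Ext.mk₀ (ModuleCat.ofHom e.toLinearMap)) (add_zero i) := by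
      have h2 : ModuleCat.ofHom e.symm.toLinearMap ≫ ModuleCat.ofHom e.toLinearMap =
          𝟙 (ModuleCat.of R M2) := by
        ext y
        simp
      simp only [Ext.comp_assoc_of_third_deg_zero, Ext.mk₀_comp_mk₀, h2, Ext.comp_mk₀_id]
    rw [h1, Subsingleton.elim (x.comp (Ext.mk₀ (ModuleCat.ofHom e.symm.toLinearMap)) (add_zero i)) 0,
      Ext.zero_comp]
  exact ⟨fun x y => (key x).trans (key y).symm⟩

theorem VM.mid (f : M1 →ₗ[R] M2) (g : M2 →ₗ[R] M3) (hf : Function.Injective f)
    (hg : Function.Surjective g) (hfg : Function.Exact f g)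
    (h1 : VM I M1 n) (h3 : VM I M3 n) : VM I M2 n := by
  intro i hi
  have S := exta_se f g hf hg hfg
  have zero1 := AddCommGrpCat.isZero_of_iff_subsingleton.mpr (h1 i hi)
  have zero3 := AddCommGrpCat.isZero_of_iff_subsingleton.mpr (h3 i hi)
  exact AddCommGrpCat.subsingleton_of_isZero <| ShortComplex.Exact.isZero_of_both_zeros
    (Ext.covariant_sequence_exact₂' (ModuleCat.of R (Shrink.{u} (R ⧸ I))) S i)
    (zero1.eq_zero_of_src _) (zero3.eq_zero_of_tgt _)

theorem VM.left (f : M1 →ₗ[R] M2) (g : M2 →ₗ[R] M3) (hf : Function.Injective f)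
    (hg : Function.Surjective g) (hfg : Function.Exact f g)
    (h2 : VM I M2 (n + 1)) (h3 : VM I M3 n) : VM I M1 (n + 1) := by
  intro i hi
  have S := exta_se f g hf hg hfg
  rcases i with _ | i
  · have h0 := h2 0 (by omega)
    have : Mono (ModuleCat.ofHom f) := (ModuleCat.mono_iff_injective _).2 hf
    exact (Ext.postcomp_mk₀_injective_of_mono (ModuleCat.of R (Shrink.{u} (R ⧸ I)))
      (ModuleCat.ofHom f)).subsingleton
  · have zero1 := AddCommGrpCat.isZero_of_iff_subsingleton.mpr (h3 i (by omega))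
    have zero3 := AddCommGrpCat.isZero_of_iff_subsingleton.mpr (h2 (i + 1) (by omega))
    exact AddCommGrpCat.subsingleton_of_isZero <| ShortComplex.Exact.isZero_of_both_zeros
      (Ext.covariant_sequence_exact₁' (ModuleCat.of R (Shrink.{u} (R ⧸ I))) S i (i + 1) rfl)
      (zero1.eq_zero_of_src _) (zero3.eq_zero_of_tgt _)

theorem VM.right (f : M1 →ₗ[R] M2) (g : M2 →ₗ[R] M3) (hf : Function.Injective f)
    (hg : Function.Surjective g) (hfg : Function.Exact f g)
    (h1 : VM I M1 (n + 1)) (h2 : VM I M2 n) : VM I M3 n := by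
  intro i hi
  have S := exta_se f g hf hg hfg
  have zero1 := AddCommGrpCat.isZero_of_iff_subsingleton.mpr (h2 i hi)
  have zero3 := AddCommGrpCat.isZero_of_iff_subsingleton.mpr (h1 (i + 1) (by omega))
  exact AddCommGrpCat.subsingleton_of_isZero <| ShortComplex.Exact.isZero_of_both_zeros
    (Ext.covariant_sequence_exact₃' (ModuleCat.of R (Shrink.{u} (R ⧸ I))) S i (i + 1) rfl)
    (zero1.eq_zero_of_src _) (zero3.eq_zero_of_tgt _)

/-- `Hom(R/I, M) ≠ 0` if `M` contains a nonzero element killed by `I` -/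
theorem VM.socle (w : M) (hw : w ≠ 0) (h : ∀ r ∈ I, r • w = 0) : ¬ VM I M 1 := by
  intro H
  have h0 := H 0 one_pos
  have h00 : Subsingleton ((ModuleCat.of R (Shrink.{u} (R ⧸ I))) ⟶ ModuleCat.of R M) :=
    Ext.addEquiv₀.symm.subsingleton
  have h1 : Subsingleton ((Shrink.{u} (R ⧸ I)) →ₗ[R] M) :=
    (ModuleCat.homAddEquiv (M := ModuleCat.of R (Shrink.{u} (R ⧸ I)))
      (N := ModuleCat.of R M)).symm.subsingleton
  let φ : (R ⧸ I) →ₗ[R] M := Submodule.liftQ I (LinearMap.toSpanSingleton R M w) (by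
    intro r hr
    simpa using h r hr)
  have h2 : φ.comp (Shrink.linearEquiv R (R ⧸ I)).toLinearMap = 0 := Subsingleton.elim _ _
  have h3 : φ (Submodule.Quotient.mk 1) = 0 := by
    have := congrArg (fun g => g ((Shrink.linearEquiv R (R ⧸ I)).symm (Submodule.Quotient.mk 1))) h2
    simpa using this
  rw [show φ (Submodule.Quotient.mk 1) = (LinearMap.toSpanSingleton R M w) 1 from
    Submodule.liftQ_apply _ _ _] at h3
  exact hw (by simpa using h3)

end EXTA

end Pool.Agent.Helper91.SymD
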