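import Mathlib
import Pool.Agent.Helper91.SymD.Defs
import Pool.Agent.Helper91.SymD.ExtA

/-! MP_75fc3b_ag, module EXTB.  Proof: /team-store/symd_blueprint.md -/

set_option autoImplicit false

universe u

open MvPolynomial CategoryTheory Abelian

open scoped Pointwise

namespace Pool.Agent.Helper91.SymD

section EXTB

variable {R : Type u} [CommRing R] {I J K J1 J2 : Ideal R} {n n' : ℕ}

theorem V.mono (h : n' ≤ n) (H : V I J n) : V I J n' := VM.mono h H

theorem V.top : V I (⊤ : Ideal R) n := by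
  intro i _
  have : Subsingleton (R ⧸ (⊤ : Ideal R)) := Ideal.Quotient.subsingleton_iff.2 rfl
  have hz : Limits.IsZero (ModuleCat.of R (R ⧸ (⊤ : Ideal R))) := ModuleCat.isZero_of_subsingleton _
  refine ⟨fun x y => ?_⟩
  have key : ∀ x : Ext (ModuleCat.of R (Shrink.{u} (R ⧸ I)))
      (ModuleCat.of R (R ⧸ (⊤ : Ideal R))) i, x = 0 := by
    intro x
    have h1 : x = x.comp (Ext.mk₀ (𝟙 _)) (add_zero i) := by
      rw [Ext.comp_mk₀_id]
    rw [h1, hz.eq_of_src (𝟙 _) 0, Ext.mk₀_zero, Ext.comp_zero]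
  exact (key x).trans (key y).symm

/-- multiplication by `w` from `R/K` to `R/J` -/
def extbMul {w : R} (hK : ∀ f, f ∈ K ↔ w * f ∈ J) : (R ⧸ K) →ₗ[R] (R ⧸ J) :=
  Submodule.mapQ K J (LinearMap.lsmul R R w) (by
    intro x hx
    simpa using (hK x).1 hx)

theorem extbMul_mk {w : R} (hK : ∀ f, f ∈ K ↔ w * f ∈ J) (x : R) :
    extbMul hK (Ideal.Quotient.mk K x) = Ideal.Quotient.mk J (w * x) := rfl

/-- the projection -/
def extbProj {J J' : Ideal R} (h : J ≤ J') : (R ⧸ J) →ₗ[R] (R ⧸ J') := Submodule.factor h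

theorem extbProj_mk {J J' : Ideal R} (h : J ≤ J') (x : R) :
    extbProj h (Ideal.Quotient.mk J x) = Ideal.Quotient.mk J' x := rfl

theorem extbProj_surj {J J' : Ideal R} (h : J ≤ J') : Function.Surjective (extbProj h) := by
  intro y
  obtain ⟨y, rfl⟩ := Ideal.Quotient.mk_surjective y
  exact ⟨Ideal.Quotient.mk J y, rfl⟩

theorem extbMul_inj {w : R} (hK : ∀ f, f ∈ K ↔ w * f ∈ J) : Function.Injective (extbMul hK) := by
  rw [← LinearMap.ker_eq_bot, LinearMap.ker_eq_bot']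
  intro x hx
  obtain ⟨x, rfl⟩ := Ideal.Quotient.mk_surjective x
  rw [extbMul_mk, Ideal.Quotient.eq_zero_iff_mem] at hx
  rw [Ideal.Quotient.eq_zero_iff_mem]
  exact (hK x).2 hx

theorem extb_exact {w : R} (hK : ∀ f, f ∈ K ↔ w * f ∈ J) :
    Function.Exact (extbMul hK) (extbProj (le_sup_left : J ≤ J ⊔ Ideal.span {w})) := by
  intro y
  constructor
  · intro hy
    obtain ⟨y, rfl⟩ := Ideal.Quotient.mk_surjective y
    rw [extbProj_mk, Ideal.Quotient.eq_zero_iff_mem] at hy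
    obtain ⟨j, hj, v, hv, rfl⟩ := Submodule.mem_sup.1 hy
    obtain ⟨c, rfl⟩ := Ideal.mem_span_singleton'.1 hv
    refine ⟨Ideal.Quotient.mk K c, ?_⟩
    rw [extbMul_mk, Ideal.Quotient.eq]
    have : w * c - (j + c * w) = -j := by ring
    rw [this]
    exact J.neg_mem hj
  · rintro ⟨x, rfl⟩
    obtain ⟨x, rfl⟩ := Ideal.Quotient.mk_surjective x
    rw [extbMul_mk, extbProj_mk, Ideal.Quotient.eq_zero_iff_mem]
    exact Ideal.mul_mem_right _ _ (Submodule.mem_sup_right (Ideal.mem_span_singleton_self w))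

theorem V.colon {w : R} (hK : ∀ f, f ∈ K ↔ w * f ∈ J) (h1 : V I K n)
    (h3 : V I (J ⊔ Ideal.span {w}) n) : V I J n :=
  VM.mid _ _ (extbMul_inj hK) (extbProj_surj _) (extb_exact hK) h1 h3

theorem V.quot {r : R} (hr : ∀ f, r * f ∈ J → f ∈ J) (h : V I J (n + 1)) :
    V I (J ⊔ Ideal.span {r}) n := by
  have hK : ∀ f, f ∈ J ↔ r * f ∈ J := fun f => ⟨fun h => Ideal.mul_mem_left _ _ h, hr f⟩
  exact VM.right _ _ (extbMul_inj hK) (extbProj_surj _) (extb_exact hK) h (V.mono (by omega) h)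

theorem V.quot_list (rs : List R) (hr : RegMod J rs) (h : V I J (n + rs.length)) :
    V I (J ⊔ Ideal.ofList rs) n := by
  induction rs generalizing J with
  | nil => simpa using h
  | cons r rs ih =>
    rw [Ideal.ofList_cons, ← sup_assoc]
    exact ih hr.2 (V.quot hr.1 (by simpa [add_assoc] using h))

/-- `R/(J1 ∩ J2) → R/J1 × R/J2` -/
def extbF (J1 J2 : Ideal R) : (R ⧸ (J1 ⊓ J2)) →ₗ[R] (R ⧸ J1) × (R ⧸ J2) :=
  (extbProj inf_le_left).prod (extbProj inf_le_right)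

/-- `R/J1 × R/J2 → R/(J1 + J2)` -/
def extbG (J1 J2 : Ideal R) : ((R ⧸ J1) × (R ⧸ J2)) →ₗ[R] (R ⧸ (J1 ⊔ J2)) :=
  (extbProj le_sup_left).comp (LinearMap.fst R _ _) -
    (extbProj le_sup_right).comp (LinearMap.snd R _ _)

theorem extbF_mk (x : R) : extbF J1 J2 (Ideal.Quotient.mk _ x) =
    (Ideal.Quotient.mk J1 x, Ideal.Quotient.mk J2 x) := rfl

theorem extbG_mk (x y : R) : extbG J1 J2 (Ideal.Quotient.mk J1 x, Ideal.Quotient.mk J2 y) =
    Ideal.Quotient.mk _ (x - y) := rfl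

theorem extbF_inj : Function.Injective (extbF J1 J2) := by
  rw [← LinearMap.ker_eq_bot, LinearMap.ker_eq_bot']
  intro x hx
  obtain ⟨x, rfl⟩ := Ideal.Quotient.mk_surjective x
  rw [extbF_mk, Prod.mk_eq_zero, Ideal.Quotient.eq_zero_iff_mem, Ideal.Quotient.eq_zero_iff_mem] at hx
  rw [Ideal.Quotient.eq_zero_iff_mem]
  exact hx

theorem extbG_surj : Function.Surjective (extbG J1 J2) := by
  intro y
  obtain ⟨y, rfl⟩ := Ideal.Quotient.mk_surjective y
  refine ⟨(Ideal.Quotient.mk J1 y, Ideal.Quotient.mk J2 0), ?_⟩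
  rw [extbG_mk, sub_zero]

theorem extbFG : Function.Exact (extbF J1 J2) (extbG J1 J2) := by
  rintro ⟨y, z⟩
  obtain ⟨y, rfl⟩ := Ideal.Quotient.mk_surjective y
  obtain ⟨z, rfl⟩ := Ideal.Quotient.mk_surjective z
  rw [extbG_mk, Ideal.Quotient.eq_zero_iff_mem]
  constructor
  · intro hy
    obtain ⟨a, ha, b, hb, hab⟩ := Submodule.mem_sup.1 hy
    refine ⟨Ideal.Quotient.mk _ (y - a), ?_⟩
    rw [extbF_mk]
    refine Prod.ext ?_ ?_
    · refine Ideal.Quotient.eq.2 ?_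
      have : y - a - y = -a := by ring
      rw [this]
      exact J1.neg_mem ha
    · refine Ideal.Quotient.eq.2 ?_
      have : y - a - z = b := by linear_combination -hab
      rw [this]
      exact hb
  · rintro ⟨x, hx⟩
    obtain ⟨x, rfl⟩ := Ideal.Quotient.mk_surjective x
    rw [extbF_mk] at hx
    have h1 := Ideal.Quotient.eq.1 (congrArg Prod.fst hx)
    have h2 := Ideal.Quotient.eq.1 (congrArg Prod.snd hx)
    have : y - z = -(x - y) + (x - z) := by ring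
    rw [this]
    exact Ideal.add_mem _ (Submodule.mem_sup_left (J1.neg_mem h1)) (Submodule.mem_sup_right h2)

theorem extb_prod {M1 M2 : Type u} [AddCommGroup M1] [Module R M1] [AddCommGroup M2] [Module R M2]
    (h1 : VM I M1 n) (h2 : VM I M2 n) : VM I (M1 × M2) n :=
  VM.mid (LinearMap.inl R M1 M2) (LinearMap.snd R M1 M2) LinearMap.inl_injective
    LinearMap.snd_surjective (by
      rintro ⟨a, b⟩
      simp [eq_comm]) h1 h2

theorem V.inf (h1 : V I J1 (n + 1)) (h2 : V I J2 (n + 1)) (h3 : V I (J1 ⊔ J2) n) :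
    V I (J1 ⊓ J2) (n + 1) :=
  VM.left _ _ extbF_inj extbG_surj extbFG (extb_prod h1 h2) h3

theorem V.sup (h1 : V I J1 n) (h2 : V I J2 n) (h3 : V I (J1 ⊓ J2) (n + 1)) :
    V I (J1 ⊔ J2) n :=
  VM.right _ _ extbF_inj extbG_surj extbFG h3 (extb_prod h1 h2)

theorem V.socle (w : R) (hw : w ∉ J) (h : ∀ r ∈ I, r * w ∈ J) : ¬ V I J 1 := by
  refine VM.socle (Ideal.Quotient.mk J w) ?_ ?_
  · rwa [Ne, Ideal.Quotient.eq_zero_iff_mem]
  · intro r hr
    have : r • (Ideal.Quotient.mk J w) = Ideal.Quotient.mk J (r * w) := rfl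
    rw [this, Ideal.Quotient.eq_zero_iff_mem]
    exact h r hr

theorem extb_smul_lt (hI : I ≠ ⊤) (hJ : J ≤ I) : I • (⊤ : Submodule R (R ⧸ J)) < ⊤ := by
  refine lt_top_iff_ne_top.2 fun h => hI ?_
  have h1 : (Ideal.Quotient.mk J 1) ∈ I • (⊤ : Submodule R (R ⧸ J)) := by
    rw [h]
    exact Submodule.mem_top
  have h2 : I • (⊤ : Submodule R (R ⧸ J)) ≤ Submodule.map (Submodule.mkQ J) I := by
    rw [Submodule.smul_le]
    intro r hr x _
    obtain ⟨x, rfl⟩ := Ideal.Quotient.mk_surjective x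
    exact ⟨r * x, Ideal.mul_mem_right _ _ hr, rfl⟩
  obtain ⟨y, hy, hy2⟩ := h2 h1
  have h3 : y - 1 ∈ J := Ideal.Quotient.eq.1 hy2
  rw [Ideal.eq_top_iff_one]
  have : (1 : R) = y - (y - 1) := by ring
  rw [this]
  exact I.sub_mem hy (hJ h3)

theorem extb_smulTop (J : Ideal R) (r : R) :
    (r • (⊤ : Submodule R (R ⧸ J))) = Submodule.map (Submodule.mkQ J) (J ⊔ Ideal.span {r}) := by
  ext y
  obtain ⟨y, rfl⟩ := Ideal.Quotient.mk_surjective y
  constructor
  · rintro ⟨x, _, hx⟩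
    obtain ⟨x, rfl⟩ := Ideal.Quotient.mk_surjective x
    exact ⟨r * x, Submodule.mem_sup_right (Ideal.mul_mem_right _ _
      (Ideal.mem_span_singleton_self r)), hx⟩
  · rintro ⟨x, hx, hx2⟩
    obtain ⟨a, ha, b, hb, rfl⟩ := Submodule.mem_sup.1 hx
    obtain ⟨c, rfl⟩ := Ideal.mem_span_singleton'.1 hb
    refine ⟨Ideal.Quotient.mk J c, Submodule.mem_top, ?_⟩
    rw [← hx2]
    refine Ideal.Quotient.eq.2 ?_
    have : r * c - (a + c * r) = - a := by ring
    change r * c - (a + c * r) ∈ J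
    rw [this]
    exact J.neg_mem ha

/-- `(R/J)/r(R/J) = R/(J + (r))` -/
noncomputable def extbQuot (J : Ideal R) (r : R) :
    QuotSMulTop r (R ⧸ J) ≃ₗ[R] R ⧸ (J ⊔ Ideal.span {r}) :=
  (Submodule.quotEquivOfEq _ _ (extb_smulTop J r)).trans
    (Submodule.quotientQuotientEquivQuotient J (J ⊔ Ideal.span {r}) le_sup_left)

theorem extb_weak (J : Ideal R) (rs : List R) :
    RingTheory.Sequence.IsWeaklyRegular (R ⧸ J) rs ↔ RegMod J rs := by
  induction rs generalizing J with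
  | nil => simp [RegMod]
  | cons r rs ih =>
    rw [RingTheory.Sequence.isWeaklyRegular_cons_iff, (extbQuot J r).isWeaklyRegular_congr, ih]
    refine and_congr_left fun _ => ?_
    rw [isSMulRegular_iff_right_eq_zero_of_smul]
    constructor
    · intro h f hf
      have := h (Ideal.Quotient.mk J f) (by
        change Ideal.Quotient.mk J (r * f) = 0
        rwa [Ideal.Quotient.eq_zero_iff_mem])
      rwa [Ideal.Quotient.eq_zero_iff_mem] at this
    · intro h x hx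
      obtain ⟨x, rfl⟩ := Ideal.Quotient.mk_surjective x
      have hx' : Ideal.Quotient.mk J (r * x) = 0 := hx
      rw [Ideal.Quotient.eq_zero_iff_mem] at hx' ⊢
      exact h x hx'

theorem extb_reg (hI : I ≠ ⊤) (hJ : J ≤ I) (rs : List R) (hrs : ∀ r ∈ rs, r ∈ I) :
    RingTheory.Sequence.IsRegular (R ⧸ J) rs ↔ RegMod J rs := by
  rw [RingTheory.Sequence.isRegular_iff, extb_weak]
  refine and_iff_left ?_
  intro h
  have h1 : Ideal.ofList rs • (⊤ : Submodule R (R ⧸ J)) ≤ I • (⊤ : Submodule R (R ⧸ J)) :=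
    Submodule.smul_mono_left (Ideal.span_le.2 hrs)
  rw [← h] at h1
  exact (extb_smul_lt hI hJ).ne (top_le_iff.1 h1)

theorem V_of_regMod [IsNoetherianRing R] (hI : I ≠ ⊤) (hJ : J ≤ I) (rs : List R)
    (hrs : ∀ r ∈ rs, r ∈ I) (h : RegMod J rs) : V I J rs.length := by
  have h1 := (extb_reg hI hJ rs hrs).2 h
  have h2 := (ModuleCat.exists_isRegular_tfae I rs.length (ModuleCat.of R (R ⧸ J))
    (extb_smul_lt hI hJ)).out 3 1
  exact h2.1 ⟨rs, rfl, hrs, h1⟩

theorem hasDepth_of_V [IsNoetherianRing R] (hI : I ≠ ⊤) (hJ : J ≤ I) (d : ℕ)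
    (h1 : V I J d) (h2 : ¬ V I J (d + 1)) : HasDepth I (R ⧸ J) d := by
  have h3 := fun n => (ModuleCat.exists_isRegular_tfae I n (ModuleCat.of R (R ⧸ J))
    (extb_smul_lt hI hJ)).out 3 1
  refine ⟨(h3 d).2 h1, ?_⟩
  intro n hn
  by_contra hlt
  exact h2 (V.mono (by omega) ((h3 n).1 hn))

end EXTB

end Pool.Agent.Helper91.SymD
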