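import Mathlib
import Pool.Agent.Helper91.SymD.Defs
import Pool.Agent.Helper91.SymD.ExtB

/-! MP_75fc3b_ag, module CW.  Proof: /team-store/symd_blueprint.md -/

set_option autoImplicit false

universe u

open MvPolynomial CategoryTheory Abelian

namespace Pool.Agent.Helper91.SymD

section CW

variable {A : Type u} [CommRing A]

theorem mem_cw (a : (Fin 2 →₀ ℕ) →o Ideal A) (f : MvPolynomial (Fin 2) A) :
    f ∈ cw a ↔ ∀ d, coeff d f ∈ a d := Iff.rfl

theorem cw_monomial_mem (a : (Fin 2 →₀ ℕ) →o Ideal A) {d : Fin 2 →₀ ℕ} {u : A} (h : u ∈ a d) :
    monomial d u ∈ cw a := by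
  intro e
  rw [coeff_monomial]
  split_ifs with he
  · rwa [← he]
  · exact (a e).zero_mem

theorem cw_mono' {a b : (Fin 2 →₀ ℕ) →o Ideal A} (h : ∀ d, a d ≤ b d) : cw a ≤ cw b :=
  fun _ hf d => h d (hf d)

theorem cw_sup (a b : (Fin 2 →₀ ℕ) →o Ideal A) : cw a ⊔ cw b = cw (a ⊔ b) := by
  apply le_antisymm
  · refine sup_le (cw_mono' fun d => ?_) (cw_mono' fun d => ?_)
    · exact le_sup_left (a := a d) (b := b d)
    · exact le_sup_right (a := a d) (b := b d)
  · intro f hf
    rw [f.as_sum]
    refine Submodule.sum_mem _ fun d _ => ?_
    have hd : coeff d f ∈ a d ⊔ b d := hf d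
    obtain ⟨u, hu, v, hv, huv⟩ := Submodule.mem_sup.1 hd
    rw [← huv, map_add]
    exact Submodule.add_mem _ (Ideal.mem_sup_left (cw_monomial_mem a hu))
      (Ideal.mem_sup_right (cw_monomial_mem b hv))

theorem map_C_eq_cw (J : Ideal A) :
    J.map (C : A →+* MvPolynomial (Fin 2) A) = cw (OrderHom.const _ J) := by
  ext f
  rw [mem_map_C_iff, mem_cw]
  rfl

theorem cw_sup_span_C (a : (Fin 2 →₀ ℕ) →o Ideal A) (r : A) :
    cw a ⊔ Ideal.span {C r} = cw (a ⊔ OrderHom.const _ (Ideal.span {r})) := by
  rw [← cw_sup, ← map_C_eq_cw, Ideal.map_span, Set.image_singleton]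

theorem cw_sup_ofList (a : (Fin 2 →₀ ℕ) →o Ideal A) (rs : List A) :
    cw a ⊔ Ideal.ofList (rs.map C) = cw (a ⊔ OrderHom.const _ (Ideal.ofList rs)) := by
  rw [← cw_sup, ← map_C_eq_cw, Ideal.map_ofList]

theorem regMod_cw (a : (Fin 2 →₀ ℕ) →o Ideal A) (rs : List A) (h : ∀ d, RegMod (a d) rs) :
    RegMod (cw a) (rs.map (C : A →+* MvPolynomial (Fin 2) A)) := by
  induction rs generalizing a with
  | nil => trivial
  | cons r rs ih =>
    rw [List.map_cons]
    refine ⟨fun f hf d => ?_, ?_⟩
    · have h1 := hf d
      rw [coeff_C_mul] at h1
      exact (h d).1 _ h1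
    · rw [cw_sup_span_C]
      exact ih _ fun d => (h d).2

/-- replace the value at `d` by `⊤` -/
noncomputable def cwUpd (a : (Fin 2 →₀ ℕ) →o Ideal A) (d : Fin 2 →₀ ℕ)
    (hd : ∀ e, d < e → a e = ⊤) : (Fin 2 →₀ ℕ) →o Ideal A where
  toFun e := if e = d then ⊤ else a e
  monotone' := by
    intro e e' h
    by_cases h1 : e' = d
    · simp only [h1, if_true, le_top]
    · by_cases h2 : e = d
      · subst h2
        simp only [if_neg h1, if_true]
        rw [hd e' (lt_of_le_of_ne h (Ne.symm h1))]
      · simp only [if_neg h1, if_neg h2]
        exact a.monotone h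

theorem V_cw {I : Ideal (MvPolynomial (Fin 2) A)} (a : (Fin 2 →₀ ℕ) →o Ideal A)
    (T : Finset (Fin 2 →₀ ℕ)) (hT : ∀ d, d ∉ T → a d = ⊤) (n : ℕ)
    (h : ∀ d, V I ((a d).comap (constantCoeff (R := A) (σ := Fin 2))) n) : V I (cw a) n := by
  classical
  obtain ⟨m, hm⟩ : ∃ m, (T.filter fun d => a d ≠ ⊤).card = m := ⟨_, rfl⟩
  induction m using Nat.strong_induction_on generalizing a with
  | _ m ih =>
    by_cases hne : (T.filter fun d => a d ≠ ⊤).Nonempty
    · obtain ⟨d, hd⟩ := Finset.exists_maximal hne
      have hdF := hd.prop
      have hdT : d ∈ T := (Finset.mem_filter.1 hdF).1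
      have htop : ∀ e, d < e → a e = ⊤ := by
        intro e he
        by_contra hne'
        have heT : e ∈ T := by
          by_contra hc
          exact hne' (hT e hc)
        have : e ∈ T.filter fun d => a d ≠ ⊤ := Finset.mem_filter.2 ⟨heT, hne'⟩
        exact absurd (hd.le_of_ge this he.le) (not_le_of_gt he)
      have hsup : cw (cwUpd a d htop) = cw a ⊔ Ideal.span {monomial d 1} := by
        apply le_antisymm
        · intro f hf
          have e1 : f = (f - monomial d (coeff d f)) + C (coeff d f) * monomial d 1 := by
            rw [C_mul_monomial, mul_one]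
            ring
          rw [e1]
          refine Submodule.add_mem _ (Ideal.mem_sup_left ?_) (Ideal.mem_sup_right ?_)
          · intro e
            rw [coeff_sub, coeff_monomial]
            by_cases hed : d = e
            · subst hed
              rw [if_pos rfl, sub_self]
              exact (a d).zero_mem
            · rw [if_neg hed, sub_zero]
              have := hf e
              change coeff e f ∈ (if e = d then ⊤ else a e) at this
              rwa [if_neg (Ne.symm hed)] at this
          · exact Ideal.mul_mem_left _ _ (Ideal.subset_span rfl)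
        · refine sup_le (cw_mono' fun e => ?_) ?_
          · change a e ≤ (if e = d then ⊤ else a e)
            split_ifs
            · exact le_top
            · exact le_rfl
          · rw [Ideal.span_singleton_le_iff_mem]
            apply cw_monomial_mem
            change (1 : A) ∈ (if d = d then (⊤ : Ideal A) else a d)
            rw [if_pos rfl]
            trivial
      refine V.colon (w := monomial d 1) (K := (a d).comap constantCoeff) ?_ (h d) ?_
      · intro f
        rw [Ideal.mem_comap, mem_cw]
        constructor
        · intro hf e
          rw [coeff_monomial_mul']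
          split_ifs with hde
          · rw [one_mul]
            by_cases hed : d = e
            · subst hed
              rw [tsub_self]
              exact hf
            · rw [htop e (lt_of_le_of_ne hde hed)]
              trivial
          · exact (a e).zero_mem
        · intro hf
          have := hf d
          rw [coeff_monomial_mul', if_pos le_rfl, one_mul, tsub_self] at this
          exact this
      · rw [← hsup]
        refine ih _ ?_ (cwUpd a d htop) ?_ ?_ rfl
        · rw [← hm]
          apply Finset.card_lt_card
          refine ⟨?_, ?_⟩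
          · intro e he
            rw [Finset.mem_filter] at he ⊢
            refine ⟨he.1, fun hc => he.2 ?_⟩
            change (if e = d then ⊤ else a e) = ⊤
            rw [hc]
            simp
          · intro hsub
            have := hsub hdF
            rw [Finset.mem_filter] at this
            apply this.2
            change (if d = d then ⊤ else a d) = ⊤
            simp
        · intro e he
          change (if e = d then ⊤ else a e) = ⊤
          rw [hT e he]
          simp
        · intro e
          by_cases hed : e = d
          · have : (cwUpd a d htop) e = ⊤ := by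
              change (if e = d then ⊤ else a e) = ⊤
              rw [if_pos hed]
            rw [this, Ideal.comap_top]
            exact V.top
          · have : (cwUpd a d htop) e = a e := by
              change (if e = d then ⊤ else a e) = a e
              rw [if_neg hed]
            rw [this]
            exact h e
    · have hall : ∀ d, a d = ⊤ := by
        intro d
        by_cases hd : d ∈ T
        · by_contra hc
          exact hne ⟨d, Finset.mem_filter.2 ⟨hd, hc⟩⟩
        · exact hT d hd
      have : cw a = ⊤ := by
        rw [eq_top_iff]
        intro f _ d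
        rw [hall d]
        trivial
      rw [this]
      exact V.top

end CW

end Pool.Agent.Helper91.SymD
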