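import Mathlib
import Pool.Agent.Helper91.SymD.Defs

/-! MP_75fc3b_ag, module HPRIME.  Proof: /team-store/symd_blueprint.md -/

set_option autoImplicit false

universe u

open MvPolynomial CategoryTheory Abelian

namespace Pool.Agent.Helper91.SymD

section HPRIMEgen

variable {σ : Type} [DecidableEq σ] {k : Type u} [Field k]

/-- evaluation at `X v = - r / Q` -/
noncomputable def hprimeTheta (v : σ) (Q r : MvPolynomial σ k) :
    MvPolynomial σ k →ₐ[k] FractionRing (MvPolynomial σ k) :=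
  aeval (Function.update (fun w => algebraMap (MvPolynomial σ k) (FractionRing (MvPolynomial σ k))
    (X w)) v (- algebraMap _ _ r / algebraMap _ _ Q))

theorem hprimeTheta_eq (v : σ) (Q r : MvPolynomial σ k) {f : MvPolynomial σ k}
    (hf : th v f = f) :
    hprimeTheta v Q r f = algebraMap (MvPolynomial σ k) (FractionRing (MvPolynomial σ k)) f := by
  have h : (hprimeTheta v Q r).comp (th v) =
      (IsScalarTower.toAlgHom k (MvPolynomial σ k) (FractionRing (MvPolynomial σ k))).comp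
        (th v) := by
    apply MvPolynomial.algHom_ext
    intro w
    by_cases hw : w = v
    · subst hw
      simp [th]
    · simp [th, hprimeTheta, Function.update_of_ne hw]
  have h2 := congrArg (fun F => F f) h
  simp only [AlgHom.comp_apply, hf] at h2
  exact h2

theorem hprime_reduce (v : σ) (Q r : MvPolynomial σ k) (hQ : th v Q = Q) (hr : th v r = r)
    (f : MvPolynomial σ k) :
    ∃ (M : ℕ) (f' : MvPolynomial σ k), th v f' = f' ∧ (Q * X v + r) ∣ Q ^ M * f - f' := by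
  induction f using MvPolynomial.induction_on with
  | C a => exact ⟨0, C a, by simp [th], by simp⟩
  | add f g hf hg =>
    obtain ⟨M1, f1, h1, h1'⟩ := hf
    obtain ⟨M2, f2, h2, h2'⟩ := hg
    refine ⟨M1 + M2, Q ^ M2 * f1 + Q ^ M1 * f2, ?_, ?_⟩
    · rw [map_add, map_mul, map_mul, map_pow, map_pow, hQ, h1, h2]
    · have : Q ^ (M1 + M2) * (f + g) - (Q ^ M2 * f1 + Q ^ M1 * f2) =
          Q ^ M2 * (Q ^ M1 * f - f1) + Q ^ M1 * (Q ^ M2 * g - f2) := by ring
      rw [this]
      exact dvd_add (Dvd.dvd.mul_left h1' _) (Dvd.dvd.mul_left h2' _)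
  | mul_X f w hf =>
    obtain ⟨M1, f1, h1, h1'⟩ := hf
    by_cases hw : w = v
    · subst hw
      refine ⟨M1 + 1, - r * f1, ?_, ?_⟩
      · rw [map_mul, map_neg, hr, h1]
      · have : Q ^ (M1 + 1) * (f * X w) - (- r * f1) =
          (Q * X w + r) * (Q ^ M1 * f) - r * (Q ^ M1 * f - f1) := by ring
        rw [this]
        exact dvd_sub (dvd_mul_right _ _) (Dvd.dvd.mul_left h1' _)
    · refine ⟨M1, f1 * X w, ?_, ?_⟩
      · rw [map_mul, h1]
        simp [th, Function.update_of_ne hw]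
      · have : Q ^ M1 * (f * X w) - f1 * X w = (Q ^ M1 * f - f1) * X w := by ring
        rw [this]
        exact Dvd.dvd.mul_right h1' _

theorem hprime_free_zero (v : σ) (Q r : MvPolynomial σ k) (hQ : th v Q = Q) (hr : th v r = r)
    (hQ0 : Q ≠ 0) {w : MvPolynomial σ k} (hw : th v w = w) (h : (Q * X v + r) ∣ w) : w = 0 := by
  obtain ⟨g, hg⟩ := h
  have h1 : hprimeTheta v Q r (Q * X v + r) = 0 := by
    rw [map_add, map_mul, hprimeTheta_eq v Q r hQ, hprimeTheta_eq v Q r hr]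
    have : hprimeTheta v Q r (X v) = - algebraMap _ _ r / algebraMap _ _ Q := by
      simp [hprimeTheta]
    rw [this]
    have hQ1 : algebraMap (MvPolynomial σ k) (FractionRing (MvPolynomial σ k)) Q ≠ 0 := by
      intro h0
      exact hQ0 ((IsFractionRing.injective (MvPolynomial σ k)
        (FractionRing (MvPolynomial σ k))) (by rw [h0, map_zero]))
    field_simp
    ring
  have h2 : hprimeTheta v Q r w = 0 := by
    rw [hg, map_mul, h1, zero_mul]
  rw [hprimeTheta_eq v Q r hw] at h2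
  exact (IsFractionRing.injective (MvPolynomial σ k)
        (FractionRing (MvPolynomial σ k))) (by rw [h2, map_zero])

theorem hprime_general (v : σ) (q r : MvPolynomial σ k) (m : ℕ) (hqp : Prime q)
    (hq : th v q = q) (hr : th v r = r) (hqH : ¬ q ∣ q ^ m * X v + r) :
    Prime (q ^ m * X v + r) := by
  have hQ : th v (q ^ m) = q ^ m := by rw [map_pow, hq]
  have hQ0 : q ^ m ≠ 0 := pow_ne_zero _ hqp.ne_zero
  refine ⟨?_, ?_, ?_⟩
  · intro h0
    exact hqH (h0 ▸ dvd_zero _)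
  · intro hu
    have h1 : (q ^ m * X v + r) ∣ (1 : MvPolynomial σ k) := hu.dvd
    exact one_ne_zero (hprime_free_zero v _ r hQ hr hQ0 (map_one _) h1)
  · intro f g hfg
    obtain ⟨M1, f1, h1, h1'⟩ := hprime_reduce v _ r hQ hr f
    obtain ⟨M2, g1, h2, h2'⟩ := hprime_reduce v _ r hQ hr g
    have h3 : (q ^ m * X v + r) ∣ f1 * g1 := by
      have : f1 * g1 = (q ^ m) ^ (M1 + M2) * (f * g)
          - (q ^ m) ^ M1 * f * ((q ^ m) ^ M2 * g - g1) - g1 * ((q ^ m) ^ M1 * f - f1) := by ring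
      rw [this]
      exact dvd_sub (dvd_sub (Dvd.dvd.mul_left hfg _) (Dvd.dvd.mul_left h2' _))
        (Dvd.dvd.mul_left h1' _)
    have h4 : f1 * g1 = 0 :=
      hprime_free_zero v _ r hQ hr hQ0 (by rw [map_mul, h1, h2]) h3
    have key : ∀ (M : ℕ) (a : MvPolynomial σ k), (q ^ m * X v + r) ∣ (q ^ m) ^ M * a →
        (q ^ m * X v + r) ∣ a := by
      intro M a ha
      obtain ⟨c, hc⟩ := ha
      have h5 : q ^ (m * M) ∣ (q ^ m * X v + r) * c := by
        rw [← hc, ← pow_mul]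
        exact dvd_mul_right _ _
      obtain ⟨d, hd⟩ := hqp.pow_dvd_of_dvd_mul_left _ hqH h5
      refine ⟨d, ?_⟩
      rw [hd, ← pow_mul] at hc
      apply mul_left_cancel₀ (pow_ne_zero (m * M) hqp.ne_zero)
      rw [hc]
      ring
    rcases mul_eq_zero.1 h4 with h | h
    · left
      rw [h, sub_zero] at h1'
      exact key _ _ h1'
    · right
      rw [h, sub_zero] at h2'
      exact key _ _ h2'

end HPRIMEgen

section HPRIME

variable (k : Type u) [Field k] {N : ℕ}

/-- specialisation -/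
noncomputable def hprimeSp (a b : AA k N) (c : Fin N → AA k N) : AA k N →ₐ[k] AA k N :=
  aeval (Sum.elim ![a, b] c)

theorem hprimeSp_pp (a b : AA k N) (c : Fin N → AA k N) : hprimeSp k a b c pp = a := by
  simp [hprimeSp, pp]

theorem hprimeSp_qq (a b : AA k N) (c : Fin N → AA k N) : hprimeSp k a b c qq = b := by
  simp [hprimeSp, qq]

theorem hprimeSp_zz (a b : AA k N) (c : Fin N → AA k N) (i : Fin N) :
    hprimeSp k a b c (zz i) = c i := by
  simp [hprimeSp, zz]

theorem hprimeSp_hh (a b : AA k N) (c : Fin N → AA k N) :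
    hprimeSp k a b c (hh k N) = ∑ i : Fin N, a ^ (N - 1 - (i : ℕ)) * b ^ (i : ℕ) * c i := by
  simp only [hh, map_sum, map_mul, map_pow, hprimeSp_pp, hprimeSp_qq, hprimeSp_zz]

theorem prime_pp : Prime (pp : AA k N) := by
  exact MvPolynomial.X_prime

theorem hprime_prime_qq : Prime (qq : AA k N) := MvPolynomial.X_prime

/-- not divisible by `q` -/
theorem hprime_q_h (hN : 1 ≤ N) : ¬ (qq : AA k N) ∣ hh k N := by
  rintro ⟨c, hc⟩
  have h := congrArg (hprimeSp k pp 0 (fun _ => 1)) hc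
  rw [map_mul, hprimeSp_qq, zero_mul, hprimeSp_hh] at h
  rw [Finset.sum_eq_single_of_mem (⟨0, hN⟩ : Fin N) (Finset.mem_univ _)] at h
  · simp only [pow_zero, mul_one] at h
    exact pow_ne_zero _ (prime_pp k).ne_zero h
  · intro b _ hb
    have : (b : ℕ) ≠ 0 := fun h0 => hb (Fin.ext h0)
    simp [this]

theorem hprime_q_h' (_hN : 1 ≤ N) : ¬ (qq : AA k N) ∣ hh' k N := by
  rintro ⟨c, hc⟩
  have h := congrArg (hprimeSp k pp 0 (fun _ => 0)) hc
  rw [map_mul, hprimeSp_qq, zero_mul, hh', map_add, map_pow, hprimeSp_pp, hprimeSp_hh] at h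
  simp only [mul_zero, Finset.sum_const_zero, zero_add] at h
  exact pow_ne_zero _ (prime_pp k).ne_zero h

/-- `h = q^(N-1) z_(N-1) + r` -/
theorem hprime_split (hN : 1 ≤ N) : ∃ r : AA k N,
    th (Sum.inr (⟨N - 1, by omega⟩ : Fin N)) r = r ∧
    hh k N = qq ^ (N - 1) * X (Sum.inr (⟨N - 1, by omega⟩ : Fin N)) + r := by
  classical
  refine ⟨∑ i ∈ Finset.univ.erase (⟨N - 1, by omega⟩ : Fin N),
    pp ^ (N - 1 - (i : ℕ)) * qq ^ (i : ℕ) * zz i, ?_, ?_⟩
  · rw [map_sum]
    refine Finset.sum_congr rfl fun i hi => ?_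
    have hi' : i ≠ (⟨N - 1, by omega⟩ : Fin N) := (Finset.mem_erase.1 hi).1
    rw [map_mul, map_mul, map_pow, map_pow]
    congr 1
    · simp [th, pp, qq]
    · simp [th, zz, hi']
  · rw [hh, ← Finset.add_sum_erase _ _ (Finset.mem_univ (⟨N - 1, by omega⟩ : Fin N))]
    simp [zz]

theorem prime_hh (hN : 1 ≤ N) : Prime (hh k N) := by
  obtain ⟨r, hr, h⟩ := hprime_split k hN
  have h1 := hprime_q_h k hN
  rw [h] at h1 ⊢
  exact hprime_general _ _ _ _ (hprime_prime_qq k) (by simp [th, qq]) hr h1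

theorem prime_hh' (hN : 1 ≤ N) : Prime (hh' k N) := by
  obtain ⟨r, hr, h⟩ := hprime_split k hN
  have h1 := hprime_q_h' k hN
  rw [hh', h, add_assoc] at h1 ⊢
  exact hprime_general _ _ _ _ (hprime_prime_qq k) (by simp [th, qq])
    (by rw [map_add, hr]; simp [th, pp]) h1

theorem not_dvd_ph (hN : 1 ≤ N) : ¬ (pp : AA k N) ∣ hh k N := by
  rintro ⟨c, hc⟩
  have h := congrArg (hprimeSp k 0 qq (fun _ => 1)) hc
  rw [map_mul, hprimeSp_pp, zero_mul, hprimeSp_hh] at h
  rw [Finset.sum_eq_single_of_mem (⟨N - 1, by omega⟩ : Fin N) (Finset.mem_univ _)] at h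
  · simp only [Nat.sub_self, pow_zero, mul_one, one_mul] at h
    exact pow_ne_zero _ (hprime_prime_qq k).ne_zero h
  · intro b _ hb
    have h1 : (b : ℕ) ≠ N - 1 := fun h0 => hb (Fin.ext h0)
    have h2 : N - 1 - (b : ℕ) ≠ 0 := by have := b.2; omega
    simp [h2]

theorem not_dvd_ph' (hN : 1 ≤ N) : ¬ (pp : AA k N) ∣ hh' k N := by
  intro h
  apply not_dvd_ph k hN
  rw [hh'] at h
  exact (dvd_add_left (dvd_pow_self _ (by omega))).1 h

theorem not_dvd_hp : ¬ hh k N ∣ (pp : AA k N) := by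
  rintro ⟨c, hc⟩
  have h := congrArg (hprimeSp k pp qq (fun _ => 0)) hc
  rw [map_mul, hprimeSp_pp, hprimeSp_hh] at h
  simp only [mul_zero, Finset.sum_const_zero, zero_mul] at h
  exact (prime_pp k).ne_zero h

/-- `z_0 ↦ -p`, other `z_i ↦ 0` -/
theorem hprime_sp0 (hN : 1 ≤ N) :
    hprimeSp k pp qq (fun i => if (i : ℕ) = 0 then - pp else 0) (hh k N) = - pp ^ N := by
  rw [hprimeSp_hh, Finset.sum_eq_single_of_mem (⟨0, hN⟩ : Fin N) (Finset.mem_univ _)]
  · simp only [pow_zero, mul_one, if_true, mul_neg, Nat.sub_zero]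
    rw [← pow_succ]
    congr 2
    omega
  · intro b _ hb
    have : (b : ℕ) ≠ 0 := fun h0 => hb (Fin.ext h0)
    simp [this]

theorem hprime_sp0' (hN : 1 ≤ N) :
    hprimeSp k pp qq (fun i => if (i : ℕ) = 0 then - pp else 0) (hh' k N) = 0 := by
  rw [hh', map_add, map_pow, hprime_sp0 k hN, hprimeSp_pp]
  ring

theorem not_dvd_h'p (hN : 1 ≤ N) : ¬ hh' k N ∣ (pp : AA k N) := by
  rintro ⟨c, hc⟩
  have h := congrArg (hprimeSp k pp qq (fun i => if (i : ℕ) = 0 then - pp else 0)) hc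
  rw [map_mul, hprimeSp_pp, hprime_sp0' k hN, zero_mul] at h
  exact (prime_pp k).ne_zero h

theorem not_dvd_hh' : ¬ hh k N ∣ hh' k N := by
  rintro ⟨c, hc⟩
  have h := congrArg (hprimeSp k pp qq (fun _ => 0)) hc
  rw [map_mul, hh', map_add, map_pow, hprimeSp_pp, hprimeSp_hh] at h
  simp only [mul_zero, Finset.sum_const_zero, zero_mul, zero_add] at h
  exact pow_ne_zero _ (prime_pp k).ne_zero h

theorem not_dvd_h'h (hN : 1 ≤ N) : ¬ hh' k N ∣ hh k N := by
  rintro ⟨c, hc⟩
  have h := congrArg (hprimeSp k pp qq (fun i => if (i : ℕ) = 0 then - pp else 0)) hc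
  rw [map_mul, hprime_sp0 k hN, hprime_sp0' k hN, zero_mul, neg_eq_zero] at h
  exact pow_ne_zero _ (prime_pp k).ne_zero h

end HPRIME

end Pool.Agent.Helper91.SymD
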