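import Mathlib
import Pool.Agent.Helper91.SymD.Defs

/-! MP_75fc3b_ag, module POW.  Proof: /team-store/symd_blueprint.md -/

set_option autoImplicit false

universe u

open MvPolynomial CategoryTheory Abelian

namespace Pool.Agent.Helper91.SymD

section POW

variable {A : Type u} [CommRing A]

private theorem pow_reach_const {Γ : Finset (ℕ × ℕ × ℕ)} {a b c : ℕ} (h : (a, b, c) ∈ Γ) (t : ℕ) :
    (a * t, b * t, c * t) ∈ Reach Γ t := by
  induction t with
  | zero => simp [Reach]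
  | succ t ih => exact ⟨_, h, _, ih, by simp only [Prod.mk.injEq]; refine ⟨?_, ?_, ?_⟩ <;> ring⟩

theorem ee_mem {Γ : Finset (ℕ × ℕ × ℕ)} {c0 : ℕ} (h0 : (0, 0, c0) ∈ Γ) (t a b : ℕ) :
    ∃ a' b', (a', b', ee Γ t a b) ∈ Reach Γ t ∧ a' ≤ a ∧ b' ≤ b := by
  have hne : {c | ∃ a' b', (a', b', c) ∈ Reach Γ t ∧ a' ≤ a ∧ b' ≤ b}.Nonempty := by
    refine ⟨c0 * t, 0, 0, ?_, Nat.zero_le _, Nat.zero_le _⟩
    have := pow_reach_const h0 t
    simpa using this
  exact Nat.sInf_mem hne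

theorem ee_le {Γ : Finset (ℕ × ℕ × ℕ)} {t a b a' b' c : ℕ} (h : (a', b', c) ∈ Reach Γ t)
    (ha : a' ≤ a) (hb : b' ≤ b) : ee Γ t a b ≤ c := Nat.sInf_le ⟨a', b', h, ha, hb⟩

theorem ee_anti {Γ : Finset (ℕ × ℕ × ℕ)} {c0 : ℕ} (h0 : (0, 0, c0) ∈ Γ) (t : ℕ)
    {a b a' b' : ℕ} (ha : a ≤ a') (hb : b ≤ b') : ee Γ t a' b' ≤ ee Γ t a b := by
  obtain ⟨a1, b1, h, h1, h2⟩ := ee_mem h0 t a b
  exact ee_le h (h1.trans ha) (h2.trans hb)

private noncomputable def powT (f : A) (g : ℕ × ℕ × ℕ) : MvPolynomial (Fin 2) A :=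
  X 0 ^ g.1 * X 1 ^ g.2.1 * C (f ^ g.2.2)

private theorem powT_mul (f : A) (g r : ℕ × ℕ × ℕ) :
    powT f g * powT f r = powT f (g.1 + r.1, g.2.1 + r.2.1, g.2.2 + r.2.2) := by
  simp only [powT, pow_add, map_mul]
  ring

private theorem powT_eq (f : A) (g : ℕ × ℕ × ℕ) :
    powT f g = monomial (Finsupp.single 0 g.1 + Finsupp.single 1 g.2.1) (f ^ g.2.2) := by
  rw [powT, X_pow_eq_monomial, X_pow_eq_monomial, monomial_mul, C_apply, monomial_mul]
  simp

private theorem pow_idl (f : A) (Γ : Finset (ℕ × ℕ × ℕ)) (t : ℕ) :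
    idl f Γ ^ t = Ideal.span (powT f '' Reach Γ t) := by
  induction t with
  | zero =>
    have : (powT f '' Reach Γ 0) = {1} := by
      simp [Reach, powT]
    rw [this, pow_zero, Ideal.one_eq_top, Ideal.span_singleton_one]
  | succ t ih =>
    rw [pow_succ', ih]
    change Ideal.span (powT f '' (Γ : Set (ℕ × ℕ × ℕ))) * _ = _
    rw [Ideal.span_mul_span']
    congr 1
    ext x
    constructor
    · rintro ⟨_, ⟨g, hg, rfl⟩, _, ⟨r, hr, rfl⟩, rfl⟩
      exact ⟨_, ⟨g, hg, r, hr, rfl⟩, (powT_mul f g r).symm⟩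
    · rintro ⟨_, ⟨g, hg, r, hr, rfl⟩, rfl⟩
      exact ⟨_, ⟨g, hg, rfl⟩, _, ⟨r, hr, rfl⟩, powT_mul f g r⟩

private theorem pow_le_iff (a b : ℕ) (d : Fin 2 →₀ ℕ) :
    (Finsupp.single 0 a + Finsupp.single 1 b ≤ d) ↔ a ≤ d 0 ∧ b ≤ d 1 := by
  constructor
  · intro h
    have h0 := h 0
    have h1 := h 1
    simp at h0 h1
    exact ⟨h0, h1⟩
  · rintro ⟨h0, h1⟩ i
    fin_cases i
    · simpa using h0
    · simpa using h1

theorem mem_idl_pow (f : A) (Γ : Finset (ℕ × ℕ × ℕ)) {c0 : ℕ} (h0 : (0, 0, c0) ∈ Γ) (t : ℕ)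
    (g : MvPolynomial (Fin 2) A) :
    g ∈ idl f Γ ^ t ↔ ∀ d, f ^ ee Γ t (d 0) (d 1) ∣ coeff d g := by
  rw [pow_idl]
  constructor
  · intro hg
    induction hg using Submodule.span_induction with
    | mem x hx =>
      obtain ⟨⟨a, b, c⟩, hr, rfl⟩ := hx
      intro d
      rw [powT_eq, coeff_monomial]
      split_ifs with hd
      · subst hd
        apply pow_dvd_pow
        exact ee_le hr (by simp) (by simp)
      · exact dvd_zero _
    | zero => intro d; rw [coeff_zero]; exact dvd_zero _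
    | add x y _ _ hx hy => intro d; rw [coeff_add]; exact dvd_add (hx d) (hy d)
    | smul r x _ hx =>
      intro d
      rw [smul_eq_mul, coeff_mul]
      refine Finset.dvd_sum fun p hp => ?_
      refine Dvd.dvd.mul_left ?_ _
      refine (pow_dvd_pow f ?_).trans (hx p.2)
      have h : p.2 ≤ d := (Finset.HasAntidiagonal.mem_antidiagonal.1 hp) ▸ le_add_self
      exact ee_anti h0 t (h 0) (h 1)
  · intro hg
    rw [g.as_sum]
    refine Ideal.sum_mem _ fun d _ => ?_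
    obtain ⟨a, b, hr, ha, hb⟩ := ee_mem h0 t (d 0) (d 1)
    obtain ⟨u, hu⟩ := hg d
    have hle := (pow_le_iff a b d).2 ⟨ha, hb⟩
    have hmem : powT f (a, b, ee Γ t (d 0) (d 1)) ∈ Ideal.span (powT f '' Reach Γ t) :=
      Ideal.subset_span ⟨_, hr, rfl⟩
    have heq : monomial d (coeff d g) = monomial (d - (Finsupp.single 0 a + Finsupp.single 1 b)) u *
        powT f (a, b, ee Γ t (d 0) (d 1)) := by
      rw [powT_eq, monomial_mul, hu, tsub_add_cancel_of_le hle, mul_comm u]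
    rw [heq]
    exact Ideal.mul_mem_left _ _ hmem

private theorem pow_reach_ΓG {μ β : ℕ} (t : ℕ) (r : ℕ × ℕ × ℕ) (hr : r ∈ Reach (ΓG μ β) t) :
    ∃ i j l, i + j + l = t ∧ r = (i * μ, j * β, l) := by
  induction t generalizing r with
  | zero =>
    rw [Reach, Set.mem_singleton_iff] at hr
    exact ⟨0, 0, 0, rfl, by simp [hr]⟩
  | succ t ih =>
    obtain ⟨g, hg, r', hr', rfl⟩ := hr
    obtain ⟨i, j, l, hs, rfl⟩ := ih r' hr'
    simp only [ΓG, Finset.mem_insert, Finset.mem_singleton] at hg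
    rcases hg with rfl | rfl | rfl
    · exact ⟨i + 1, j, l, by omega, by simp only [Prod.mk.injEq]; refine ⟨?_, ?_, ?_⟩ <;> ring⟩
    · exact ⟨i, j + 1, l, by omega, by simp only [Prod.mk.injEq]; refine ⟨?_, ?_, ?_⟩ <;> ring⟩
    · exact ⟨i, j, l + 1, by omega, by simp only [Prod.mk.injEq]; refine ⟨?_, ?_, ?_⟩ <;> ring⟩

private theorem pow_reach_ΓG' {μ β : ℕ} (i j l : ℕ) :
    (i * μ, j * β, l) ∈ Reach (ΓG μ β) (i + j + l) := by
  induction i with
  | zero =>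
    induction j with
    | zero =>
      induction l with
      | zero => simp [Reach]
      | succ l ih =>
        refine ⟨(0, 0, 1), by simp [ΓG], _, ih, ?_⟩
        simp only [Prod.mk.injEq]; refine ⟨?_, ?_, ?_⟩ <;> ring
    | succ j ih =>
      rw [show 0 + (j + 1) + l = (0 + j + l) + 1 by ring]
      refine ⟨(0, β, 0), by simp [ΓG], _, ih, ?_⟩
      simp only [Prod.mk.injEq]; refine ⟨?_, ?_, ?_⟩ <;> ring
  | succ i ih =>
    rw [show (i + 1) + j + l = (i + j + l) + 1 by ring]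
    refine ⟨(μ, 0, 0), by simp [ΓG], _, ih, ?_⟩
    simp only [Prod.mk.injEq]; refine ⟨?_, ?_, ?_⟩ <;> ring

theorem ee_ΓG {μ β : ℕ} (hμ : 0 < μ) (hβ : 0 < β) (t a b : ℕ) :
    ee (ΓG μ β) t a b = t - (a / μ + b / β) := by
  apply le_antisymm
  · -- choose i = min t (a/μ), j = min (t - i) (b / β)
    set i := min t (a / μ) with hi
    set j := min (t - i) (b / β) with hj
    have h1 := pow_reach_ΓG' (μ := μ) (β := β) i j (t - i - j)
    have h2 : i + j + (t - i - j) = t := by omega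
    rw [h2] at h1
    have h3 := ee_le (a := a) (b := b) h1
      ((Nat.mul_le_mul_right μ (min_le_right _ _)).trans (Nat.div_mul_le_self a μ))
      ((Nat.mul_le_mul_right β (min_le_right _ _)).trans (Nat.div_mul_le_self b β))
    generalize a / μ = x at *
    generalize b / β = y at *
    omega
  · obtain ⟨a', b', hr, ha, hb⟩ := ee_mem (Γ := ΓG μ β) (c0 := 1) (by simp [ΓG]) t a b
    obtain ⟨i, j, l, hs, hr'⟩ := pow_reach_ΓG t _ hr
    simp only [Prod.mk.injEq] at hr'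
    obtain ⟨rfl, rfl, h3⟩ := hr'
    have h4 : i ≤ a / μ := (Nat.le_div_iff_mul_le hμ).2 ha
    have h5 : j ≤ b / β := (Nat.le_div_iff_mul_le hβ).2 hb
    omega

theorem ee_eq_zero_left {Γ : Finset (ℕ × ℕ × ℕ)} {μ : ℕ} (h : (μ, 0, 0) ∈ Γ) {t a b : ℕ}
    (ha : μ * t ≤ a) : ee Γ t a b = 0 := by
  have h1 := pow_reach_const h t
  rw [zero_mul] at h1
  exact Nat.le_zero.1 (ee_le h1 ha (Nat.zero_le _))

theorem ee_eq_zero_right {Γ : Finset (ℕ × ℕ × ℕ)} {β : ℕ} (h : (0, β, 0) ∈ Γ) {t a b : ℕ}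
    (hb : β * t ≤ b) : ee Γ t a b = 0 := by
  have h1 := pow_reach_const h t
  rw [zero_mul] at h1
  exact Nat.le_zero.1 (ee_le h1 (Nat.zero_le _) hb)

end POW

end Pool.Agent.Helper91.SymD
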