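import Mathlib
import Pool.Agent.Helper91.SymD.Defs
import Pool.Agent.Helper91.SymD.Pow
import Pool.Agent.Helper91.SymD.Hprime

/-! MP_75fc3b_ag, module DDM.  Proof: /team-store/symd_blueprint.md -/

set_option autoImplicit false

universe u

open MvPolynomial CategoryTheory Abelian

namespace Pool.Agent.Helper91.SymD

section DDM

variable (k : Type u) [Field k] {N t0 D : ℕ} {ψ : ℕ → ℕ}

theorem ddm_mul_dvd {A : Type u} [CommRing A] [IsDomain A] {p h h' : A} (hp : Prime p)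
    (hh : Prime h) (hh' : Prime h') (h1 : ¬ p ∣ h) (h2 : ¬ p ∣ h') (h3 : ¬ h ∣ h')
    (a b c : ℕ) (u : A) (hu1 : p ^ a ∣ u) (hu2 : h ^ b ∣ u) (hu3 : h' ^ c ∣ u) :
    p ^ a * (h ^ b * h' ^ c) ∣ u := by
  obtain ⟨w, rfl⟩ := hu3
  have e1 : ¬ h ∣ h' ^ c := fun h4 => h3 (hh.dvd_of_dvd_pow h4)
  have h5 : h ^ b ∣ w := hh.pow_dvd_of_dvd_mul_left b e1 hu2
  obtain ⟨w', rfl⟩ := h5
  have e2 : ¬ p ∣ h' ^ c * h ^ b := by
    intro h6
    rcases hp.dvd_or_dvd h6 with h7 | h7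
    · exact h2 (hp.dvd_of_dvd_pow h7)
    · exact h1 (hp.dvd_of_dvd_pow h7)
  rw [← mul_assoc] at hu1
  have h8 : p ^ a ∣ w' := hp.pow_dvd_of_dvd_mul_left a e2 hu1
  obtain ⟨v, rfl⟩ := h8
  exact ⟨v, by ring⟩

theorem mem_DD (hN : 1 ≤ N) (t : ℕ) (g : RR k N) :
    g ∈ DD k N t0 D ψ t ↔ ∀ d, FF k N t0 D ψ t (d 0) (d 1) ∣ coeff d g := by
  have h3 : ((0 : ℕ), (0 : ℕ), (N + 1) * (2 * KK t0 D + 1)) ∈ Γ3 N t0 D ψ := by
    simp [Γ3]
  have hG : ∀ μ β : ℕ, ((0 : ℕ), (0 : ℕ), 1) ∈ ΓG μ β := by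
    intro μ β; simp [ΓG]
  have hK : 2 ≤ KK t0 D := by unfold KK; omega
  have e1 : ∀ a b : ℕ, ee (ΓG (eps t0 D + 3) (KK t0 D)) t a b = eJ t0 D t a b := by
    intro a b
    rw [ee_ΓG (by omega) (by omega)]
    rfl
  have e2 : ∀ a b : ℕ, ee (ΓG (KK t0 D) (KK t0 D - 1)) t a b = eJ' t0 D t a b := by
    intro a b
    rw [ee_ΓG (by omega) (by omega)]
    rfl
  unfold DD
  rw [Submodule.mem_inf, Submodule.mem_inf]
  unfold Q3 Q2 Q2'
  rw [mem_idl_pow _ _ h3, mem_idl_pow _ _ (hG _ _), mem_idl_pow _ _ (hG _ _)]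
  simp only [e1, e2]
  constructor
  · rintro ⟨a1, a2, a3⟩ d
    exact ddm_mul_dvd (prime_pp k) (prime_hh k hN) (prime_hh' k hN) (not_dvd_ph k hN)
      (not_dvd_ph' k hN) (not_dvd_hh' k) _ _ _ _ (a1 d) (a2 d) (a3 d)
  · intro h
    refine ⟨fun d => ?_, fun d => ?_, fun d => ?_⟩
    · exact (Dvd.intro _ rfl).trans (h d)
    · exact ((Dvd.intro _ rfl).trans (Dvd.intro_left _ rfl)).trans (h d)
    · exact ((Dvd.intro_left _ rfl).trans (Dvd.intro_left _ rfl)).trans (h d)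

theorem FF_dvd (t : ℕ) {a b a' b' : ℕ} (ha : a ≤ a') (hb : b ≤ b') :
    FF k N t0 D ψ t a' b' ∣ FF k N t0 D ψ t a b := by
  have h3 : ((0 : ℕ), (0 : ℕ), (N + 1) * (2 * KK t0 D + 1)) ∈ Γ3 N t0 D ψ := by
    simp [Γ3]
  unfold FF
  refine mul_dvd_mul (pow_dvd_pow _ (ee_anti h3 t ha hb)) (mul_dvd_mul (pow_dvd_pow _ ?_)
    (pow_dvd_pow _ ?_))
  · unfold eJ
    have h1 := Nat.div_le_div_right (c := eps t0 D + 3) ha
    have h2 := Nat.div_le_div_right (c := KK t0 D) hb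
    omega
  · unfold eJ'
    have h1 := Nat.div_le_div_right (c := KK t0 D) ha
    have h2 := Nat.div_le_div_right (c := KK t0 D - 1) hb
    omega

theorem FF_ne_zero (hN : 1 ≤ N) (t a b : ℕ) : FF k N t0 D ψ t a b ≠ 0 := by
  unfold FF
  exact mul_ne_zero (pow_ne_zero _ (prime_pp k).ne_zero)
    (mul_ne_zero (pow_ne_zero _ (prime_hh k hN).ne_zero) (pow_ne_zero _ (prime_hh' k hN).ne_zero))

theorem ddm_le_div {m K t a : ℕ} (hK : 0 < K) (hKm : K ≤ m) (h : m * t ≤ a) : t ≤ a / K := by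
  rw [Nat.le_div_iff_mul_le hK]
  calc t * K ≤ t * m := Nat.mul_le_mul_left _ hKm
    _ = m * t := Nat.mul_comm _ _
    _ ≤ a := h

theorem FF_eq_one_left {t a b : ℕ} (ha : (2 * KK t0 D + 1) * t ≤ a) : FF k N t0 D ψ t a b = 1 := by
  have h3 : (2 * KK t0 D + 1, (0 : ℕ), (0 : ℕ)) ∈ Γ3 N t0 D ψ := by
    simp [Γ3]
  have hK : KK t0 D = 2 * eps t0 D + 2 := rfl
  have h1 : eJ t0 D t a b = 0 := by
    unfold eJ
    exact Nat.sub_eq_zero_of_le ((ddm_le_div (m := 2 * KK t0 D + 1) (K := eps t0 D + 3)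
      (by omega) (by omega) ha).trans (Nat.le_add_right _ _))
  have h2 : eJ' t0 D t a b = 0 := by
    unfold eJ'
    exact Nat.sub_eq_zero_of_le ((ddm_le_div (m := 2 * KK t0 D + 1) (K := KK t0 D)
      (by omega) (by omega) ha).trans (Nat.le_add_right _ _))
  unfold FF
  rw [ee_eq_zero_left h3 ha, h1, h2]
  simp

theorem FF_eq_one_right {t a b : ℕ} (ha : (KK t0 D + 1) * t ≤ b) : FF k N t0 D ψ t a b = 1 := by
  have h3 : ((0 : ℕ), KK t0 D + 1, (0 : ℕ)) ∈ Γ3 N t0 D ψ := by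
    simp [Γ3]
  have hK : KK t0 D = 2 * eps t0 D + 2 := rfl
  have h1 : eJ t0 D t a b = 0 := by
    unfold eJ
    exact Nat.sub_eq_zero_of_le ((ddm_le_div (m := KK t0 D + 1) (K := KK t0 D)
      (by omega) (by omega) ha).trans (Nat.le_add_left _ _))
  have h2 : eJ' t0 D t a b = 0 := by
    unfold eJ'
    exact Nat.sub_eq_zero_of_le ((ddm_le_div (m := KK t0 D + 1) (K := KK t0 D - 1)
      (by omega) (by omega) ha).trans (Nat.le_add_left _ _))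
  unfold FF
  rw [ee_eq_zero_right h3 ha, h1, h2]
  simp

/-- `d ↦ (FF d)` -/
noncomputable def aF (N t0 D : ℕ) (ψ : ℕ → ℕ) (t : ℕ) : (Fin 2 →₀ ℕ) →o Ideal (AA k N) where
  toFun d := Ideal.span {FF k N t0 D ψ t (d 0) (d 1)}
  monotone' := fun d d' h => by
    rw [Ideal.span_singleton_le_span_singleton]
    exact FF_dvd k t (h 0) (h 1)

theorem DD_eq (hN : 1 ≤ N) (t : ℕ) : DD k N t0 D ψ t = cw (aF k N t0 D ψ t) := by
  ext g
  rw [mem_DD k hN]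
  exact forall_congr' fun d => Ideal.mem_span_singleton.symm

end DDM

end Pool.Agent.Helper91.SymD
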