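import Mathlib
import Pool.Agent.Helper91.SymD.Defs

/-! MP_75fc3b_ag, module SOCA.  Proof: /team-store/symd_blueprint.md -/

set_option autoImplicit false

universe u

open MvPolynomial CategoryTheory Abelian

namespace Pool.Agent.Helper91.SymD

section SOCA

variable (k : Type u) [Field k] {N : ℕ}

/-- `p^a q^b ∈ 𝔟^t` -/
theorem SocA_mem_bb_pow {t a b i j : ℕ} (hij : i + j = t) (ha : (N + 1) * i ≤ a)
    (hb : (N + 1) * j ≤ b) : (pp ^ a * qq ^ b : AA k N) ∈ bb k N ^ t := by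
  have h1 : ((pp : AA k N) ^ (N + 1)) ^ i ∈ bb k N ^ i :=
    Ideal.pow_mem_pow (Ideal.subset_span (by simp)) i
  have h2 : ((qq : AA k N) ^ (N + 1)) ^ j ∈ bb k N ^ j :=
    Ideal.pow_mem_pow (Ideal.subset_span (by simp)) j
  have h3 : ((pp : AA k N) ^ (N + 1)) ^ i * (qq ^ (N + 1)) ^ j ∈ bb k N ^ t := by
    rw [← hij, pow_add]
    exact Ideal.mul_mem_mul h1 h2
  have h4 : (pp ^ a * qq ^ b : AA k N) =
      (pp ^ (a - (N + 1) * i) * qq ^ (b - (N + 1) * j)) *
        ((pp ^ (N + 1)) ^ i * (qq ^ (N + 1)) ^ j) := by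
    rw [← pow_mul, ← pow_mul]
    have e1 : (pp ^ a : AA k N) = pp ^ (a - (N + 1) * i) * pp ^ ((N + 1) * i) := by
      rw [← pow_add]; congr 1; omega
    have e2 : (qq ^ b : AA k N) = qq ^ (b - (N + 1) * j) * qq ^ ((N + 1) * j) := by
      rw [← pow_add]; congr 1; omega
    rw [e1, e2]; ring
  rw [h4]
  exact Ideal.mul_mem_left _ _ h3

/-- polynomials without monomials dividing `D` -/
noncomputable def SocA_below (D : Fin 2 ⊕ Fin N →₀ ℕ) : Ideal (AA k N) where
  carrier := {f | ∀ d, d ≤ D → coeff d f = 0}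
  add_mem' := by
    intro f g hf hg d hd
    rw [coeff_add, hf d hd, hg d hd, add_zero]
  zero_mem' := by
    intro d _
    rw [coeff_zero]
  smul_mem' := by
    intro r f hf d hd
    rw [smul_eq_mul, coeff_mul]
    refine Finset.sum_eq_zero fun x hx => ?_
    have h : x.2 ≤ d := (Finset.HasAntidiagonal.mem_antidiagonal.1 hx) ▸ le_add_self
    rw [hf x.2 (h.trans hd), mul_zero]

theorem SocA_X_pow_mem {D : Fin 2 ⊕ Fin N →₀ ℕ} (v : Fin 2 ⊕ Fin N) {a : ℕ} (h : D v < a) :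
    (X v ^ a : AA k N) ∈ SocA_below k D := by
  classical
  intro d hd
  rw [coeff_X_pow, if_neg]
  rintro rfl
  have := hd v
  rw [Finsupp.single_eq_same] at this
  omega

theorem SocA_hh_mem {D : Fin 2 ⊕ Fin N →₀ ℕ} (h : ∀ i, D (Sum.inr i) = 0) :
    hh k N ∈ SocA_below k D := by
  unfold hh
  refine Ideal.sum_mem _ fun i _ => ?_
  refine Ideal.mul_mem_left _ _ ?_
  have h1 := SocA_X_pow_mem k (D := D) (Sum.inr i) (a := 1) (by rw [h i]; norm_num)
  rw [pow_one] at h1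
  exact h1

theorem SocA_bb_pow_le (t : ℕ) (ht : 1 ≤ t) :
    bb k N ^ t ≤ Ideal.span {(pp : AA k N) ^ ((N + 1) * t)} ⊔ Ideal.span {(qq : AA k N) ^ (N + 1)} := by
  induction t, ht using Nat.le_induction with
  | base =>
    rw [pow_one, mul_one, bb, ← Ideal.span_union]
    rfl
  | succ t ht ih =>
    rw [pow_succ]
    refine (Ideal.mul_mono_left ih).trans ?_
    rw [Ideal.sup_mul]
    refine sup_le ?_ (Ideal.mul_le_left.trans le_sup_right)
    rw [bb, ← Set.singleton_union, Ideal.span_union, Ideal.mul_sup]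
    refine sup_le (le_trans ?_ le_sup_left) (Ideal.mul_le_right.trans le_sup_right)
    rw [Ideal.span_singleton_mul_span_singleton, ← pow_add, mul_add, mul_one]

/-- the candidate for a socle element -/
theorem soc_notMem {s : ℕ} {t e3 e e' : ℕ} (ht : 1 ≤ t) (hs : s ≤ N) (he : 1 ≤ e + e')
    (h : (N + 1) * t ≤ e3 + s) :
    (pp ^ ((N + 1) * t - 1) * qq ^ N : AA k N) ∉
      bb k N ^ t ⊔ Ideal.span {pp ^ e3 * (hh k N ^ e * hh' k N ^ e')} ⊔ Ideal.ofList (zs k N s) := by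
  classical
  have hn : 1 ≤ (N + 1) * t := Nat.mul_pos (Nat.succ_pos N) ht
  set D : Fin 2 ⊕ Fin N →₀ ℕ :=
    Finsupp.single (Sum.inl 0) ((N + 1) * t - 1) + Finsupp.single (Sum.inl 1) N with hD
  have hD0 : D (Sum.inl 0) = (N + 1) * t - 1 := by simp [hD]
  have hD1 : D (Sum.inl 1) = N := by simp [hD]
  have hDr : ∀ i, D (Sum.inr i) = 0 := by intro i; simp [hD]
  have hhm := SocA_hh_mem k hDr
  have hle : bb k N ^ t ⊔ Ideal.span {pp ^ e3 * (hh k N ^ e * hh' k N ^ e')} ⊔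
      Ideal.ofList (zs k N s) ≤ SocA_below k D := by
    refine sup_le (sup_le ?_ ?_) ?_
    · refine (SocA_bb_pow_le k t ht).trans (sup_le ?_ ?_)
      · rw [Ideal.span_singleton_le_iff_mem]
        exact SocA_X_pow_mem k (Sum.inl 0) (by rw [hD0]; omega)
      · rw [Ideal.span_singleton_le_iff_mem]
        exact SocA_X_pow_mem k (Sum.inl 1) (by rw [hD1]; omega)
    · rw [Ideal.span_singleton_le_iff_mem]
      rcases Nat.eq_zero_or_pos e with h0 | h0
      · subst h0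
        have he' : 1 ≤ e' := by omega
        have h1 : (hh' k N ^ e' - (pp ^ N) ^ e' : AA k N) ∈ SocA_below k D := by
          have h2 : hh' k N - pp ^ N ∣ hh' k N ^ e' - (pp ^ N) ^ e' := sub_dvd_pow_sub_pow _ _ _
          have h3 : hh' k N - pp ^ N = hh k N := by unfold hh'; ring
          rw [h3] at h2
          exact Ideal.mem_of_dvd _ h2 hhm
        have h2 : (pp ^ e3 * (hh k N ^ 0 * hh' k N ^ e') : AA k N) =
            pp ^ e3 * (hh' k N ^ e' - (pp ^ N) ^ e') + pp ^ (e3 + N * e') := by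
          rw [pow_zero, one_mul, mul_sub, ← pow_mul, pow_add]; ring
        rw [h2]
        refine Ideal.add_mem _ (Ideal.mul_mem_left _ _ h1) ?_
        refine SocA_X_pow_mem k (Sum.inl 0) ?_
        rw [hD0]
        have : N * 1 ≤ N * e' := Nat.mul_le_mul_left N he'
        omega
      · refine Ideal.mul_mem_left _ _ (Ideal.mul_mem_right _ _ ?_)
        exact Ideal.pow_mem_of_mem _ hhm e h0
    · rw [Ideal.ofList, Ideal.span_le]
      intro z hz
      simp only [zs, List.mem_map, Set.mem_ofPred_eq] at hz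
      obtain ⟨i, _, rfl⟩ := hz
      have h1 := SocA_X_pow_mem k (D := D) (Sum.inr i) (a := 1) (by rw [hDr i]; norm_num)
      rw [pow_one] at h1
      exact h1
  intro hmem
  have h1 := hle hmem D le_rfl
  have h2 : (pp ^ ((N + 1) * t - 1) * qq ^ N : AA k N) = monomial D 1 := by
    rw [hD, pp, qq, X_pow_eq_monomial, X_pow_eq_monomial, monomial_mul, one_mul]
  rw [h2, coeff_monomial, if_pos rfl] at h1
  exact one_ne_zero h1

theorem soc_p {t : ℕ} (ht : 1 ≤ t) :
    pp * (pp ^ ((N + 1) * t - 1) * qq ^ N) ∈ bb k N ^ t := by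
  have hn : 1 ≤ (N + 1) * t := Nat.mul_pos (Nat.succ_pos N) ht
  have h1 : (pp * (pp ^ ((N + 1) * t - 1) * qq ^ N) : AA k N) = pp ^ ((N + 1) * t) * qq ^ N := by
    rw [← mul_assoc, ← pow_succ', Nat.sub_add_cancel hn]
  rw [h1]
  exact SocA_mem_bb_pow k (i := t) (j := 0) (by omega) le_rfl (by simp)

theorem soc_q {t : ℕ} (ht : 1 ≤ t) :
    qq * (pp ^ ((N + 1) * t - 1) * qq ^ N) ∈ bb k N ^ t := by
  obtain ⟨r, rfl⟩ : ∃ r, t = r + 1 := ⟨t - 1, by omega⟩
  have h1 : (qq * (pp ^ ((N + 1) * (r + 1) - 1) * qq ^ N) : AA k N) =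
      pp ^ ((N + 1) * (r + 1) - 1) * qq ^ (N + 1) := by ring
  rw [h1]
  refine SocA_mem_bb_pow k (i := r) (j := 1) rfl ?_ (by simp)
  rw [mul_add, mul_one]
  omega

theorem SocA_term {s : ℕ} {t e3 : ℕ} (ht : 1 ≤ t) (hs : s ≤ N)
    (h : (N + 1) * t = e3 + s) (i : Fin N) (hi : N - s ≤ (i : ℕ)) (j : Fin N) (hj : j ≠ i) :
    (pp ^ (i - (N - s)) * qq ^ (N - i) * (pp ^ e3 *
      (pp ^ (N - 1 - (j : ℕ)) * qq ^ (j : ℕ) * zz j)) : AA k N) ∈
      bb k N ^ t ⊔ Ideal.ofList (zs k N s) := by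
  obtain ⟨r, rfl⟩ : ∃ r, t = r + 1 := ⟨t - 1, by omega⟩
  have hiN := i.2
  have hjN := j.2
  have hji : (j : ℕ) ≠ (i : ℕ) := fun hh => hj (Fin.ext hh)
  by_cases hjs : (j : ℕ) < N - s
  · refine Ideal.mul_mem_left _ _ (Ideal.mul_mem_left _ _ (Ideal.mul_mem_left _ _ ?_))
    refine Ideal.mem_sup_right ?_
    refine Ideal.subset_span ?_
    simp only [zs, List.mem_map, Set.mem_ofPred_eq]
    exact ⟨j, by simp [hjs], rfl⟩
  · refine Ideal.mem_sup_left ?_
    have e1 : (pp ^ (i - (N - s)) * qq ^ (N - i) * (pp ^ e3 *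
      (pp ^ (N - 1 - (j : ℕ)) * qq ^ (j : ℕ) * zz j)) : AA k N) =
      pp ^ ((i - (N - s)) + e3 + (N - 1 - (j : ℕ))) * qq ^ ((N - i) + (j : ℕ)) * zz j := by
      rw [pow_add, pow_add, pow_add]; ring
    rw [e1]
    refine Ideal.mul_mem_right _ _ ?_
    rw [mul_add, mul_one] at h
    rcases lt_or_gt_of_ne hji with h1 | h1
    · refine SocA_mem_bb_pow k (i := r + 1) (j := 0) rfl ?_ (by simp)
      rw [mul_add, mul_one]
      omega
    · refine SocA_mem_bb_pow k (i := r) (j := 1) rfl ?_ ?_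
      · omega
      · omega

theorem soc_z {s : ℕ} {t e3 e e' : ℕ} (ht : 1 ≤ t) (hs1 : 1 ≤ s) (hs : s ≤ N) (he : e + e' = 1)
    (h : (N + 1) * t = e3 + s) (i : Fin N) :
    zz i * (pp ^ ((N + 1) * t - 1) * qq ^ N) ∈
      bb k N ^ t ⊔ Ideal.span {pp ^ e3 * (hh k N ^ e * hh' k N ^ e')} ⊔ Ideal.ofList (zs k N s) := by
  classical
  have hiN := i.2
  by_cases his : (i : ℕ) < N - s
  · refine Ideal.mul_mem_right _ _ (Ideal.mem_sup_right (Ideal.subset_span ?_))
    simp only [zs, List.mem_map, Set.mem_ofPred_eq]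
    exact ⟨i, by simp [his], rfl⟩
  push Not at his
  set J := bb k N ^ t ⊔ Ideal.span {pp ^ e3 * (hh k N ^ e * hh' k N ^ e')} ⊔
    Ideal.ofList (zs k N s) with hJ
  have hle : bb k N ^ t ⊔ Ideal.ofList (zs k N s) ≤ J :=
    sup_le (le_sup_left.trans le_sup_left) le_sup_right
  set w : AA k N := pp ^ ((i : ℕ) - (N - s)) * qq ^ (N - (i : ℕ)) with hw
  -- the part coming from `h`
  have key : w * (pp ^ e3 * hh k N) - zz i * (pp ^ ((N + 1) * t - 1) * qq ^ N) ∈ J := by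
    have h1 : w * (pp ^ e3 * hh k N) = ∑ j : Fin N, w * (pp ^ e3 *
        (pp ^ (N - 1 - (j : ℕ)) * qq ^ (j : ℕ) * zz j)) := by
      unfold hh
      rw [Finset.mul_sum, Finset.mul_sum]
    rw [h1, ← Finset.add_sum_erase _ _ (Finset.mem_univ i)]
    have h2 : w * (pp ^ e3 * (pp ^ (N - 1 - (i : ℕ)) * qq ^ (i : ℕ) * zz i)) =
        zz i * (pp ^ ((N + 1) * t - 1) * qq ^ N) := by
      have e1 : (N + 1) * t - 1 = ((i : ℕ) - (N - s)) + e3 + (N - 1 - (i : ℕ)) := by omega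
      have e2 : (qq ^ N : AA k N) = qq ^ (N - (i : ℕ)) * qq ^ (i : ℕ) := by
        rw [← pow_add]; congr 1; omega
      rw [hw, e1, e2, pow_add, pow_add]; ring
    rw [h2, add_sub_cancel_left]
    refine Ideal.sum_mem _ fun j hj => hle ?_
    exact SocA_term k ht hs h i his j (Finset.ne_of_mem_erase hj)
  have key2 : w * (pp ^ e3 * (hh k N ^ e * hh' k N ^ e')) - w * (pp ^ e3 * hh k N) ∈ J := by
    rcases Nat.eq_zero_or_pos e with h0 | h0
    · obtain rfl : e' = 1 := by omega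
      subst h0
      have h1 : w * (pp ^ e3 * (hh k N ^ 0 * hh' k N ^ 1)) - w * (pp ^ e3 * hh k N) =
          pp ^ (((i : ℕ) - (N - s)) + e3 + N) * qq ^ (N - (i : ℕ)) := by
        unfold hh'
        rw [hw, pow_add, pow_add]; ring
      rw [h1]
      refine hle (Ideal.mem_sup_left ?_)
      refine SocA_mem_bb_pow k (i := t) (j := 0) rfl ?_ (by simp)
      omega
    · obtain rfl : e = 1 := by omega
      obtain rfl : e' = 0 := by omega
      rw [pow_one, pow_zero, mul_one, sub_self]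
      exact J.zero_mem
  have key3 : w * (pp ^ e3 * (hh k N ^ e * hh' k N ^ e')) ∈ J := by
    refine Ideal.mul_mem_left _ _ (Ideal.mem_sup_left (Ideal.mem_sup_right ?_))
    exact Ideal.mem_span_singleton_self _
  have h3 : zz i * (pp ^ ((N + 1) * t - 1) * qq ^ N) =
      w * (pp ^ e3 * (hh k N ^ e * hh' k N ^ e')) -
      (w * (pp ^ e3 * (hh k N ^ e * hh' k N ^ e')) - w * (pp ^ e3 * hh k N)) -
      (w * (pp ^ e3 * hh k N) - zz i * (pp ^ ((N + 1) * t - 1) * qq ^ N)) := by ring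
  rw [h3]
  exact J.sub_mem (J.sub_mem key3 key2) key

end SOCA

end Pool.Agent.Helper91.SymD
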