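import Mathlib
import Pool.Agent.Helper91.SymD.Defs
import Pool.Agent.Helper91.SymD.ExtB

/-! MP_75fc3b_ag, module SOCB.  Proof: /team-store/symd_blueprint.md -/

set_option autoImplicit false

universe u

open MvPolynomial CategoryTheory Abelian

namespace Pool.Agent.Helper91.SymD

section SOCB

variable (k : Type u) [Field k] {N : ℕ}

theorem socB_monomial {A : Type u} [CommRing A] (a : (Fin 2 →₀ ℕ) →o Ideal A) (d : Fin 2 →₀ ℕ)
    (u : A) : monomial d u ∈ cw a ↔ u ∈ a d := by
  constructor
  · intro h
    have := h d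
    rwa [coeff_monomial, if_pos rfl] at this
  · intro h e
    rw [coeff_monomial]
    split_ifs with he
    · rw [← he]; exact h
    · exact (a e).zero_mem

theorem soc_cw (a : (Fin 2 →₀ ℕ) →o Ideal (AA k N)) (T : Finset (Fin 2 →₀ ℕ))
    (hT : ∀ d, d ∉ T → a d = ⊤) (d : Fin 2 →₀ ℕ) (u : AA k N) (hu : u ∉ a d)
    (h : ∀ v, X v * u ∈ a d) : ¬ V (mR k N) (cw a) 1 := by
  classical
  have hmem : ∀ e, u ∉ a e → e ∈ T := by
    intro e he
    by_contra h1
    rw [hT e h1] at he
    exact he Submodule.mem_top
  have hne : (T.filter fun e => d ≤ e ∧ u ∉ a e).Nonempty :=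
    ⟨d, Finset.mem_filter.2 ⟨hmem d hu, le_rfl, hu⟩⟩
  obtain ⟨d', hd'⟩ := Finset.exists_maximal hne
  have h1 := Finset.mem_filter.1 hd'.1
  have hmax : ∀ e, d' < e → u ∈ a e := by
    intro e he
    by_contra h2
    have h3 : e ∈ T.filter fun e => d ≤ e ∧ u ∉ a e :=
      Finset.mem_filter.2 ⟨hmem e h2, h1.2.1.trans he.le, h2⟩
    exact absurd (hd'.2 h3 he.le) (not_le_of_gt he)
  refine V.socle (monomial d' u) ?_ ?_
  · rw [socB_monomial]
    exact h1.2.2
  · intro r hr
    unfold mR at hr
    induction hr using Submodule.span_induction with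
    | mem x hx =>
      rcases hx with ⟨i, rfl⟩ | ⟨v, rfl⟩
      · have e : (X i : RR k N) * monomial d' u = monomial (Finsupp.single i 1 + d') u := by
          rw [X, monomial_mul, one_mul]
        rw [e, socB_monomial]
        apply hmax
        refine lt_of_le_of_ne le_add_self ?_
        intro h2
        have h3 := DFunLike.congr_fun h2 i
        simp at h3
      · simp only
        rw [C_mul_monomial, socB_monomial]
        exact a.monotone h1.2.1 (h v)
    | zero =>
      rw [zero_mul]
      exact (cw a).zero_mem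
    | add x y _ _ h2 h3 =>
      rw [add_mul]
      exact (cw a).add_mem h2 h3
    | smul x y _ h2 =>
      rw [smul_eq_mul, mul_assoc]
      exact (cw a).mul_mem_left x h2

end SOCB

end Pool.Agent.Helper91.SymD
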