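import Mathlib
import Pool.Agent.Helper91.SymD.Defs
import Pool.Agent.Helper91.SymD.Cw
import Pool.Agent.Helper91.SymD.CombA
import Pool.Agent.Helper91.SymD.CombB
import Pool.Agent.Helper91.SymD.Ddm
import Pool.Agent.Helper91.SymD.Creg
import Pool.Agent.Helper91.SymD.SocA
import Pool.Agent.Helper91.SymD.SocB

/-! MP_75fc3b_ag, module COMPC.  Proof: /team-store/symd_blueprint.md -/

set_option autoImplicit false

universe u

open MvPolynomial CategoryTheory Abelian

namespace Pool.Agent.Helper91.SymD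

section COMPC

variable (k : Type u) [Field k] {N t0 D : ℕ} {ψ : ℕ → ℕ}

theorem compc_sup (hN : 1 ≤ N) (t : ℕ) : Q1 k N ^ t ⊔ DD k N t0 D ψ t =
    cw (OrderHom.const _ (bb k N ^ t) ⊔ aF k N t0 D ψ t) := by
  rw [Q1, ← Ideal.map_pow, map_C_eq_cw, DD_eq k hN, cw_sup]

theorem compc_mem0 : (0, 0, (N + 1) * (2 * KK t0 D + 1)) ∈ Γ3 N t0 D ψ := by
  simp [Γ3]

/-- the exponent estimate in the form needed by `regMod_z` -/
theorem compc_est (H : Good N t0 D ψ) {t : ℕ} (ht : 1 ≤ t) (a b : ℕ)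
    (h : 1 ≤ eJ t0 D t a b + eJ' t0 D t a b) :
    (N + 1) * t ≤ ee (Γ3 N t0 D ψ) t a b + ψ t := by
  obtain ⟨a', b', hr, ha, hb⟩ := ee_mem (compc_mem0 (N := N) (t0 := t0) (D := D) (ψ := ψ)) t a b
  rcases comb1 H ht hr with h1 | ⟨h1, h2⟩
  · exact h1
  · exfalso
    have e1 : a' / (eps t0 D + 3) ≤ a / (eps t0 D + 3) := Nat.div_le_div_right ha
    have e2 : b' / KK t0 D ≤ b / KK t0 D := Nat.div_le_div_right hb
    have e3 : a' / KK t0 D ≤ a / KK t0 D := Nat.div_le_div_right ha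
    have e4 : b' / (KK t0 D - 1) ≤ b / (KK t0 D - 1) := Nat.div_le_div_right hb
    have e5 : eJ t0 D t a b = 0 := by
      unfold eJ
      omega
    have e6 : eJ' t0 D t a b = 0 := by
      unfold eJ'
      omega
    omega

theorem compc_zs_mem (s : ℕ) : ∀ r ∈ zs k N s, ∃ i : Fin N, (i : ℕ) < N - s ∧ r = zz i := by
  intro r hr
  simp only [zs, List.mem_map, List.mem_filter, List.mem_finRange, true_and,
    decide_eq_true_eq] at hr
  obtain ⟨i, hi, rfl⟩ := hr
  exact ⟨i, hi, rfl⟩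

theorem compc_mem_zs {s : ℕ} (i : Fin N) (hi : (i : ℕ) < N - s) : (zz i : AA k N) ∈ zs k N s := by
  simp only [zs, List.mem_map, List.mem_filter, List.mem_finRange, true_and,
    decide_eq_true_eq]
  exact ⟨i, hi, rfl⟩

theorem compc_rs_mem (s : ℕ) : ∀ r ∈ (zs k N s).map (C : AA k N →+* RR k N), r ∈ mR k N := by
  intro r hr
  obtain ⟨z, hz, rfl⟩ := List.mem_map.1 hr
  obtain ⟨i, _, rfl⟩ := compc_zs_mem k s z hz
  exact Ideal.subset_span (Or.inr ⟨Sum.inr i, rfl⟩)

theorem compc_reg (H : Good N t0 D ψ) {t : ℕ} (ht : 1 ≤ t) :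
    RegMod (cw (OrderHom.const _ (bb k N ^ t) ⊔ aF k N t0 D ψ t))
      ((zs k N (ψ t)).map (C : AA k N →+* RR k N)) := by
  refine regMod_cw _ _ fun d => ?_
  exact regMod_z k (H.le t) (compc_est H ht (d 0) (d 1))

theorem compc_X (i : Fin 2) : (X i : RR k N) ∈ mR k N := Ideal.subset_span (Or.inl ⟨i, rfl⟩)

theorem compc_C (v : Fin 2 ⊕ Fin N) : (C (X v) : RR k N) ∈ mR k N :=
  Ideal.subset_span (Or.inr ⟨v, rfl⟩)

theorem compc_gen {a b c : ℕ} (h : 1 ≤ a ∨ 1 ≤ b ∨ 1 ≤ c) :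
    (X 0 ^ a * X 1 ^ b * C (pp ^ c) : RR k N) ∈ mR k N := by
  rcases h with h | h | h
  · exact Ideal.mul_mem_right _ _ (Ideal.mul_mem_right _ _ (Ideal.pow_mem_of_mem _ (compc_X k 0) _ h))
  · exact Ideal.mul_mem_right _ _ (Ideal.mul_mem_left _ _ (Ideal.pow_mem_of_mem _ (compc_X k 1) _ h))
  · refine Ideal.mul_mem_left _ _ ?_
    rw [map_pow]
    exact Ideal.pow_mem_of_mem _ (compc_C k (Sum.inl 0)) _ h

theorem compc_Q3 : Q3 k N t0 D ψ ≤ mR k N := by
  rw [Q3, idl, Ideal.span_le]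
  rintro _ ⟨⟨a, b, c⟩, hg, rfl⟩
  refine compc_gen k ?_
  change 1 ≤ a ∨ 1 ≤ b ∨ 1 ≤ c
  have hK : KK t0 D = 2 * eps t0 D + 2 := rfl
  have he : eps t0 D = 2 * (t0 + D) + 5 := rfl
  simp only [Γ3, Finset.coe_union, Finset.coe_insert, Finset.coe_singleton, Finset.coe_image,
    Set.mem_union, Set.mem_insert_iff, Set.mem_singleton_iff, Prod.mk.injEq, Set.mem_image] at hg
  rcases hg with ((⟨h1, h2, h3⟩ | ⟨h1, h2, h3⟩ | ⟨h1, h2, h3⟩ | ⟨h1, h2, h3⟩) |
    ⟨s, _, h1, h2, h3⟩) | ⟨s, _, h1, h2, h3⟩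
  · omega
  · omega
  · omega
  · right; right
    rw [h3]
    exact Nat.mul_pos (by omega) (by omega)
  · omega
  · omega

theorem compc_le {t : ℕ} (ht : 1 ≤ t) :
    Q1 k N ^ t ⊔ DD k N t0 D ψ t ≤ mR k N := by
  refine sup_le ((Ideal.pow_le_self (by omega)).trans ?_)
    (inf_le_left.trans ((Ideal.pow_le_self (by omega)).trans (compc_Q3 k)))
  rw [Q1, bb, Ideal.map_span, Ideal.span_le]
  rintro _ ⟨a, (rfl | rfl), rfl⟩
  · simp only [map_pow]
    exact Ideal.pow_mem_of_mem _ (compc_C k (Sum.inl 0)) _ (by omega)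
  · simp only [map_pow]
    exact Ideal.pow_mem_of_mem _ (compc_C k (Sum.inl 1)) _ (by omega)

theorem V_sup_iff (hN : 1 ≤ N) (H : Good N t0 D ψ) {t : ℕ} (ht : 1 ≤ t) :
    V (mR k N) (Q1 k N ^ t ⊔ DD k N t0 D ψ t) (N - ψ t) ∧
    ¬ V (mR k N) (Q1 k N ^ t ⊔ DD k N t0 D ψ t) (N - ψ t + 1) := by
  have hle := compc_le k (N := N) (t0 := t0) (D := D) (ψ := ψ) ht
  have hlen : ((zs k N (ψ t)).map (C : AA k N →+* RR k N)).length = N - ψ t := by
    rw [List.length_map, zs_length k (H.le t)]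
  have hreg := compc_reg k H ht
  constructor
  · have := V_of_regMod (mR_ne_top k N) hle _ (compc_rs_mem k (ψ t)) (by
      rw [compc_sup k hN]
      exact hreg)
    rwa [hlen] at this
  · intro hV
    rw [compc_sup k hN] at hV
    have h1 := V.quot_list (n := 1) _ hreg (by rw [hlen, add_comm]; exact hV)
    rw [cw_sup_ofList] at h1
    set a := OrderHom.const _ (bb k N ^ t) ⊔ aF k N t0 D ψ t ⊔
      OrderHom.const _ (Ideal.ofList (zs k N (ψ t))) with ha
    have had : ∀ d, a d = bb k N ^ t ⊔ Ideal.span {FF k N t0 D ψ t (d 0) (d 1)} ⊔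
      Ideal.ofList (zs k N (ψ t)) := fun d => rfl
    -- finiteness
    have hfin : ∃ T : Finset (Fin 2 →₀ ℕ), ∀ d, d ∉ T → a d = ⊤ := by
      refine ⟨Finset.Iic (Finsupp.single 0 ((2 * KK t0 D + 1) * t) +
        Finsupp.single 1 ((KK t0 D + 1) * t)), fun d hd => ?_⟩
      have h2 : FF k N t0 D ψ t (d 0) (d 1) = 1 := by
        by_cases h3 : (2 * KK t0 D + 1) * t ≤ d 0
        · exact FF_eq_one_left k h3
        · by_cases h4 : (KK t0 D + 1) * t ≤ d 1
          · exact FF_eq_one_right k h4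
          · exfalso
            apply hd
            rw [Finset.mem_Iic]
            intro i
            fin_cases i
            · simp
              omega
            · simp
              omega
      rw [had, h2, Ideal.span_singleton_one, sup_top_eq, top_sup_eq]
    obtain ⟨T, hT⟩ := hfin
    have hp : ∀ d, pp * (pp ^ ((N + 1) * t - 1) * qq ^ N) ∈ a d := fun d => by
      rw [had]
      exact Submodule.mem_sup_left (Submodule.mem_sup_left (soc_p k ht))
    have hq : ∀ d, qq * (pp ^ ((N + 1) * t - 1) * qq ^ N) ∈ a d := fun d => by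
      rw [had]
      exact Submodule.mem_sup_left (Submodule.mem_sup_left (soc_q k ht))
    rcases Nat.eq_zero_or_pos (ψ t) with h0 | h0
    · refine soc_cw k a T hT 0 (pp ^ ((N + 1) * t - 1) * qq ^ N) ?_ ?_ h1
      · rw [had]
        have he : 1 ≤ eJ t0 D t 0 0 + eJ' t0 D t 0 0 := by
          simp [eJ, eJ']
          omega
        exact soc_notMem k ht (H.le t) he (compc_est H ht 0 0 he)
      · rintro (v | v)
        · fin_cases v
          · exact hp 0
          · exact hq 0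
        · rw [had]
          exact Submodule.mem_sup_right (Ideal.mul_mem_right _ _
            (Ideal.subset_span (compc_mem_zs k v (by rw [h0]; simp))))
    · obtain ⟨x, y, hxy, hr⟩ := comb2 H ht h0
      let d : Fin 2 →₀ ℕ := Finsupp.single 0 x + Finsupp.single 1 y
      have hd0 : d 0 = x := by simp [d]
      have hd1 : d 1 = y := by simp [d]
      have he1 := compc_est H ht x y (by omega)
      have he2 : ee (Γ3 N t0 D ψ) t x y ≤ (N + 1) * t - ψ t := ee_le hr le_rfl le_rfl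
      have hψ : ψ t ≤ (N + 1) * t := (H.le t).trans (by nlinarith)
      refine soc_cw k a T hT d (pp ^ ((N + 1) * t - 1) * qq ^ N) ?_ ?_ h1
      · rw [had, hd0, hd1]
        exact soc_notMem k ht (H.le t) (by omega) he1
      · rintro (v | v)
        · fin_cases v
          · exact hp d
          · exact hq d
        · rw [had, hd0, hd1]
          exact soc_z k ht h0 (H.le t) hxy (by omega) v

end COMPC

end Pool.Agent.Helper91.SymD
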