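import Mathlib
import Pool.Agent.Helper91.SymD.Defs
import Pool.Agent.Helper91.SymD.Pow

/-! MP_75fc3b_ag, module PRIM.  Proof: /team-store/symd_blueprint.md -/

set_option autoImplicit false

universe u

open MvPolynomial CategoryTheory Abelian

namespace Pool.Agent.Helper91.SymD

section PRIM

variable {A : Type u} [CommRing A]

theorem pr_isPrime {f : A} (hf : (Ideal.span {f}).IsPrime) : (pr f).IsPrime := by
  have := hf
  exact Ideal.comap_isPrime _ _

private theorem prim_mem_pr {f : A} {g : MvPolynomial (Fin 2) A} :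
    g ∈ pr f ↔ f ∣ coeff 0 g := by
  rw [pr, Ideal.mem_comap, Ideal.mem_span_singleton, constantCoeff_eq]

theorem idl_le_pr (f : A) {Γ : Finset (ℕ × ℕ × ℕ)} (h : (0, 0, 0) ∉ Γ) : idl f Γ ≤ pr f := by
  rw [idl, Ideal.span_le]
  rintro _ ⟨⟨a, b, c⟩, hg, rfl⟩
  change X 0 ^ a * X 1 ^ b * C (f ^ c) ∈ pr f
  rw [pr, Ideal.mem_comap, Ideal.mem_span_singleton]
  simp only [map_mul, map_pow, constantCoeff_X, constantCoeff_C]
  rcases Nat.eq_zero_or_pos a with rfl | ha
  · rcases Nat.eq_zero_or_pos b with rfl | hb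
    · rcases Nat.eq_zero_or_pos c with rfl | hc
      · exact absurd hg h
      · exact Dvd.dvd.mul_left (dvd_pow_self f hc.ne') _
    · rw [zero_pow hb.ne']
      simp
  · rw [zero_pow ha.ne']
    simp

theorem pr_le_radical (f : A) {Γ : Finset (ℕ × ℕ × ℕ)} {a b c : ℕ} (h1 : (a, 0, 0) ∈ Γ)
    (h2 : (0, b, 0) ∈ Γ) (h3 : (0, 0, c) ∈ Γ) : pr f ≤ (idl f Γ).radical := by
  have hX : ∀ i : Fin 2, (X i : MvPolynomial (Fin 2) A) ∈ (idl f Γ).radical := by
    intro i
    fin_cases i
    · refine ⟨a, ?_⟩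
      have : (X 0 ^ a : MvPolynomial (Fin 2) A) = X 0 ^ a * X 1 ^ 0 * C (f ^ 0) := by simp
      change X 0 ^ a ∈ idl f Γ
      rw [this]
      exact Ideal.subset_span ⟨(a, 0, 0), h1, rfl⟩
    · refine ⟨b, ?_⟩
      have : (X 1 ^ b : MvPolynomial (Fin 2) A) = X 0 ^ 0 * X 1 ^ b * C (f ^ 0) := by simp
      change X 1 ^ b ∈ idl f Γ
      rw [this]
      exact Ideal.subset_span ⟨(0, b, 0), h2, rfl⟩
  have hC : (C f : MvPolynomial (Fin 2) A) ∈ (idl f Γ).radical := by
    refine ⟨c, ?_⟩
    have : (C f ^ c : MvPolynomial (Fin 2) A) = X 0 ^ 0 * X 1 ^ 0 * C (f ^ c) := by simp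
    rw [this]
    exact Ideal.subset_span ⟨(0, 0, c), h3, rfl⟩
  intro g hg
  rw [prim_mem_pr] at hg
  rw [g.as_sum]
  refine Ideal.sum_mem _ fun d _ => ?_
  by_cases hd : d = 0
  · subst hd
    obtain ⟨u, hu⟩ := hg
    have : monomial 0 (coeff 0 g) = (C f * C u : MvPolynomial (Fin 2) A) := by
      rw [hu, ← map_mul, C_apply]
    rw [this]
    exact Ideal.mul_mem_right _ _ hC
  · obtain ⟨i, hi⟩ := Finsupp.ne_iff.1 hd
    have hle : Finsupp.single i 1 ≤ d := by
      rw [Finsupp.single_le_iff]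
      exact Nat.one_le_iff_ne_zero.2 hi
    have : monomial d (coeff d g) =
        (monomial (d - Finsupp.single i 1) (coeff d g) * X i : MvPolynomial (Fin 2) A) := by
      rw [X, monomial_mul, tsub_add_cancel_of_le hle, mul_one]
    rw [this]
    exact Ideal.mul_mem_left _ _ (hX i)

theorem primary_idl [IsDomain A] {f : A} (hf : f = 0 ∨ Prime f) {Γ : Finset (ℕ × ℕ × ℕ)} {c0 : ℕ}
    (h0 : (0, 0, c0) ∈ Γ) (t : ℕ) (s g : MvPolynomial (Fin 2) A) (h : s * g ∈ idl f Γ ^ t)
    (hs : s ∉ pr f) : g ∈ idl f Γ ^ t := by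
  have key : ∀ (e : ℕ) (c x : A), ¬ f ∣ c → f ^ e ∣ c * x → f ^ e ∣ x := by
    intro e c x hc hx
    rcases hf with rfl | hf
    · rcases Nat.eq_zero_or_pos e with rfl | he
      · simp
      · rw [zero_pow he.ne', zero_dvd_iff] at hx ⊢
        rcases mul_eq_zero.1 hx with h1 | h1
        · exact absurd (by rw [h1]) hc
        · exact h1
    · exact hf.pow_dvd_of_dvd_mul_left e hc hx
  rw [prim_mem_pr] at hs
  rw [mem_idl_pow f Γ h0] at h ⊢
  have main : ∀ n : ℕ, ∀ d : Fin 2 →₀ ℕ, d 0 + d 1 = n → f ^ ee Γ t (d 0) (d 1) ∣ coeff d g := by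
    intro n
    induction n using Nat.strong_induction_on with
    | _ n ih =>
      intro d hd
      apply key _ (coeff 0 s) _ hs
      have hsum := h d
      rw [coeff_mul, ← Finset.add_sum_erase (a := ((0 : Fin 2 →₀ ℕ), d)) _ _ (by simp)] at hsum
      refine (dvd_add_left (Finset.dvd_sum fun p hp => ?_)).1 hsum
      rw [Finset.mem_erase, Finset.HasAntidiagonal.mem_antidiagonal] at hp
      obtain ⟨hne, hpd⟩ := hp
      have hle : p.2 ≤ d := hpd ▸ le_add_self
      have hne2 : p.2 ≠ d := by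
        rintro h2
        apply hne
        have : p.1 = 0 := by
          have h3 := hpd
          rw [h2] at h3
          exact add_eq_right.1 h3
        exact Prod.ext this h2
      have hlt : p.2 0 + p.2 1 < n := by
        have h00 := hle 0
        have h11 := hle 1
        rcases Nat.lt_or_ge (p.2 0 + p.2 1) n with h5 | h5
        · exact h5
        · exfalso
          apply hne2
          ext i
          fin_cases i
          · change p.2 0 = d 0
            omega
          · change p.2 1 = d 1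
            omega
      exact Dvd.dvd.mul_left ((pow_dvd_pow f (ee_anti h0 t (hle 0) (hle 1))).trans
        (ih _ hlt p.2 rfl)) _
  intro d
  exact main _ d rfl

end PRIM

end Pool.Agent.Helper91.SymD
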