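import Mathlib
import Pool.Agent.Helper91.SymD.Defs
import Pool.Agent.Helper91.SymD.Prim

/-! MP_75fc3b_ag, module SWAP.  Proof: /team-store/symd_blueprint.md -/

set_option autoImplicit false

universe u

open MvPolynomial CategoryTheory Abelian

namespace Pool.Agent.Helper91.SymD

section SWAP

variable (k : Type u) [Field k] (N : ℕ)

private noncomputable def swap0 : AA k N →+* RR k N :=
  eval₂Hom ((C : AA k N →+* RR k N).comp (C : k →+* AA k N))
    (Sum.elim (fun i => X i) (fun j => C (zz j)))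

private noncomputable def swap : RR k N →+* RR k N :=
  eval₂Hom (swap0 k N) (fun i => C (X (Sum.inl i)))

private theorem swap_bbp : (pp ^ (N + 1) : AA k N) ∈ bb k N :=
  Ideal.subset_span (Set.mem_insert _ _)

private theorem swap_bbq : (qq ^ (N + 1) : AA k N) ∈ bb k N :=
  Ideal.subset_span (Set.mem_insert_of_mem _ (Set.mem_singleton _))

private theorem swap_pp : (pp : AA k N) ∈ pq k N :=
  Ideal.subset_span (Set.mem_insert _ _)

private theorem swap_qq : (qq : AA k N) ∈ pq k N :=
  Ideal.subset_span (Set.mem_insert_of_mem _ (Set.mem_singleton _))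

private theorem swap_X (i : Fin 2) : swap k N (X i) = C (X (Sum.inl i)) := by
  simp [swap]

private theorem swap_CX (i : Fin 2) : swap k N (C (X (Sum.inl i))) = X i := by
  simp [swap, swap0]

private theorem swap_Cz (j : Fin N) : swap k N (C (X (Sum.inr j))) = C (X (Sum.inr j)) := by
  simp [swap, swap0, zz]

private theorem swap_CC (a : k) : swap k N (C (C a)) = C (C a) := by
  simp [swap, swap0]

private theorem swap_swap (g : RR k N) : swap k N (swap k N g) = g := by
  have h : (swap k N).comp (swap k N) = RingHom.id _ := by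
    apply MvPolynomial.ringHom_ext
    · intro a
      have h2 : ((swap k N).comp (swap k N)).comp (C : AA k N →+* RR k N) = C := by
        apply MvPolynomial.ringHom_ext
        · intro b
          simp only [RingHom.comp_apply, swap_CC]
        · rintro (i | j)
          · simp only [RingHom.comp_apply, swap_CX, swap_X]
          · simp only [RingHom.comp_apply, swap_Cz]
      exact RingHom.congr_fun h2 a
    · intro i
      simp only [RingHom.comp_apply, swap_CX, swap_X, RingHom.id_apply]
  exact RingHom.congr_fun h g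

private theorem swap_P_le :
    (pq k N).map (C : AA k N →+* RR k N) ≤ (pr (0 : AA k N)).comap (swap k N) := by
  rw [Ideal.map_le_iff_le_comap, pq, Ideal.span_le, Set.insert_subset_iff,
    Set.singleton_subset_iff]
  constructor
  · rw [SetLike.mem_coe, Ideal.mem_comap, Ideal.mem_comap, pp, swap_CX, pr, Ideal.mem_comap]
    simp
  · rw [SetLike.mem_coe, Ideal.mem_comap, Ideal.mem_comap, qq, swap_CX, pr, Ideal.mem_comap]
    simp

private theorem swap_pr_le :
    pr (0 : AA k N) ≤ ((pq k N).map (C : AA k N →+* RR k N)).comap (swap k N) := by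
  intro g hg
  rw [pr, Ideal.mem_comap, Ideal.mem_span_singleton, constantCoeff_eq, zero_dvd_iff] at hg
  rw [g.as_sum]
  refine Ideal.sum_mem _ fun d _ => ?_
  by_cases hd : d = 0
  · subst hd
    rw [hg, map_zero]
    exact Ideal.zero_mem _
  · obtain ⟨i, hi⟩ := Finsupp.ne_iff.1 hd
    have hle : Finsupp.single i 1 ≤ d := by
      rw [Finsupp.single_le_iff]
      exact Nat.one_le_iff_ne_zero.2 hi
    have : monomial d (coeff d g) =
        (monomial (d - Finsupp.single i 1) (coeff d g) * X i : MvPolynomial (Fin 2) (AA k N)) := by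
      rw [X, monomial_mul, tsub_add_cancel_of_le hle, mul_one]
    rw [this]
    refine Ideal.mul_mem_left _ _ ?_
    rw [Ideal.mem_comap, swap_X]
    apply Ideal.mem_map_of_mem
    fin_cases i
    · exact swap_pp k N
    · exact swap_qq k N

private theorem swap_P_eq :
    (pq k N).map (C : AA k N →+* RR k N) = (pr (0 : AA k N)).comap (swap k N) := by
  apply le_antisymm (swap_P_le k N)
  intro g hg
  have := swap_pr_le k N hg
  rwa [Ideal.mem_comap, swap_swap] at this

instance pqC_isPrime : ((pq k N).map (C : AA k N →+* RR k N)).IsPrime := by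
  rw [swap_P_eq]
  have h0 : (Ideal.span {(0 : AA k N)}).IsPrime := by
    rw [Ideal.span_singleton_eq_bot.2 rfl]
    exact Ideal.isPrime_bot
  have := pr_isPrime h0
  exact Ideal.comap_isPrime _ _

instance pq_isPrime : (pq k N).IsPrime := by
  have h : pq k N = ((pq k N).map (C : AA k N →+* RR k N)).comap C := by
    apply le_antisymm Ideal.le_comap_map
    intro a ha
    rw [Ideal.mem_comap, MvPolynomial.mem_map_C_iff] at ha
    simpa using ha 0
  rw [h]
  exact Ideal.comap_isPrime _ _

private theorem swap_ppd : (pp : AA k N) = X (Sum.inl 0) := rfl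

private theorem swap_qqd : (qq : AA k N) = X (Sum.inl 1) := rfl

theorem Q1_le : Q1 k N ≤ (pq k N).map C := by
  apply Ideal.map_mono
  rw [bb, Ideal.span_le, Set.insert_subset_iff, Set.singleton_subset_iff]
  exact ⟨Ideal.pow_mem_of_mem _ (swap_pp k N) _ (Nat.succ_pos _),
    Ideal.pow_mem_of_mem _ (swap_qq k N) _ (Nat.succ_pos _)⟩

theorem le_radical_Q1 : (pq k N).map C ≤ (Q1 k N).radical := by
  rw [Ideal.map_le_iff_le_comap, pq, Ideal.span_le, Set.insert_subset_iff,
    Set.singleton_subset_iff]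
  refine ⟨⟨N + 1, ?_⟩, ⟨N + 1, ?_⟩⟩
  · rw [← map_pow]
    exact Ideal.mem_map_of_mem _ (swap_bbp k N)
  · rw [← map_pow]
    exact Ideal.mem_map_of_mem _ (swap_bbq k N)

private theorem swap_idl_mem (f : AA k N) (Γ : Finset (ℕ × ℕ × ℕ)) (a b c : ℕ)
    (h : (a, b, c) ∈ Γ) : (X 0 ^ a * X 1 ^ b * C (f ^ c) : RR k N) ∈ idl f Γ :=
  Ideal.subset_span ⟨(a, b, c), h, rfl⟩

private theorem swap_Q1_le :
    Q1 k N ≤ (idl (0 : AA k N) (ΓG (N + 1) (N + 1))).comap (swap k N) := by
  rw [Q1, Ideal.map_le_iff_le_comap, bb, Ideal.span_le, Set.insert_subset_iff,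
    Set.singleton_subset_iff]
  constructor
  · rw [SetLike.mem_coe, Ideal.mem_comap, Ideal.mem_comap, swap_ppd, map_pow, map_pow, swap_CX]
    have h := swap_idl_mem k N 0 (ΓG (N + 1) (N + 1)) (N + 1) 0 0 (by simp [ΓG])
    rwa [pow_zero, pow_zero, map_one, mul_one, mul_one] at h
  · rw [SetLike.mem_coe, Ideal.mem_comap, Ideal.mem_comap, swap_qqd, map_pow, map_pow, swap_CX]
    have h := swap_idl_mem k N 0 (ΓG (N + 1) (N + 1)) 0 (N + 1) 0 (by simp [ΓG])
    rwa [pow_zero, pow_zero, map_one, mul_one, one_mul] at h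

private theorem swap_idl_le :
    idl (0 : AA k N) (ΓG (N + 1) (N + 1)) ≤ (Q1 k N).comap (swap k N) := by
  have e0 : (X 0 ^ (N + 1) : RR k N) ∈ (Q1 k N).comap (swap k N) := by
    rw [Ideal.mem_comap, map_pow, swap_X, ← map_pow, ← swap_ppd]
    exact Ideal.mem_map_of_mem _ (swap_bbp k N)
  have e1 : (X 1 ^ (N + 1) : RR k N) ∈ (Q1 k N).comap (swap k N) := by
    rw [Ideal.mem_comap, map_pow, swap_X, ← map_pow, ← swap_qqd]
    exact Ideal.mem_map_of_mem _ (swap_bbq k N)
  have e2 : (C ((0 : AA k N) ^ 1) : RR k N) ∈ (Q1 k N).comap (swap k N) := by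
    rw [pow_one, map_zero]
    exact Ideal.zero_mem _
  rw [idl, Ideal.span_le]
  rintro _ ⟨⟨a, b, c⟩, hg, rfl⟩
  rw [Finset.mem_coe, ΓG, Finset.mem_insert, Finset.mem_insert, Finset.mem_singleton,
    Prod.mk.injEq, Prod.mk.injEq, Prod.mk.injEq, Prod.mk.injEq, Prod.mk.injEq,
    Prod.mk.injEq] at hg
  rw [SetLike.mem_coe]
  rcases hg with ⟨h1, -, -⟩ | ⟨-, h1, -⟩ | ⟨-, -, h1⟩
  · dsimp only
    rw [h1, mul_assoc]
    exact Ideal.mul_mem_right _ _ e0
  · dsimp only
    rw [h1, mul_comm (X 0 ^ a), mul_assoc]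
    exact Ideal.mul_mem_right _ _ e1
  · dsimp only
    rw [h1]
    exact Ideal.mul_mem_left _ _ e2

theorem primary_Q1 (t : ℕ) (s g : RR k N) (h : s * g ∈ Q1 k N ^ t)
    (hs : s ∉ (pq k N).map C) : g ∈ Q1 k N ^ t := by
  have h1 : swap k N s * swap k N g ∈ idl (0 : AA k N) (ΓG (N + 1) (N + 1)) ^ t := by
    rw [← map_mul]
    exact Ideal.mem_comap.1 (Ideal.le_comap_pow _ _ (Ideal.pow_right_mono (swap_Q1_le k N) t h))
  have h2 : swap k N s ∉ pr (0 : AA k N) := by
    intro h3
    apply hs
    rw [swap_P_eq]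
    exact h3
  have h3 := primary_idl (Or.inl rfl) (c0 := 1) (by simp [ΓG]) t _ _ h1 h2
  have h4 : swap k N (swap k N g) ∈ Q1 k N ^ t :=
    Ideal.mem_comap.1 (Ideal.le_comap_pow _ _ (Ideal.pow_right_mono (swap_idl_le k N) t h3))
  rwa [swap_swap] at h4

end SWAP

end Pool.Agent.Helper91.SymD
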