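import Mathlib
import Pool.Agent.Helper91.SymD.Defs

/-! MP_75fc3b_ag, module SYMB.  Proof: /team-store/symd_blueprint.md -/

set_option autoImplicit false

universe u

open MvPolynomial CategoryTheory Abelian

namespace Pool.Agent.Helper91.SymD

section SYMB

variable {R : Type u} [CommRing R]

theorem mem_symbPow (Q : Ideal R) (t : ℕ) (f : R) :
    f ∈ symbPow Q t ↔ ∀ P ∈ Q.minimalPrimes, ∃ s, s ∉ P ∧ s * f ∈ Q ^ t := by
  unfold symbPow
  rw [Submodule.mem_iInf]
  constructor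
  · intro h P hP
    have h1 := h ⟨P, hP⟩
    haveI : P.IsPrime := hP.1.1
    rw [Ideal.mem_comap, IsLocalization.mem_map_algebraMap_iff P.primeCompl] at h1
    obtain ⟨⟨a, s⟩, h2⟩ := h1
    rw [← map_mul, IsLocalization.eq_iff_exists P.primeCompl] at h2
    obtain ⟨c, hc⟩ := h2
    refine ⟨(c : R) * (s : R), ?_, ?_⟩
    · exact (c * s).2
    · have h3 : (c : R) * (s : R) * f = (c : R) * (a : R) := by
        rw [← hc]; ring
      rw [h3]
      exact Ideal.mul_mem_left _ _ a.2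
  · intro h P
    haveI : P.1.IsPrime := P.2.1.1
    obtain ⟨s, hs, hsf⟩ := h P.1 P.2
    rw [Ideal.mem_comap, IsLocalization.mem_map_algebraMap_iff P.1.primeCompl]
    refine ⟨⟨⟨s * f, hsf⟩, ⟨s, hs⟩⟩, ?_⟩
    simp only [map_mul]
    ring

variable {ι : Type} [Finite ι] (P q : ι → Ideal R)

theorem minimalPrimes_iInf (hP : ∀ i, (P i).IsPrime) (hinc : ∀ i j, P i ≤ P j → i = j)
    (hqP : ∀ i, q i ≤ P i) (hPq : ∀ i, P i ≤ (q i).radical) :
    (⨅ i, q i).minimalPrimes = Set.range P := by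
  haveI : Fintype ι := Fintype.ofFinite ι
  have key : ∀ J : Ideal R, J.IsPrime → (⨅ i, q i) ≤ J → ∃ i, P i ≤ J := by
    intro J hJ h
    have h1 : (Finset.univ.inf q) ≤ J := by
      rw [Finset.inf_univ_eq_iInf]; exact h
    obtain ⟨i, _, hi⟩ := (hJ.inf_le' (s := Finset.univ) (f := q)).1 h1
    exact ⟨i, (hPq i).trans (hJ.radical_le_iff.2 hi)⟩
  ext J
  constructor
  · rintro ⟨⟨h1, h2⟩, h3⟩
    obtain ⟨i, hi⟩ := key J h1 h2
    refine ⟨i, le_antisymm hi ?_⟩
    exact h3 ⟨hP i, (iInf_le q i).trans (hqP i)⟩ hi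
  · rintro ⟨i, rfl⟩
    refine ⟨⟨hP i, (iInf_le q i).trans (hqP i)⟩, ?_⟩
    rintro J ⟨hJ1, hJ2⟩ hJ3
    obtain ⟨j, hj⟩ := key J hJ1 hJ2
    have h4 : j = i := hinc j i (hj.trans hJ3)
    subst h4
    exact hj

theorem symbPow_eq (hP : ∀ i, (P i).IsPrime) (hinc : ∀ i j, P i ≤ P j → i = j)
    (hqP : ∀ i, q i ≤ P i) (hPq : ∀ i, P i ≤ (q i).radical) (t : ℕ)
    (hprim : ∀ i s f, s * f ∈ q i ^ t → s ∉ P i → f ∈ q i ^ t) :
    symbPow (⨅ i, q i) t = ⨅ i, q i ^ t := by
  classical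
  haveI : Fintype ι := Fintype.ofFinite ι
  ext f
  rw [mem_symbPow, minimalPrimes_iInf P q hP hinc hqP hPq, Submodule.mem_iInf]
  constructor
  · intro h i
    obtain ⟨s, hs, hsf⟩ := h (P i) ⟨i, rfl⟩
    exact hprim i s f (Ideal.pow_right_mono (iInf_le q i) t hsf) hs
  · rintro h _ ⟨i, rfl⟩
    have h1 : ∀ j, j ≠ i → ∃ s, s ∈ q j ∧ s ∉ P i := by
      intro j hj
      by_contra hcon
      push Not at hcon
      exact hj (hinc j i ((hPq j).trans ((hP i).radical_le_iff.2 hcon)))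
    choose! s hs1 hs2 using h1
    set S : R := ∏ j ∈ Finset.univ.erase i, s j with hS
    have hSP : S ∉ P i := by
      intro hmem
      haveI := hP i
      rw [hS, Ideal.IsPrime.prod_mem_iff] at hmem
      obtain ⟨j, hj, hj2⟩ := hmem
      exact hs2 j (Finset.ne_of_mem_erase hj) hj2
    have hSq : ∀ j, j ≠ i → S ∈ q j := by
      intro j hj
      have hj' : j ∈ Finset.univ.erase i := Finset.mem_erase.2 ⟨hj, Finset.mem_univ j⟩
      rw [hS, ← Finset.mul_prod_erase _ _ hj']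
      exact Ideal.mul_mem_right _ _ (hs1 j hj)
    have hle : Ideal.span {S} * q i ≤ ⨅ j, q j := by
      refine le_iInf fun j => ?_
      by_cases hj : j = i
      · subst hj
        exact Ideal.mul_le_right
      · refine Ideal.mul_le_left.trans ?_
        rw [Ideal.span_singleton_le_iff_mem]
        exact hSq j hj
    refine ⟨S ^ t, ?_, ?_⟩
    · intro hmem
      exact hSP ((hP i).mem_of_pow_mem t hmem)
    · have h2 : S ^ t * f ∈ Ideal.span {S} ^ t * q i ^ t :=
        Ideal.mul_mem_mul (Ideal.pow_mem_pow (Ideal.mem_span_singleton_self S) t) (h i)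
      rw [← mul_pow] at h2
      exact Ideal.pow_right_mono hle t h2

end SYMB

end Pool.Agent.Helper91.SymD
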