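import Mathlib
import Pool.Agent.Helper91.SymD.Defs
import Pool.Agent.Helper91.SymD.Symb
import Pool.Agent.Helper91.SymD.Prim
import Pool.Agent.Helper91.SymD.Swap
import Pool.Agent.Helper91.SymD.Hprime

/-! MP_75fc3b_ag, module SYMQ.  Proof: /team-store/symd_blueprint.md -/

set_option autoImplicit false

universe u

open MvPolynomial CategoryTheory Abelian

namespace Pool.Agent.Helper91.SymD

section SYMQ

variable (k : Type u) [Field k] {N t0 D : ℕ} {ψ : ℕ → ℕ}

variable (N) in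
/-- the four primes -/
noncomputable def symqP : Fin 4 → Ideal (RR k N) :=
  ![(pq k N).map C, pr pp, pr (hh k N), pr (hh' k N)]

variable (N t0 D ψ) in
/-- the four primary components -/
noncomputable def symqQ : Fin 4 → Ideal (RR k N) :=
  ![Q1 k N, Q3 k N t0 D ψ, Q2 k N t0 D, Q2' k N t0 D]

theorem symq_iInf {R : Type u} [CommRing R] (a b c d : Ideal R) :
    (⨅ i, (![a, b, c, d] : Fin 4 → Ideal R) i) = a ⊓ (b ⊓ (c ⊓ d)) := by
  ext x
  simp [Submodule.mem_iInf, Fin.forall_fin_succ]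

theorem symq_iInf_pow {R : Type u} [CommRing R] (a b c d : Ideal R) (t : ℕ) :
    (⨅ i, (![a, b, c, d] : Fin 4 → Ideal R) i ^ t) = a ^ t ⊓ (b ^ t ⊓ (c ^ t ⊓ d ^ t)) := by
  ext x
  simp [Submodule.mem_iInf, Fin.forall_fin_succ]

theorem symq_QQ : (⨅ i, symqQ k N t0 D ψ i) = QQ k N t0 D ψ := symq_iInf _ _ _ _

theorem symq_prime (hN : 1 ≤ N) (i : Fin 4) : (symqP k N i).IsPrime := by
  fin_cases i
  · exact pqC_isPrime k N
  · exact pr_isPrime ((Ideal.span_singleton_prime (prime_pp k).ne_zero).2 (prime_pp k))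
  · exact pr_isPrime ((Ideal.span_singleton_prime (prime_hh k hN).ne_zero).2 (prime_hh k hN))
  · exact pr_isPrime ((Ideal.span_singleton_prime (prime_hh' k hN).ne_zero).2 (prime_hh' k hN))

theorem symq_pr_le {A : Type u} [CommRing A] {f g : A} (h : pr f ≤ pr g) : g ∣ f := by
  have h1 : (C f : MvPolynomial (Fin 2) A) ∈ pr f := by
    rw [pr, Ideal.mem_comap, constantCoeff_C]
    exact Ideal.mem_span_singleton_self f
  have h2 := h h1
  rw [pr, Ideal.mem_comap, constantCoeff_C] at h2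
  exact Ideal.mem_span_singleton.1 h2

theorem symq_X_mem {A : Type u} [CommRing A] (f : A) :
    (X 0 : MvPolynomial (Fin 2) A) ∈ pr f := by
  rw [pr, Ideal.mem_comap, constantCoeff_X]
  exact Ideal.zero_mem _

theorem symq_X_notMem : (X 0 : RR k N) ∉ (pq k N).map C := by
  intro h
  rw [mem_map_C_iff] at h
  have h1 := h (Finsupp.single 0 1)
  rw [coeff_X, if_pos rfl] at h1
  have : pq k N ≤ RingHom.ker (constantCoeff (R := k) (σ := Fin 2 ⊕ Fin N)) := by
    rw [pq, Ideal.span_le]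
    rintro _ (rfl | rfl) <;> simp [pp, qq]
  have h2 := this h1
  rw [RingHom.mem_ker, map_one] at h2
  exact one_ne_zero h2

theorem symq_not_le_pp : ¬ (pq k N).map C ≤ pr (pp : AA k N) := by
  intro h
  have h1 : (C qq : RR k N) ∈ (pq k N).map C :=
    Ideal.mem_map_of_mem _ (Ideal.subset_span (Or.inr rfl))
  have h2 := h h1
  rw [pr, Ideal.mem_comap, constantCoeff_C, Ideal.mem_span_singleton] at h2
  obtain ⟨c, hc⟩ := h2
  have h3 := congrArg (hprimeSp k 0 qq (fun _ => 0)) hc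
  rw [map_mul, hprimeSp_pp, hprimeSp_qq, zero_mul] at h3
  exact (hprime_prime_qq k).ne_zero h3

theorem symq_not_le_of {f : AA k N} (hf : ¬ f ∣ pp) : ¬ (pq k N).map C ≤ pr f := by
  intro h
  have h1 : (C pp : RR k N) ∈ (pq k N).map C :=
    Ideal.mem_map_of_mem _ (Ideal.subset_span (Or.inl rfl))
  have h2 := h h1
  rw [pr, Ideal.mem_comap, constantCoeff_C, Ideal.mem_span_singleton] at h2
  exact hf h2

theorem symq_pr_not_le (f : AA k N) : ¬ pr f ≤ (pq k N).map C :=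
  fun h => symq_X_notMem k (h (symq_X_mem f))

theorem symq_inc (hN : 1 ≤ N) (i j : Fin 4) (h : symqP k N i ≤ symqP k N j) : i = j := by
  fin_cases i <;> fin_cases j <;> first | rfl | (exfalso; revert h)
  · exact symq_not_le_pp k
  · exact symq_not_le_of k (not_dvd_hp k)
  · exact symq_not_le_of k (not_dvd_h'p k hN)
  · exact symq_pr_not_le k _
  · exact fun h => not_dvd_hp k (symq_pr_le h)
  · exact fun h => not_dvd_h'p k hN (symq_pr_le h)
  · exact symq_pr_not_le k _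
  · exact fun h => not_dvd_ph k hN (symq_pr_le h)
  · exact fun h => not_dvd_h'h k hN (symq_pr_le h)
  · exact symq_pr_not_le k _
  · exact fun h => not_dvd_ph' k hN (symq_pr_le h)
  · exact fun h => not_dvd_hh' k (symq_pr_le h)

theorem symq_le (i : Fin 4) : symqQ k N t0 D ψ i ≤ symqP k N i := by
  fin_cases i
  · exact Q1_le k N
  · refine idl_le_pr _ ?_
    simp only [Γ3, Finset.mem_union, Finset.mem_insert, Finset.mem_singleton, Finset.mem_image,
      Finset.mem_filter, Finset.mem_range, Prod.mk.injEq, KK, eps]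
    rintro ((((⟨-, h, -⟩ | ⟨-, h, -⟩ | ⟨h, -, -⟩ | ⟨-, -, h⟩)) | ⟨s, -, h, -, -⟩) | ⟨s, -, h, -, -⟩)
    · omega
    · omega
    · omega
    · rcases Nat.mul_eq_zero.1 h.symm with h | h <;> omega
    · omega
    · omega
  · refine idl_le_pr _ ?_
    simp [ΓG, KK, eps]
  · refine idl_le_pr _ ?_
    simp [ΓG, KK, eps]

theorem symq_mem_Γ3 : ((2 * KK t0 D + 1, 0, 0) ∈ Γ3 N t0 D ψ) ∧
    ((0, KK t0 D + 1, 0) ∈ Γ3 N t0 D ψ) ∧
    ((0, 0, (N + 1) * (2 * KK t0 D + 1)) ∈ Γ3 N t0 D ψ) := by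
  refine ⟨?_, ?_, ?_⟩ <;> simp [Γ3]

theorem symq_rad (i : Fin 4) : symqP k N i ≤ (symqQ k N t0 D ψ i).radical := by
  fin_cases i
  · exact le_radical_Q1 k N
  · exact pr_le_radical _ symq_mem_Γ3.1 symq_mem_Γ3.2.1 symq_mem_Γ3.2.2
  · exact pr_le_radical (a := eps t0 D + 3) (b := KK t0 D) (c := 1) _ (by simp [ΓG])
      (by simp [ΓG]) (by simp [ΓG])
  · exact pr_le_radical (a := KK t0 D) (b := KK t0 D - 1) (c := 1) _ (by simp [ΓG])
      (by simp [ΓG]) (by simp [ΓG])

theorem symq_primary (hN : 1 ≤ N) (t : ℕ) (i : Fin 4) (s f : RR k N)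
    (h : s * f ∈ symqQ k N t0 D ψ i ^ t) (hs : s ∉ symqP k N i) :
    f ∈ symqQ k N t0 D ψ i ^ t := by
  revert h hs
  fin_cases i
  · exact primary_Q1 k N t s f
  · exact primary_idl (Or.inr (prime_pp k)) symq_mem_Γ3.2.2 t s f
  · exact primary_idl (c0 := 1) (Or.inr (prime_hh k hN)) (by simp [ΓG]) t s f
  · exact primary_idl (c0 := 1) (Or.inr (prime_hh' k hN)) (by simp [ΓG]) t s f

theorem symbPow_QQ (hN : 1 ≤ N) (t : ℕ) :
    symbPow (QQ k N t0 D ψ) t = Q1 k N ^ t ⊓ DD k N t0 D ψ t := by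
  rw [← symq_QQ, symbPow_eq (symqP k N) (symqQ k N t0 D ψ) (symq_prime k hN) (symq_inc k hN)
    (symq_le k) (symq_rad k) t (symq_primary k hN t)]
  exact symq_iInf_pow _ _ _ _ t

theorem minimalPrimes_QQ (hN : 1 ≤ N) :
    (QQ k N t0 D ψ).minimalPrimes =
      {(pq k N).map C, pr pp, pr (hh k N), pr (hh' k N)} := by
  rw [← symq_QQ, minimalPrimes_iInf (symqP k N) (symqQ k N t0 D ψ) (symq_prime k hN)
    (symq_inc k hN) (symq_le k) (symq_rad k)]
  ext P
  simp only [symqP, Set.mem_range, Set.mem_insert_iff, Set.mem_singleton_iff,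
    Fin.exists_fin_succ]
  simp [eq_comm]

end SYMQ

end Pool.Agent.Helper91.SymD
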