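import Mathlib
import Pool.Agent.Helper91.SymD.Defs
import Pool.Agent.Helper91.SymD.SymQ

/-! MP_75fc3b_ag, module HEIGHT.  Proof: /team-store/symd_blueprint.md -/

set_option autoImplicit false

universe u

open MvPolynomial CategoryTheory Abelian

namespace Pool.Agent.Helper91.SymD

section HEIGHT

variable (k : Type u) [Field k] {N t0 D : ℕ} {ψ : ℕ → ℕ}

theorem height_two_le {R : Type u} [CommRing R] [IsDomain R] {P : Ideal R} (hP : P.IsPrime)
    {a b : R} (ha : Prime a) (haP : a ∈ P) (hbP : b ∈ P) (hab : ¬ a ∣ b) : 2 ≤ P.height := by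
  haveI : (Ideal.span {a}).IsPrime := (Ideal.span_singleton_prime ha.ne_zero).2 ha
  have h1 : (⊥ : Ideal R) < Ideal.span {a} := by
    rw [bot_lt_iff_ne_bot, Ne, Ideal.span_singleton_eq_bot]
    exact ha.ne_zero
  have h2 : Ideal.span {a} < P := by
    refine lt_of_le_of_ne ((Ideal.span_singleton_le_iff_mem P).2 haP) ?_
    intro h
    rw [← h, Ideal.mem_span_singleton] at hbP
    exact hab hbP
  have h3 := Ideal.height_add_one_le_of_lt_of_isPrime h1
  have h4 := Ideal.height_add_one_le_of_lt_of_isPrime h2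
  calc (2 : ℕ∞) = 0 + 1 + 1 := by norm_num
    _ ≤ (⊥ : Ideal R).height + 1 + 1 := by gcongr; exact zero_le
    _ ≤ (Ideal.span {a}).height + 1 := by gcongr
    _ ≤ P.height := h4

theorem height_pq : ((pq k N).map (C : AA k N →+* RR k N)).height = 2 := by
  have hspan : (pq k N).map (C : AA k N →+* RR k N) = Ideal.span {C pp, C qq} := by
    rw [pq, Ideal.map_span, Set.image_pair]
  have hprime : ((pq k N).map (C : AA k N →+* RR k N)).IsPrime := pqC_isPrime k N
  apply le_antisymm
  · have h1 : (pq k N).map (C : AA k N →+* RR k N) ∈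
        (Ideal.span ({C pp, C qq} : Set (RR k N))).minimalPrimes := by
      rw [← hspan]
      refine ⟨⟨hprime, le_rfl⟩, fun J hJ _ => hJ.2⟩
    refine (Ideal.height_le_card_of_mem_minimalPrimes_span (Set.toFinite _) h1).trans ?_
    have h2 : ({C pp, C qq} : Set (RR k N)).ncard ≤ 2 := by
      refine (Set.ncard_insert_le _ _).trans ?_
      rw [Set.ncard_singleton]
    exact_mod_cast h2
  · refine height_two_le hprime (a := C pp) (b := C qq) ?_ ?_ ?_ ?_
    · exact (prime_C_iff (Fin 2)).2 (prime_pp k)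
    · rw [hspan]; exact Ideal.subset_span (by simp)
    · rw [hspan]; exact Ideal.subset_span (by simp)
    · rw [C_dvd_iff_dvd_coeff]
      intro h
      have := h 0
      rw [coeff_zero_C] at this
      exact absurd (X_dvd_X.1 this) (by simp)

theorem two_le_height_pr (f : AA k N) (hf : (pr f).IsPrime) : 2 ≤ (pr f).height := by
  refine height_two_le hf (a := X 0) (b := X 1) X_prime ?_ ?_ ?_
  · simp [pr]
  · simp [pr]
  · intro h
    exact absurd (X_dvd_X.1 h) (by decide)

theorem height_QQ (hN : 1 ≤ N) : (QQ k N t0 D ψ).height = 2 := by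
  have hmin := minimalPrimes_QQ k (t0 := t0) (D := D) (ψ := ψ) hN
  rw [Ideal.height_eq_inf_minimalPrimes]
  apply le_antisymm
  · have h1 : (pq k N).map (C : AA k N →+* RR k N) ∈ (QQ k N t0 D ψ).minimalPrimes := by
      rw [hmin]; simp
    refine (iInf₂_le _ h1).trans ?_
    rw [height_pq]
  · refine le_iInf₂ fun J hJ => ?_
    have hJp : J.IsPrime := hJ.1.1
    rw [hmin] at hJ
    rcases hJ with rfl | rfl | rfl | rfl
    · rw [height_pq]
    · exact two_le_height_pr k _ hJp
    · exact two_le_height_pr k _ hJp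
    · exact two_le_height_pr k _ hJp

end HEIGHT

end Pool.Agent.Helper91.SymD
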