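import Mathlib
import Pool.Agent.Helper91.SymD.Defs

/-! MP_75fc3b_ag, module HOM.  Proof: /team-store/symd_blueprint.md -/

set_option autoImplicit false

universe u

open MvPolynomial CategoryTheory Abelian

namespace Pool.Agent.Helper91.SymD

section HOM

attribute [local instance] MvPolynomial.gradedAlgebra

variable (k : Type u) [Field k] (N : ℕ)

/-- the bijection of the variables -/
noncomputable def homE : Fin 2 ⊕ (Fin 2 ⊕ Fin N) ≃ Fin (N + 4) :=
  Fintype.equivOfCardEq (by simp; omega)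

theorem hom_eqv_X (i : Fin 2) : eqv k N (X i) = X (homE N (Sum.inl i)) := by
  have h : eqv k N (X i) = renameEquiv k (homE N)
    ((sumAlgEquiv k (Fin 2) (Fin 2 ⊕ Fin N)).symm (X i)) := rfl
  rw [h, sumAlgEquiv_symm_X]
  simp

theorem hom_eqv_CX (v : Fin 2 ⊕ Fin N) :
    eqv k N (C (X v)) = X (homE N (Sum.inr v)) := by
  have h : eqv k N (C (X v)) = renameEquiv k (homE N)
    ((sumAlgEquiv k (Fin 2) (Fin 2 ⊕ Fin N)).symm (C (X v))) := rfl
  rw [h, sumAlgEquiv_symm_C_X]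
  simp

theorem map_mR : (mR k N).map (eqv k N) =
    Ideal.span (Set.range (X : Fin (N + 4) → MvPolynomial (Fin (N + 4)) k)) := by
  rw [mR, Ideal.map_span]
  congr 1
  ext f
  constructor
  · rintro ⟨g, (⟨i, rfl⟩ | ⟨v, rfl⟩), rfl⟩
    · exact ⟨_, (hom_eqv_X k N i).symm⟩
    · exact ⟨_, (hom_eqv_CX k N v).symm⟩
  · rintro ⟨j, rfl⟩
    obtain ⟨w, rfl⟩ := (homE N).surjective j
    rcases w with i | v
    · exact ⟨X i, Or.inl ⟨i, rfl⟩, hom_eqv_X k N i⟩
    · exact ⟨C (X v), Or.inr ⟨v, rfl⟩, hom_eqv_CX k N v⟩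

theorem hom_elem {f : MvPolynomial (Fin (N + 4)) k} {n : ℕ} (h : f.IsHomogeneous n) :
    SetLike.IsHomogeneousElem (homogeneousSubmodule (Fin (N + 4)) k) f :=
  ⟨n, (mem_homogeneousSubmodule n f).2 h⟩

theorem homog_Q1 :
    ((Q1 k N).map (eqv k N)).IsHomogeneous (homogeneousSubmodule (Fin (N + 4)) k) := by
  rw [Q1, bb, Ideal.map_span, Ideal.map_span]
  refine Ideal.homogeneous_span _ _ ?_
  rintro _ ⟨_, ⟨_, (rfl | rfl), rfl⟩, rfl⟩
  · refine hom_elem k N (n := 1 * (N + 1)) ?_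
    rw [map_pow, map_pow, pp, hom_eqv_CX]
    exact (isHomogeneous_X _ _).pow _
  · refine hom_elem k N (n := 1 * (N + 1)) ?_
    rw [map_pow, map_pow, qq, hom_eqv_CX]
    exact (isHomogeneous_X _ _).pow _

theorem homog_idl (f : AA k N) (n : ℕ) (hf : (eqv k N (C f)).IsHomogeneous n)
    (Γ : Finset (ℕ × ℕ × ℕ)) :
    ((idl f Γ).map (eqv k N)).IsHomogeneous (homogeneousSubmodule (Fin (N + 4)) k) := by
  rw [idl, Ideal.map_span]
  refine Ideal.homogeneous_span _ _ ?_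
  rintro _ ⟨_, ⟨g, -, rfl⟩, rfl⟩
  refine hom_elem k N (n := 1 * g.1 + 1 * g.2.1 + n * g.2.2) ?_
  rw [map_mul, map_mul, map_pow, map_pow, C_pow, map_pow, hom_eqv_X, hom_eqv_X]
  exact (((isHomogeneous_X _ _).pow _).mul ((isHomogeneous_X _ _).pow _)).mul (hf.pow _)

theorem hom_pp : (eqv k N (C pp)).IsHomogeneous 1 := by
  rw [pp, hom_eqv_CX]
  exact isHomogeneous_X _ _

theorem hom_hh : (eqv k N (C (hh k N))).IsHomogeneous N := by
  rw [hh, map_sum, map_sum]
  refine IsHomogeneous.sum _ _ _ fun i _ => ?_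
  rw [map_mul, map_mul, map_mul, map_mul, map_pow, map_pow, map_pow, map_pow, pp, qq, zz,
    hom_eqv_CX, hom_eqv_CX, hom_eqv_CX]
  have h : N = 1 * (N - 1 - (i : ℕ)) + 1 * (i : ℕ) + 1 := by have := i.2; omega
  have h2 := (((isHomogeneous_X k (homE N (Sum.inr (Sum.inl 0)))).pow (N - 1 - (i : ℕ))).mul
    ((isHomogeneous_X k (homE N (Sum.inr (Sum.inl 1)))).pow (i : ℕ))).mul
    (isHomogeneous_X k (homE N (Sum.inr (Sum.inr i))))
  rw [← h] at h2
  exact h2

theorem homog_QQ (t0 D : ℕ) (ψ : ℕ → ℕ) :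
    ((QQ k N t0 D ψ).map (eqv k N)).IsHomogeneous (homogeneousSubmodule (Fin (N + 4)) k) := by
  have hinf : ∀ I J : Ideal (RR k N), (I ⊓ J).map (eqv k N) =
      I.map (eqv k N) ⊓ J.map (eqv k N) := by
    intro I J
    rw [← Ideal.comap_symm, ← Ideal.comap_symm, ← Ideal.comap_symm, Ideal.comap_inf]
  have hh'1 : (eqv k N (C (hh' k N))).IsHomogeneous N := by
    rw [hh', map_add, map_add]
    refine (hom_hh k N).add ?_
    rw [map_pow, map_pow]
    have := (hom_pp k N).pow N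
    rwa [one_mul] at this
  rw [QQ, hinf, hinf, hinf]
  exact (homog_Q1 k N).inf ((homog_idl k N _ 1 (hom_pp k N) _).inf
    ((homog_idl k N _ N (hom_hh k N) _).inf (homog_idl k N _ N hh'1 _)))

end HOM

end Pool.Agent.Helper91.SymD
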