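import Mathlib
import Pool.Agent.Helper91.SymD.Defs
import Pool.Agent.Helper91.SymD.Cw
import Pool.Agent.Helper91.SymD.Vars

/-! MP_75fc3b_ag, module VB.  Proof: /team-store/symd_blueprint.md -/

set_option autoImplicit false

universe u

open MvPolynomial CategoryTheory Abelian

namespace Pool.Agent.Helper91.SymD

section VB

variable (k : Type u) [Field k] (N : ℕ)

theorem vb_fix (t : ℕ) : VarsFix ((List.finRange N).map Sum.inr) (bb k N ^ t) := by
  refine VarsFix.pow (VarsFix.span _ ?_) t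
  rintro g hg v hv
  rw [List.mem_map] at hv
  obtain ⟨i, _, rfl⟩ := hv
  have e1 : th (Sum.inr i) (pp : AA k N) = pp := vars_th_X_ne (by simp)
  have e2 : th (Sum.inr i) (qq : AA k N) = qq := vars_th_X_ne (by simp)
  rcases hg with rfl | rfl
  · rw [map_pow, e1]
  · rw [map_pow, e2]

theorem vb_Q1_le : Q1 k N ≤ mR k N := by
  have hp : (pp : AA k N) ∈ pq k N := Ideal.subset_span (Set.mem_insert _ _)
  have hq : (qq : AA k N) ∈ pq k N :=
    Ideal.subset_span (Set.mem_insert_of_mem _ (Set.mem_singleton _))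
  have hle : bb k N ≤ pq k N := by
    unfold bb
    rw [Ideal.span_le]
    rintro g (rfl | rfl)
    · exact Ideal.pow_mem_of_mem _ hp _ (Nat.succ_pos N)
    · exact Ideal.pow_mem_of_mem _ hq _ (Nat.succ_pos N)
  exact le_trans (Ideal.map_mono hle) (pqC_le_mR k N)

theorem vb_ofList_map {A : Type u} [CommRing A] (rs : List A) :
    Ideal.ofList (rs.map (C : A →+* MvPolynomial (Fin 2) A)) =
      (Ideal.ofList rs).map (C : A →+* MvPolynomial (Fin 2) A) :=
  (Ideal.map_ofList C rs).symm

theorem V_Q1 (t : ℕ) (ht : 1 ≤ t) : V (mR k N) (Q1 k N ^ t) (N + 2) := by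
  set L : List (Fin 2 ⊕ Fin N) := (List.finRange N).map Sum.inr with hL
  have hnd : L.Nodup := (List.nodup_finRange N).map Sum.inr_injective
  have hQ : Q1 k N ^ t = (bb k N ^ t).map (C : AA k N →+* RR k N) := (Ideal.map_pow _ _ _).symm
  have h1 : RegMod (Q1 k N ^ t) ((L.map X).map (C : AA k N →+* RR k N)) := by
    rw [hQ, map_C_eq_cw]
    exact regMod_cw _ _ fun d => (vb_fix k N t).regMod hnd
  have h2 : RegMod (Q1 k N ^ t ⊔ Ideal.ofList ((L.map X).map (C : AA k N →+* RR k N)))
      [X 0, X 1] := by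
    rw [vb_ofList_map, hQ, ← Ideal.map_sup]
    exact vars_xy _
  have h3 := vars_regMod_append _ _ _ h1 h2
  have hlen : ((L.map X).map (C : AA k N →+* RR k N) ++ [X 0, X 1]).length = N + 2 := by
    simp [hL]
  rw [← hlen]
  refine V_of_regMod (mR_ne_top k N) ?_ _ ?_ h3
  · exact (Ideal.pow_le_self (by omega)).trans (vb_Q1_le k N)
  · intro r hr
    rw [List.mem_append] at hr
    rcases hr with hr | hr
    · rw [List.mem_map] at hr
      obtain ⟨a, ha, rfl⟩ := hr
      rw [List.mem_map] at ha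
      obtain ⟨v, _, rfl⟩ := ha
      exact Ideal.subset_span (Or.inr ⟨v, rfl⟩)
    · simp only [List.mem_cons, List.not_mem_nil, or_false] at hr
      rcases hr with rfl | rfl
      · exact Ideal.subset_span (Or.inl ⟨0, rfl⟩)
      · exact Ideal.subset_span (Or.inl ⟨1, rfl⟩)

end VB

end Pool.Agent.Helper91.SymD
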