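import Mathlib
import Pool.Agent.Helper91.SymD.Defs
import Pool.Agent.Helper91.SymD.Cw
import Pool.Agent.Helper91.SymD.Ddm
import Pool.Agent.Helper91.SymD.Vars

/-! MP_75fc3b_ag, module VD.  Proof: /team-store/symd_blueprint.md -/

set_option autoImplicit false

universe u

open MvPolynomial CategoryTheory Abelian

namespace Pool.Agent.Helper91.SymD

section VD

variable (k : Type u) [Field k] {N t0 D : ℕ} {ψ : ℕ → ℕ}

theorem V_bot (N : ℕ) : V (mR k N) ⊥ (N + 4) := by
  set L : List (Fin 2 ⊕ Fin N) := Finset.univ.toList with hL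
  have hnd : L.Nodup := Finset.nodup_toList _
  have hlenL : L.length = N + 2 := by
    rw [hL, Finset.length_toList, Finset.card_univ, Fintype.card_sum, Fintype.card_fin,
      Fintype.card_fin]
    omega
  have hbot : (⊥ : Ideal (RR k N)) = (⊥ : Ideal (AA k N)).map (C : AA k N →+* RR k N) := by
    rw [Ideal.map_bot]
  have h1 : RegMod (⊥ : Ideal (RR k N)) ((L.map X).map (C : AA k N →+* RR k N)) := by
    rw [hbot, map_C_eq_cw]
    refine regMod_cw _ _ fun d => ?_
    have := regMod_vars (σ := Fin 2 ⊕ Fin N) (k := k) ∅ L hnd (by simp)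
    rw [Ideal.span_empty] at this
    exact this
  have h2 : RegMod ((⊥ : Ideal (RR k N)) ⊔ Ideal.ofList ((L.map X).map (C : AA k N →+* RR k N)))
      [X 0, X 1] := by
    rw [← Ideal.map_ofList, hbot, ← Ideal.map_sup]
    exact vars_xy _
  have h3 := vars_regMod_append _ _ _ h1 h2
  have hlen : ((L.map X).map (C : AA k N →+* RR k N) ++ [X 0, X 1]).length = N + 4 := by
    rw [List.length_append, List.length_map, List.length_map, hlenL]
    rfl
  rw [← hlen]
  refine V_of_regMod (mR_ne_top k N) bot_le _ ?_ h3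
  intro r hr
  rw [List.mem_append] at hr
  rcases hr with hr | hr
  · rw [List.mem_map] at hr
    obtain ⟨a, ha, rfl⟩ := hr
    rw [List.mem_map] at ha
    obtain ⟨v, _, rfl⟩ := ha
    exact Ideal.subset_span (Or.inr ⟨v, rfl⟩)
  · simp only [List.mem_cons, List.not_mem_nil, or_false] at hr
    rcases hr with rfl | rfl
    · exact Ideal.subset_span (Or.inl ⟨0, rfl⟩)
    · exact Ideal.subset_span (Or.inl ⟨1, rfl⟩)

theorem vd_sub_const {A : Type u} [CommRing A] (f : MvPolynomial (Fin 2) A) :
    f - C (constantCoeff f) ∈ (⊥ ⊔ Ideal.span {(X 0 : MvPolynomial (Fin 2) A)}) ⊔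
      Ideal.span {(X 1 : MvPolynomial (Fin 2) A)} := by
  induction f using MvPolynomial.induction_on with
  | C a => simp
  | add p q hp hq =>
    have e : p + q - C (constantCoeff (p + q)) =
        (p - C (constantCoeff p)) + (q - C (constantCoeff q)) := by
      rw [map_add, map_add]; ring
    rw [e]
    exact Ideal.add_mem _ hp hq
  | mul_X p i _ =>
    have e : p * X i - C (constantCoeff (p * X i)) = p * X i := by
      rw [map_mul, constantCoeff_X, mul_zero, map_zero, sub_zero]
    rw [e]
    refine Ideal.mul_mem_left _ _ ?_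
    have hi : i = 0 ∨ i = 1 := by omega
    rcases hi with rfl | rfl
    · exact Ideal.mem_sup_left (Ideal.mem_sup_right (Ideal.mem_span_singleton_self _))
    · exact Ideal.mem_sup_right (Ideal.mem_span_singleton_self _)

theorem vd_const_zero {A : Type u} [CommRing A] {f : MvPolynomial (Fin 2) A}
    (hf : f ∈ (⊥ ⊔ Ideal.span {(X 0 : MvPolynomial (Fin 2) A)}) ⊔
      Ideal.span {(X 1 : MvPolynomial (Fin 2) A)}) : constantCoeff f = 0 := by
  have hle : (⊥ ⊔ Ideal.span {(X 0 : MvPolynomial (Fin 2) A)}) ⊔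
      Ideal.span {(X 1 : MvPolynomial (Fin 2) A)} ≤
      RingHom.ker (constantCoeff (R := A) (σ := Fin 2)) := by
    refine sup_le (sup_le bot_le ?_) ?_
    · rw [Ideal.span_singleton_le_iff_mem, RingHom.mem_ker, constantCoeff_X]
    · rw [Ideal.span_singleton_le_iff_mem, RingHom.mem_ker, constantCoeff_X]
  exact hle hf

theorem V_pr (F : AA k N) (hF : F ≠ 0) : V (mR k N) (pr F) (N + 1) := by
  have hreg : RegMod (⊥ : Ideal (RR k N)) [X 0, X 1, C F] := by
    have h1 := vars_xy (⊥ : Ideal (AA k N))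
    rw [Ideal.map_bot] at h1
    refine ⟨h1.1, h1.2.1, fun f hf => ?_, trivial⟩
    have h2 := vd_const_zero hf
    rw [map_mul, constantCoeff_C] at h2
    have h3 : constantCoeff f = 0 := by
      rcases mul_eq_zero.1 h2 with h | h
      · exact absurd h hF
      · exact h
    have h4 := vd_sub_const f
    rwa [h3, map_zero, sub_zero] at h4
  have h := V.quot_list (I := mR k N) (J := ⊥) (n := N + 1) [X 0, X 1, C F] hreg (V_bot k N)
  have e : (⊥ : Ideal (RR k N)) ⊔ Ideal.ofList [X 0, X 1, C F] = pr F := by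
    have e1 : (⊥ : Ideal (RR k N)) ⊔ Ideal.ofList [X 0, X 1, C F] =
        ((⊥ ⊔ Ideal.span {(X 0 : RR k N)}) ⊔ Ideal.span {(X 1 : RR k N)}) ⊔
          Ideal.span {(C F : RR k N)} := by
      rw [Ideal.ofList_cons, Ideal.ofList_cons, Ideal.ofList_singleton, sup_assoc, sup_assoc]
    rw [e1]
    apply le_antisymm
    · refine sup_le (sup_le (sup_le bot_le ?_) ?_) ?_
      · rw [Ideal.span_singleton_le_iff_mem]
        show constantCoeff (X 0 : RR k N) ∈ Ideal.span {F}
        rw [constantCoeff_X]; exact Ideal.zero_mem _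
      · rw [Ideal.span_singleton_le_iff_mem]
        show constantCoeff (X 1 : RR k N) ∈ Ideal.span {F}
        rw [constantCoeff_X]; exact Ideal.zero_mem _
      · rw [Ideal.span_singleton_le_iff_mem]
        show constantCoeff (C F : RR k N) ∈ Ideal.span {F}
        rw [constantCoeff_C]; exact Ideal.mem_span_singleton_self _
    · intro f hf
      have hf' : constantCoeff f ∈ Ideal.span {F} := hf
      obtain ⟨c, hc⟩ := Ideal.mem_span_singleton'.1 hf'
      have e2 : f = (f - C (constantCoeff f)) + C c * C F := by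
        rw [← map_mul, hc]; ring
      rw [e2]
      exact Submodule.add_mem_sup (vd_sub_const f)
        (Ideal.mul_mem_left _ _ (Ideal.mem_span_singleton_self _))
  rwa [e] at h

theorem V_DD (hN : 1 ≤ N) (t : ℕ) : V (mR k N) (DD k N t0 D ψ t) (N + 1) := by
  rw [DD_eq k hN]
  set m : Fin 2 →₀ ℕ := Finsupp.single 0 ((2 * KK t0 D + 1) * t) +
    Finsupp.single 1 ((KK t0 D + 1) * t) with hm
  have hm0 : m 0 = (2 * KK t0 D + 1) * t := by simp [hm]
  have hm1 : m 1 = (KK t0 D + 1) * t := by simp [hm]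
  refine V_cw _ (Finset.Icc 0 m) (fun d hd => ?_) _ (fun d => ?_)
  · have h1 : ¬ d ≤ m := fun h => hd (Finset.mem_Icc.2 ⟨zero_le, h⟩)
    have h2 : (2 * KK t0 D + 1) * t ≤ d 0 ∨ (KK t0 D + 1) * t ≤ d 1 := by
      by_contra hcon
      push Not at hcon
      apply h1
      intro i
      have hi : i = 0 ∨ i = 1 := by omega
      rcases hi with rfl | rfl
      · rw [hm0]; exact hcon.1.le
      · rw [hm1]; exact hcon.2.le
    show Ideal.span {FF k N t0 D ψ t (d 0) (d 1)} = ⊤
    rcases h2 with h2 | h2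
    · rw [FF_eq_one_left k h2, Ideal.span_singleton_one]
    · rw [FF_eq_one_right k h2, Ideal.span_singleton_one]
  · exact V_pr k (FF k N t0 D ψ t (d 0) (d 1)) (FF_ne_zero k hN t _ _)

end VD

end Pool.Agent.Helper91.SymD
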