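import Mathlib
import Pool.Agent.Helper91.SymD.Defs
import Pool.Agent.Helper91.SymD.Vd
import Pool.Agent.Helper91.SymD.Vb
import Pool.Agent.Helper91.SymD.Symb
import Pool.Agent.Helper91.SymD.Prim
import Pool.Agent.Helper91.SymD.Swap
import Pool.Agent.Helper91.SymD.Height
import Pool.Agent.Helper91.SymD.Hom
import Pool.Agent.Helper91.SymD.SocA
import Pool.Agent.Helper91.SymD.SocB

/-! MP_75fc3b_ag, module ONE.  Proof: /team-store/symd_blueprint.md -/

set_option autoImplicit false

universe u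

open MvPolynomial CategoryTheory Abelian

namespace Pool.Agent.Helper91.SymD

section ONE

attribute [local instance] MvPolynomial.gradedAlgebra

variable (k : Type u) [Field k]

/-- `(x, y)` -/
noncomputable def oneL : Ideal (RR k 0) := idl (0 : AA k 0) (ΓG 1 1)

theorem one_mem0 : (0, 0, 1) ∈ ΓG 1 1 := by simp [ΓG]

theorem one_zero_notMem : (0, 0, 0) ∉ ΓG 1 1 := by simp [ΓG]

theorem one_prime : (pr (0 : AA k 0)).IsPrime :=
  pr_isPrime (by rw [Ideal.span_singleton_zero]; exact Ideal.isPrime_bot)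

/-- the components -/
noncomputable def oneq (b : Bool) : Ideal (RR k 0) := cond b (oneL k) (Q1 k 0)

/-- the primes -/
noncomputable def oneP (b : Bool) : Ideal (RR k 0) := cond b (pr (0 : AA k 0)) ((pq k 0).map C)

theorem one_hP (b : Bool) : (oneP k b).IsPrime := by
  cases b
  · exact pqC_isPrime k 0
  · exact one_prime k

theorem one_not1 : ¬ pr (0 : AA k 0) ≤ (pq k 0).map C := by
  intro h
  have h1 : (X 0 : RR k 0) ∈ pr (0 : AA k 0) := by
    simp [pr]
  have h2 := h h1
  rw [mem_map_C_iff] at h2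
  have h3 := h2 (Finsupp.single 0 1)
  rw [coeff_X, if_pos rfl] at h3
  exact (pq_isPrime k 0).ne_top ((Ideal.eq_top_iff_one _).2 h3)

theorem one_not2 : ¬ (pq k 0).map C ≤ pr (0 : AA k 0) := by
  intro h
  have h1 : (C pp : RR k 0) ∈ (pq k 0).map C :=
    Ideal.mem_map_of_mem _ (Ideal.subset_span (by simp))
  have h2 := h h1
  simp [pr, pp] at h2

theorem one_hinc (i j : Bool) (h : oneP k i ≤ oneP k j) : i = j := by
  cases i <;> cases j
  · rfl
  · exact absurd h (one_not2 k)
  · exact absurd h (one_not1 k)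
  · rfl

theorem one_hqP (b : Bool) : oneq k b ≤ oneP k b := by
  cases b
  · exact Q1_le k 0
  · exact idl_le_pr 0 one_zero_notMem

theorem one_hPq (b : Bool) : oneP k b ≤ (oneq k b).radical := by
  cases b
  · exact le_radical_Q1 k 0
  · exact pr_le_radical 0 (a := 1) (b := 1) (c := 1) (by simp [ΓG]) (by simp [ΓG]) (by simp [ΓG])

theorem one_prim (t : ℕ) (b : Bool) (s f : RR k 0) (h : s * f ∈ oneq k b ^ t)
    (hs : s ∉ oneP k b) : f ∈ oneq k b ^ t := by
  cases b
  · exact primary_Q1 k 0 t s f h hs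
  · exact primary_idl (Or.inl rfl) one_mem0 t s f h hs

theorem one_symb (t : ℕ) : symbPow (⨅ b, oneq k b) t = oneL k ^ t ⊓ Q1 k 0 ^ t := by
  rw [symbPow_eq (oneP k) (oneq k) (one_hP k) (one_hinc k) (one_hqP k) (one_hPq k) t (one_prim k t),
    iInf_bool_eq]
  rfl

theorem one_min : (⨅ b, oneq k b).minimalPrimes = Set.range (oneP k) :=
  minimalPrimes_iInf (oneP k) (oneq k) (one_hP k) (one_hinc k) (one_hqP k) (one_hPq k)

theorem one_height : (⨅ b, oneq k b).height = 2 := by
  rw [Ideal.height_eq_inf_minimalPrimes, one_min, iInf_range, iInf_bool_eq]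
  change (pr (0 : AA k 0)).height ⊓ ((pq k 0).map C).height = 2
  rw [height_pq k]
  exact inf_eq_right.2 (two_le_height_pr k 0 (one_prime k))

theorem one_homog : ((⨅ b, oneq k b).map (eqv k 0)).IsHomogeneous
    (homogeneousSubmodule (Fin (0 + 4)) k) := by
  rw [iInf_bool_eq, ← Ideal.comap_symm, Ideal.comap_inf, Ideal.comap_symm, Ideal.comap_symm]
  refine Ideal.IsHomogeneous.inf ?_ ?_
  · refine homog_idl k 0 0 0 ?_ _
    rw [map_zero, map_zero]
    exact isHomogeneous_zero _ _ _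
  · exact homog_Q1 k 0

/-- coefficient ideals of `(x, y)^t` -/
noncomputable def oneA (t : ℕ) : (Fin 2 →₀ ℕ) →o Ideal (AA k 0) where
  toFun d := Ideal.span {0 ^ (t - (d 0 / 1 + d 1 / 1))}
  monotone' := fun d d' h => by
    rw [Ideal.span_singleton_le_span_singleton]
    refine pow_dvd_pow _ ?_
    have h0 := h 0
    have h1 := h 1
    simp only [Nat.div_one]
    omega

theorem one_cw (t : ℕ) : oneL k ^ t = cw (oneA k t) := by
  ext g
  rw [oneL, mem_idl_pow 0 _ one_mem0]
  refine forall_congr' fun d => ?_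
  rw [ee_ΓG one_pos one_pos]
  exact Ideal.mem_span_singleton.symm

theorem one_top (t : ℕ) (d : Fin 2 →₀ ℕ) (h : t ≤ d 0 + d 1) : oneA k t d = ⊤ := by
  change Ideal.span {0 ^ (t - (d 0 / 1 + d 1 / 1))} = ⊤
  have : t - (d 0 / 1 + d 1 / 1) = 0 := by
    simp only [Nat.div_one]
    omega
  rw [this, pow_zero, Ideal.span_singleton_one]

theorem one_bot (t : ℕ) (d : Fin 2 →₀ ℕ) (h : d 0 + d 1 < t) : oneA k t d = ⊥ := by
  change Ideal.span {0 ^ (t - (d 0 / 1 + d 1 / 1))} = ⊥
  have : t - (d 0 / 1 + d 1 / 1) ≠ 0 := by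
    simp only [Nat.div_one]
    omega
  rw [zero_pow this, Ideal.span_singleton_zero]

theorem one_notMem_T (t : ℕ) (d : Fin 2 →₀ ℕ)
    (hd : d ∉ Finset.Iic (Finsupp.single (0 : Fin 2) t + Finsupp.single (1 : Fin 2) t)) :
    t ≤ d 0 + d 1 := by
  by_contra h
  apply hd
  rw [Finset.mem_Iic]
  intro i
  fin_cases i
  · simp
    omega
  · simp
    omega

theorem one_pr_eq : (⊥ : Ideal (RR k 0)) ⊔ Ideal.ofList [X 0, X 1] = pr (0 : AA k 0) := by
  apply le_antisymm
  · rw [bot_sup_eq, Ideal.span_le]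
    intro r hr
    simp only [List.mem_cons, List.not_mem_nil, or_false, Set.mem_setOf_eq] at hr
    rcases hr with rfl | rfl <;> simp [pr]
  · intro f hf
    have hf0 : constantCoeff f = 0 := by
      simpa [pr] using hf
    rw [bot_sup_eq, f.as_sum]
    refine Ideal.sum_mem _ fun d hd => ?_
    have hx0 : (X 0 : RR k 0) ∈ Ideal.ofList [(X 0 : RR k 0), X 1] :=
      Ideal.subset_span (by simp)
    have hx1 : (X 1 : RR k 0) ∈ Ideal.ofList [(X 0 : RR k 0), X 1] :=
      Ideal.subset_span (by simp)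
    by_cases h0 : d 0 = 0
    · by_cases h1 : d 1 = 0
      · exfalso
        have : d = 0 := by
          ext i
          fin_cases i
          · exact h0
          · exact h1
        rw [this, mem_support_iff] at hd
        exact hd hf0
      · exact Ideal.mem_of_dvd _ (X_dvd_monomial.2 (Or.inr h1)) hx1
    · exact Ideal.mem_of_dvd _ (X_dvd_monomial.2 (Or.inr h0)) hx0

theorem one_Vpr : V (mR k 0) (pr (0 : AA k 0)) 2 := by
  have h := V.quot_list (I := mR k 0) (J := ⊥) (n := 2) [X 0, X 1] ?_ (V_bot k 0)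
  · rwa [one_pr_eq] at h
  · refine ⟨fun f hf => ?_, fun f hf => ?_, trivial⟩
    · rw [Ideal.mem_bot] at hf ⊢
      exact (mul_eq_zero.1 hf).resolve_left (X_ne_zero 0)
    · rw [bot_sup_eq, Ideal.mem_span_singleton] at hf ⊢
      rcases X_dvd_mul_iff.1 hf with h | h
      · exact absurd (X_dvd_X.1 h) (by decide)
      · exact h

theorem one_VL (t : ℕ) : V (mR k 0) (oneL k ^ t) 2 := by
  rw [one_cw]
  refine V_cw _ (Finset.Iic (Finsupp.single (0 : Fin 2) t + Finsupp.single (1 : Fin 2) t))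
    (fun d hd => one_top k t d (one_notMem_T t d hd)) 2 fun d => ?_
  by_cases h : t ≤ d 0 + d 1
  · rw [one_top k t d h, Ideal.comap_top]
    exact V.top
  · rw [one_bot k t d (by omega)]
    have := one_Vpr k
    rwa [pr, Ideal.span_singleton_zero] at this

theorem one_sup (t : ℕ) : oneL k ^ t ⊔ Q1 k 0 ^ t =
    cw (oneA k t ⊔ OrderHom.const _ (bb k 0 ^ t)) := by
  rw [Q1, ← Ideal.map_pow, map_C_eq_cw, one_cw, cw_sup]

theorem one_notV {t : ℕ} (ht : 1 ≤ t) : ¬ V (mR k 0) (oneL k ^ t ⊔ Q1 k 0 ^ t) 1 := by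
  rw [one_sup]
  have hd : (Finsupp.single (0 : Fin 2) (t - 1)) 0 + (Finsupp.single (0 : Fin 2) (t - 1)) 1 < t := by
    simp
    omega
  refine soc_cw k _ (Finset.Iic (Finsupp.single (0 : Fin 2) t + Finsupp.single (1 : Fin 2) t))
    (fun d hd => ?_) (Finsupp.single 0 (t - 1)) (pp ^ ((0 + 1) * t - 1) * qq ^ 0) ?_ ?_
  · change oneA k t d ⊔ bb k 0 ^ t = ⊤
    rw [one_top k t d (one_notMem_T t d hd), top_sup_eq]
  · change _ ∉ oneA k t _ ⊔ bb k 0 ^ t
    rw [one_bot k t _ hd, bot_sup_eq]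
    intro h
    refine soc_notMem (k := k) (N := 0) (s := 0) (t := t) (e3 := t) (e := 1) (e' := 0) ht le_rfl
      (by omega) (by omega) ?_
    exact Submodule.mem_sup_left (Submodule.mem_sup_left h)
  · rintro (v | v)
    · fin_cases v
      · exact Submodule.mem_sup_right (soc_p k ht)
      · exact Submodule.mem_sup_right (soc_q k ht)
    · exact v.elim0

theorem one_case : ∃ Q : Ideal (RR k 0), Q.height = 2 ∧
    ((Q.map (eqv k 0)).IsHomogeneous (homogeneousSubmodule (Fin (0 + 4)) k)) ∧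
    ∀ t, 1 ≤ t → HasDepth (mR k 0) (RR k 0 ⧸ symbPow Q t) 1 := by
  refine ⟨⨅ b, oneq k b, one_height k, one_homog k, fun t ht => ?_⟩
  rw [one_symb]
  refine hasDepth_of_V (mR_ne_top k 0) ?_ 1 ?_ ?_
  · exact inf_le_right.trans ((Ideal.pow_le_self (by omega)).trans
      ((Q1_le k 0).trans (pqC_le_mR k 0)))
  · exact V.inf (V.mono (by omega) (one_VL k t)) (V.mono (by omega) (V_Q1 k 0 t ht))
      (fun i hi => absurd hi (by omega))
  · intro h
    exact one_notV k ht (V.sup (V.mono (by omega) (one_VL k t)) (V.mono (by omega) (V_Q1 k 0 t ht)) h)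

end ONE

end Pool.Agent.Helper91.SymD
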