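import Mathlib
import Pool.Agent.Helper91.SymD.Defs

/-! MP_75fc3b_ag, module TRANS.  Proof: /team-store/symd_blueprint.md -/

set_option autoImplicit false

universe u

open MvPolynomial CategoryTheory Abelian

namespace Pool.Agent.Helper91.SymD

section TRANS

variable {R S : Type u} [CommRing R] [CommRing S] (e : R ≃+* S)

theorem trans_mem_symbPow {R : Type u} [CommRing R] (Q : Ideal R) (t : ℕ) (f : R) :
    f ∈ symbPow Q t ↔ ∀ P ∈ Q.minimalPrimes, ∃ s ∉ P, s * f ∈ Q ^ t := by
  unfold symbPow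
  rw [Submodule.mem_iInf]
  constructor
  · intro h P hP
    have hPp : P.IsPrime := hP.1.1
    have h1 := h ⟨P, hP⟩
    rw [Ideal.mem_comap, IsLocalization.algebraMap_mem_map_algebraMap_iff P.primeCompl] at h1
    obtain ⟨m, hm, hmf⟩ := h1
    exact ⟨m, hm, hmf⟩
  · rintro h ⟨P, hP⟩
    have hPp : P.IsPrime := hP.1.1
    obtain ⟨s, hs, hsf⟩ := h P hP
    rw [Ideal.mem_comap, IsLocalization.algebraMap_mem_map_algebraMap_iff P.primeCompl]
    exact ⟨s, hs, hsf⟩

theorem trans_minimalPrimes (Q : Ideal R) :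
    Q.minimalPrimes = Ideal.comap (e : R →+* S) '' (Q.map e).minimalPrimes := by
  have h := Ideal.comap_minimalPrimes_eq_of_surjective (f := (e : R →+* S)) e.surjective
    (Q.map (e : R →+* S))
  rw [Ideal.comap_map_of_bijective (e : R →+* S) e.bijective] at h
  exact h

theorem trans_mem_map (I : Ideal R) (x : S) : x ∈ I.map e ↔ e.symm x ∈ I := by
  rw [← Ideal.comap_symm, Ideal.mem_comap]

theorem symbPow_map (Q : Ideal R) (t : ℕ) :
    symbPow (Q.map e) t = (symbPow Q t).map e := by
  ext x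
  rw [trans_mem_map, trans_mem_symbPow, trans_mem_symbPow, trans_minimalPrimes e Q]
  constructor
  · rintro h _ ⟨P', hP', rfl⟩
    obtain ⟨s, hs, hsx⟩ := h P' hP'
    refine ⟨e.symm s, ?_, ?_⟩
    · rw [Ideal.mem_comap]
      simpa using hs
    · rw [← Ideal.map_pow, trans_mem_map, map_mul] at hsx
      exact hsx
  · intro h P' hP'
    obtain ⟨s, hs, hsx⟩ := h _ ⟨P', hP', rfl⟩
    refine ⟨e s, ?_, ?_⟩
    · rw [Ideal.mem_comap] at hs
      simpa using hs
    · rw [← Ideal.map_pow, trans_mem_map, map_mul, RingEquiv.symm_apply_apply]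
      exact hsx

theorem trans_isRegular (J : Ideal R) (rs : List R) :
    RingTheory.Sequence.IsRegular (R ⧸ J) rs ↔
      RingTheory.Sequence.IsRegular (S ⧸ J.map e) (rs.map e) := by
  refine AddEquiv.isRegular_congr (e := (Ideal.quotientEquiv J (J.map e) e rfl).toAddEquiv) ?_
  rw [List.forall₂_map_right_iff, List.forall₂_same]
  intro r _ x
  obtain ⟨x, rfl⟩ := Ideal.Quotient.mk_surjective x
  show Ideal.quotientEquiv J (J.map e) e rfl (Ideal.Quotient.mk J (r * x)) =
    Ideal.Quotient.mk (J.map e) (e r) * Ideal.quotientEquiv J (J.map e) e rfl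
      (Ideal.Quotient.mk J x)
  rw [Ideal.quotientEquiv_mk, Ideal.quotientEquiv_mk, map_mul, map_mul]

theorem HasDepth.map {I J : Ideal R} {d : ℕ} (h : HasDepth I (R ⧸ J) d) :
    HasDepth (I.map e) (S ⧸ J.map e) d := by
  obtain ⟨⟨rs, h1, h2, h3⟩, hub⟩ := h
  constructor
  · refine ⟨rs.map e, by rw [List.length_map, h1], ?_, (trans_isRegular e J rs).1 h3⟩
    intro r hr
    rw [List.mem_map] at hr
    obtain ⟨a, ha, rfl⟩ := hr
    exact Ideal.mem_map_of_mem _ (h2 a ha)
  · rintro n ⟨rs', k1, k2, k3⟩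
    refine hub ⟨rs'.map e.symm, by rw [List.length_map, k1], ?_, ?_⟩
    · intro r hr
      rw [List.mem_map] at hr
      obtain ⟨a, ha, rfl⟩ := hr
      exact (trans_mem_map e I a).1 (k2 a ha)
    · rw [trans_isRegular e J, List.map_map]
      have : (e : R → S) ∘ e.symm = id := by
        funext x; simp
      rw [this, List.map_id]
      exact k3

end TRANS

end Pool.Agent.Helper91.SymD
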