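import Mathlib
import Pool.Agent.Helper91.SymD.Defs
import Pool.Agent.Helper91.SymD.Vd
import Pool.Agent.Helper91.SymD.Vb
import Pool.Agent.Helper91.SymD.CompC
import Pool.Agent.Helper91.SymD.SymQ
import Pool.Agent.Helper91.SymD.Height
import Pool.Agent.Helper91.SymD.Trans
import Pool.Agent.Helper91.SymD.Hom
import Pool.Agent.Helper91.SymD.One

/-! MP_75fc3b_ag, module FINAL.  Proof: /team-store/symd_blueprint.md -/

set_option autoImplicit false

universe u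

open MvPolynomial CategoryTheory Abelian

namespace Pool.Agent.Helper91.SymD

section FINAL

attribute [local instance] MvPolynomial.gradedAlgebra

theorem depth_QQ (k : Type u) [Field k] {N t0 D : ℕ} {ψ : ℕ → ℕ} (hN : 1 ≤ N)
    (H : Good N t0 D ψ) {t : ℕ} (ht : 1 ≤ t) :
    HasDepth (mR k N) (RR k N ⧸ symbPow (QQ k N t0 D ψ) t) (N + 1 - ψ t) := by
  have hle := H.le t
  have e1 : N + 1 - ψ t = N - ψ t + 1 := by omega
  rw [symbPow_QQ k hN, e1]
  obtain ⟨h1, h2⟩ := V_sup_iff k hN H ht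
  have hQ1 := V_Q1 k N t ht
  have hD := V_DD (t0 := t0) (D := D) (ψ := ψ) k hN t
  refine hasDepth_of_V (mR_ne_top k N) ?_ _ ?_ ?_
  · exact inf_le_left.trans ((Ideal.pow_le_self (by omega)).trans ((Q1_le k N).trans (pqC_le_mR k N)))
  · exact V.inf (hQ1.mono (by omega)) (hD.mono (by omega)) h1
  · intro h3
    exact h2 (V.sup (hQ1.mono (by omega)) (hD.mono (by omega)) h3)

theorem exists_ideal (k : Type u) [Field k] (φ : ℕ → ℕ) (hpos : ∀ t, 1 ≤ t → 1 ≤ φ t)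
    (t0 D : ℕ) (ht0 : 1 ≤ t0) (hD : 1 ≤ D) (hper : ∀ t, t0 ≤ t → φ (t + D) = φ t)
    (m : ℕ) (hm : IsGreatest {d | ∃ t, 1 ≤ t ∧ φ t = d} m) :
    ∃ Q : Ideal (MvPolynomial (Fin (m + 3)) k),
      Q.IsHomogeneous (homogeneousSubmodule (Fin (m + 3)) k) ∧ Q.height = 2 ∧
      ∀ t, 1 ≤ t → HasDepth (Ideal.span (Set.range (X : Fin (m + 3) → MvPolynomial (Fin (m + 3)) k)))
        (MvPolynomial (Fin (m + 3)) k ⧸ symbPow Q t) (φ t) := by
  obtain ⟨⟨tm, htm, htm'⟩, hub⟩ := hm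
  have hφm : ∀ t, 1 ≤ t → φ t ≤ m := fun t ht => hub ⟨t, ht, rfl⟩
  have hm1 : 1 ≤ m := htm' ▸ hpos tm htm
  obtain ⟨N, rfl⟩ : ∃ N, m = N + 1 := ⟨m - 1, by omega⟩
  suffices h : ∃ Q : Ideal (RR k N), Q.height = 2 ∧
      ((Q.map (eqv k N)).IsHomogeneous (homogeneousSubmodule (Fin (N + 4)) k)) ∧
      ∀ t, 1 ≤ t → HasDepth (mR k N) (RR k N ⧸ symbPow Q t) (φ t) by
    obtain ⟨Q, hh, hom, hd⟩ := h
    refine ⟨Q.map (eqv k N), hom, ?_, fun t ht => ?_⟩
    · rw [← hh]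
      exact RingEquiv.height_map (eqv k N) Q
    · have := (hd t ht).map (eqv k N)
      rwa [map_mR, ← symbPow_map] at this
  rcases Nat.eq_zero_or_pos N with rfl | hN
  · obtain ⟨Q, h1, h2, h3⟩ := one_case k
    refine ⟨Q, h1, h2, fun t ht => ?_⟩
    have : φ t = 1 := le_antisymm (hφm t ht) (hpos t ht)
    rw [this]
    exact h3 t ht
  · let ψ : ℕ → ℕ := fun t => N + 1 - max (φ t) 1
    have hψ : ∀ t, 1 ≤ t → N + 1 - ψ t = φ t := by
      intro t ht
      have h1 := hφm t ht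
      have h2 := hpos t ht
      simp only [ψ]
      omega
    have H : Good N t0 D ψ := by
      refine ⟨ht0, hD, fun t => ?_, fun t ht => ?_⟩
      · simp only [ψ]
        omega
      · simp only [ψ, hper t ht]
    refine ⟨QQ k N t0 D ψ, height_QQ k hN, homog_QQ k N t0 D ψ, fun t ht => ?_⟩
    have := depth_QQ k hN H ht
    rwa [hψ t ht] at this

end FINAL

end Pool.Agent.Helper91.SymD
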